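import Pool.Agent.H10.LDV.Stmts

/-!
# LPM: the linear programme for the choice of the tool, machine generated
-/

set_option autoImplicit false
set_option linter.unusedVariables false

namespace Pool.LDV.LPM10

open Finset

/-- the hypotheses of `S_LPM` -/
structure Hyp (m : ℝ) (c g : Fin 3 → ℕ → ℝ) (x : Fin 3 → ℝ) : Prop where
  hc : ∀ l n, 0 ≤ c l n
  hg : ∀ l n, 0 ≤ g l n
  hx : ∀ l, x l = c l 1 + c l 2 + c l 3 + c l 4 + c l 5 + c l 6
  g1 : ∀ l, g l 1 = c l 1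
  g2 : ∀ l, g l 2 = 2 * c l 2
  g3 : ∀ l, g l 3 = 3 * c l 3
  g4 : ∀ l, g l 4 = 4 * c l 4
  g5 : ∀ l, 5 * c l 5 ≤ g l 5
  g6 : ∀ l, 5 * c l 6 ≤ g l 6
  h6 : ∀ l, c l 6 ≤ 1 / 10
  hs : x 0 + x 1 + x 2 ≤ 1
  ht : ∀ j k, j ≠ k → 3 / 5 < x j + x k
  hm : 2 / 5 ≤ m
  G1 : g 1 1 + g 1 2 + g 1 3 + g 1 4 + g 1 5 + g 1 6 = m
  G2 : g 2 1 + g 2 2 + g 2 3 + g 2 4 + g 2 5 + g 2 6 = m
  G0 : g 0 1 + g 0 2 + g 0 3 + g 0 4 + g 0 5 + g 0 6 ≤ m
  C : ∀ (i j k : Fin 3) (K : Finset ℕ), i ≠ j → i ≠ k → j ≠ k → K ⊆ Icc 2 6 →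
    3 / 5 < ∑ n ∈ K, c i n +
      (Phi3 (x j) (∑ n ∈ K, g i n) + Phi3 (x k) (∑ n ∈ K, g i n)) / 2
  L : ∀ (i j k : Fin 3) (K : Finset ℕ) (e : ℕ), i ≠ j → i ≠ k → j ≠ k → K ⊆ Icc 2 6 →
    e ∈ Icc 1 4 → 3 / 5 < ∑ n ∈ K, c i n + (x j - c j e) + (x k - c k e) +
      max 0 (c j e + c k e - ∑ n ∈ K, g i n)
  F : ∀ (i j k : Fin 3) (e f : ℕ), i ≠ j → i ≠ k → j ≠ k → e ∈ Icc 2 5 → f ∈ Icc 2 5 →
    3 / 5 < x i / 2 + (x j - c j e / 2) + (x k - c k f / 2)
  R : ∀ (l : Fin 3) (e : ℕ), l ≠ 0 → e ∈ Icc 1 5 →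
    3 / 5 < x 1 + x 2 - min (c l e) (m - (g 0 1 + g 0 2 + g 0 3 + g 0 4 + g 0 5 + g 0 6))

/-- nine cases -/
def Ph (k a b g : ℝ) : Prop :=
  3 / 5 < k + (a + b) / 2 ∨ 3 / 5 < k + (a + (5 * b - g) / 3) / 2 ∨
  3 / 5 < k + (a + (2 * b - g)) / 2 ∨ 3 / 5 < k + ((5 * a - g) / 3 + b) / 2 ∨
  3 / 5 < k + ((5 * a - g) / 3 + (5 * b - g) / 3) / 2 ∨
  3 / 5 < k + ((5 * a - g) / 3 + (2 * b - g)) / 2 ∨ 3 / 5 < k + ((2 * a - g) + b) / 2 ∨
  3 / 5 < k + ((2 * a - g) + (5 * b - g) / 3) / 2 ∨ 3 / 5 < k + ((2 * a - g) + (2 * b - g)) / 2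

/-- two cases -/
def Lh (A d : ℝ) : Prop := 3 / 5 < A ∨ 3 / 5 < A + d

/-- two cases -/
def Rh (A u d : ℝ) : Prop := 3 / 5 < A - u ∨ 3 / 5 < A - d

theorem phi_cases (a g : ℝ) : Phi3 a g = a ∨ Phi3 a g = (5 * a - g) / 3 ∨ Phi3 a g = 2 * a - g := by
  unfold Phi3
  rcases max_choice a (max ((5 * a - g) / 3) (2 * a - g)) with h | h
  · exact Or.inl h
  · rw [h]
    rcases max_choice ((5 * a - g) / 3) (2 * a - g) with h2 | h2
    · exact Or.inr (Or.inl h2)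
    · exact Or.inr (Or.inr h2)

theorem phi_split {k a b g : ℝ} (h : 3 / 5 < k + (Phi3 a g + Phi3 b g) / 2) : Ph k a b g := by
  unfold Ph
  rcases phi_cases a g with h1 | h1 | h1 <;> rcases phi_cases b g with h2 | h2 | h2 <;>
    rw [h1, h2] at h <;> simp only [h, true_or, or_true]

theorem l_split {A d : ℝ} (h : 3 / 5 < A + max 0 d) : Lh A d := by
  unfold Lh
  rcases max_choice 0 d with h1 | h1
  · rw [h1] at h
    exact Or.inl (by linarith)
  · rw [h1] at h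
    exact Or.inr h

theorem r_split {A u d : ℝ} (h : 3 / 5 < A - min u d) : Rh A u d := by
  unfold Rh
  rcases min_choice u d with h1 | h1
  · rw [h1] at h
    exact Or.inl h
  · rw [h1] at h
    exact Or.inr h

theorem oL1_2346_4 {m : ℝ} {c g : Fin 3 → ℕ → ℝ} {x : Fin 3 → ℝ} (H : Hyp m c g x) :
    Lh ((c 1 2 + (c 1 3 + (c 1 4 + c 1 6))) + (x 2 - c 2 4) + (x 0 - c 0 4)) (c 2 4 + c 0 4 - (2 * c 1 2 + (3 * c 1 3 + (4 * c 1 4 + g 1 6)))) := by
  have s1 : ∑ n ∈ ({2, 3, 4, 6} : Finset ℕ), c 1 n = c 1 2 + (c 1 3 + (c 1 4 + c 1 6)) := by rw [Finset.sum_insert (by decide), Finset.sum_insert (by decide), Finset.sum_insert (by decide), Finset.sum_singleton]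
  have s2 : ∑ n ∈ ({2, 3, 4, 6} : Finset ℕ), g 1 n = 2 * c 1 2 + (3 * c 1 3 + (4 * c 1 4 + g 1 6)) := by rw [Finset.sum_insert (by decide), Finset.sum_insert (by decide), Finset.sum_insert (by decide), Finset.sum_singleton, H.g2 1, H.g3 1, H.g4 1]
  have h0 := H.L 1 2 0 {2, 3, 4, 6} 4 (by decide) (by decide) (by decide) (by decide) (by decide)
  rw [s1, s2] at h0
  exact l_split h0

theorem oL2_2346_1 {m : ℝ} {c g : Fin 3 → ℕ → ℝ} {x : Fin 3 → ℝ} (H : Hyp m c g x) :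
    Lh ((c 2 2 + (c 2 3 + (c 2 4 + c 2 6))) + (x 0 - c 0 1) + (x 1 - c 1 1)) (c 0 1 + c 1 1 - (2 * c 2 2 + (3 * c 2 3 + (4 * c 2 4 + g 2 6)))) := by
  have s1 : ∑ n ∈ ({2, 3, 4, 6} : Finset ℕ), c 2 n = c 2 2 + (c 2 3 + (c 2 4 + c 2 6)) := by rw [Finset.sum_insert (by decide), Finset.sum_insert (by decide), Finset.sum_insert (by decide), Finset.sum_singleton]
  have s2 : ∑ n ∈ ({2, 3, 4, 6} : Finset ℕ), g 2 n = 2 * c 2 2 + (3 * c 2 3 + (4 * c 2 4 + g 2 6)) := by rw [Finset.sum_insert (by decide), Finset.sum_insert (by decide), Finset.sum_insert (by decide), Finset.sum_singleton, H.g2 2, H.g3 2, H.g4 2]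
  have h0 := H.L 2 0 1 {2, 3, 4, 6} 1 (by decide) (by decide) (by decide) (by decide) (by decide)
  rw [s1, s2] at h0
  exact l_split h0

theorem oL1_2346_2 {m : ℝ} {c g : Fin 3 → ℕ → ℝ} {x : Fin 3 → ℝ} (H : Hyp m c g x) :
    Lh ((c 1 2 + (c 1 3 + (c 1 4 + c 1 6))) + (x 2 - c 2 2) + (x 0 - c 0 2)) (c 2 2 + c 0 2 - (2 * c 1 2 + (3 * c 1 3 + (4 * c 1 4 + g 1 6)))) := by
  have s1 : ∑ n ∈ ({2, 3, 4, 6} : Finset ℕ), c 1 n = c 1 2 + (c 1 3 + (c 1 4 + c 1 6)) := by rw [Finset.sum_insert (by decide), Finset.sum_insert (by decide), Finset.sum_insert (by decide), Finset.sum_singleton]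
  have s2 : ∑ n ∈ ({2, 3, 4, 6} : Finset ℕ), g 1 n = 2 * c 1 2 + (3 * c 1 3 + (4 * c 1 4 + g 1 6)) := by rw [Finset.sum_insert (by decide), Finset.sum_insert (by decide), Finset.sum_insert (by decide), Finset.sum_singleton, H.g2 1, H.g3 1, H.g4 1]
  have h0 := H.L 1 2 0 {2, 3, 4, 6} 2 (by decide) (by decide) (by decide) (by decide) (by decide)
  rw [s1, s2] at h0
  exact l_split h0

theorem oF0_22 {m : ℝ} {c g : Fin 3 → ℕ → ℝ} {x : Fin 3 → ℝ} (H : Hyp m c g x) :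
    3 / 5 < x 0 / 2 + (x 1 - c 1 2 / 2) + (x 2 - c 2 2 / 2) := by
  exact H.F 0 1 2 2 2 (by decide) (by decide) (by decide) (by decide) (by decide)

theorem oL2_346_1 {m : ℝ} {c g : Fin 3 → ℕ → ℝ} {x : Fin 3 → ℝ} (H : Hyp m c g x) :
    Lh ((c 2 3 + (c 2 4 + c 2 6)) + (x 0 - c 0 1) + (x 1 - c 1 1)) (c 0 1 + c 1 1 - (3 * c 2 3 + (4 * c 2 4 + g 2 6))) := by
  have s1 : ∑ n ∈ ({3, 4, 6} : Finset ℕ), c 2 n = c 2 3 + (c 2 4 + c 2 6) := by rw [Finset.sum_insert (by decide), Finset.sum_insert (by decide), Finset.sum_singleton]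
  have s2 : ∑ n ∈ ({3, 4, 6} : Finset ℕ), g 2 n = 3 * c 2 3 + (4 * c 2 4 + g 2 6) := by rw [Finset.sum_insert (by decide), Finset.sum_insert (by decide), Finset.sum_singleton, H.g3 2, H.g4 2]
  have h0 := H.L 2 0 1 {3, 4, 6} 1 (by decide) (by decide) (by decide) (by decide) (by decide)
  rw [s1, s2] at h0
  exact l_split h0

theorem oL2_346_2 {m : ℝ} {c g : Fin 3 → ℕ → ℝ} {x : Fin 3 → ℝ} (H : Hyp m c g x) :
    Lh ((c 2 3 + (c 2 4 + c 2 6)) + (x 0 - c 0 2) + (x 1 - c 1 2)) (c 0 2 + c 1 2 - (3 * c 2 3 + (4 * c 2 4 + g 2 6))) := by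
  have s1 : ∑ n ∈ ({3, 4, 6} : Finset ℕ), c 2 n = c 2 3 + (c 2 4 + c 2 6) := by rw [Finset.sum_insert (by decide), Finset.sum_insert (by decide), Finset.sum_singleton]
  have s2 : ∑ n ∈ ({3, 4, 6} : Finset ℕ), g 2 n = 3 * c 2 3 + (4 * c 2 4 + g 2 6) := by rw [Finset.sum_insert (by decide), Finset.sum_insert (by decide), Finset.sum_singleton, H.g3 2, H.g4 2]
  have h0 := H.L 2 0 1 {3, 4, 6} 2 (by decide) (by decide) (by decide) (by decide) (by decide)
  rw [s1, s2] at h0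
  exact l_split h0

theorem oL0_34_3 {m : ℝ} {c g : Fin 3 → ℕ → ℝ} {x : Fin 3 → ℝ} (H : Hyp m c g x) :
    Lh ((c 0 3 + c 0 4) + (x 1 - c 1 3) + (x 2 - c 2 3)) (c 1 3 + c 2 3 - (3 * c 0 3 + 4 * c 0 4)) := by
  have s1 : ∑ n ∈ ({3, 4} : Finset ℕ), c 0 n = c 0 3 + c 0 4 := by rw [Finset.sum_insert (by decide), Finset.sum_singleton]
  have s2 : ∑ n ∈ ({3, 4} : Finset ℕ), g 0 n = 3 * c 0 3 + 4 * c 0 4 := by rw [Finset.sum_insert (by decide), Finset.sum_singleton, H.g3 0, H.g4 0]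
  have h0 := H.L 0 1 2 {3, 4} 3 (by decide) (by decide) (by decide) (by decide) (by decide)
  rw [s1, s2] at h0
  exact l_split h0

theorem oL0_346_4 {m : ℝ} {c g : Fin 3 → ℕ → ℝ} {x : Fin 3 → ℝ} (H : Hyp m c g x) :
    Lh ((c 0 3 + (c 0 4 + c 0 6)) + (x 1 - c 1 4) + (x 2 - c 2 4)) (c 1 4 + c 2 4 - (3 * c 0 3 + (4 * c 0 4 + g 0 6))) := by
  have s1 : ∑ n ∈ ({3, 4, 6} : Finset ℕ), c 0 n = c 0 3 + (c 0 4 + c 0 6) := by rw [Finset.sum_insert (by decide), Finset.sum_insert (by decide), Finset.sum_singleton]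
  have s2 : ∑ n ∈ ({3, 4, 6} : Finset ℕ), g 0 n = 3 * c 0 3 + (4 * c 0 4 + g 0 6) := by rw [Finset.sum_insert (by decide), Finset.sum_insert (by decide), Finset.sum_singleton, H.g3 0, H.g4 0]
  have h0 := H.L 0 1 2 {3, 4, 6} 4 (by decide) (by decide) (by decide) (by decide) (by decide)
  rw [s1, s2] at h0
  exact l_split h0

theorem oL2_36_4 {m : ℝ} {c g : Fin 3 → ℕ → ℝ} {x : Fin 3 → ℝ} (H : Hyp m c g x) :
    Lh ((c 2 3 + c 2 6) + (x 0 - c 0 4) + (x 1 - c 1 4)) (c 0 4 + c 1 4 - (3 * c 2 3 + g 2 6)) := by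
  have s1 : ∑ n ∈ ({3, 6} : Finset ℕ), c 2 n = c 2 3 + c 2 6 := by rw [Finset.sum_insert (by decide), Finset.sum_singleton]
  have s2 : ∑ n ∈ ({3, 6} : Finset ℕ), g 2 n = 3 * c 2 3 + g 2 6 := by rw [Finset.sum_insert (by decide), Finset.sum_singleton, H.g3 2]
  have h0 := H.L 2 0 1 {3, 6} 4 (by decide) (by decide) (by decide) (by decide) (by decide)
  rw [s1, s2] at h0
  exact l_split h0

theorem oL1_346_3 {m : ℝ} {c g : Fin 3 → ℕ → ℝ} {x : Fin 3 → ℝ} (H : Hyp m c g x) :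
    Lh ((c 1 3 + (c 1 4 + c 1 6)) + (x 2 - c 2 3) + (x 0 - c 0 3)) (c 2 3 + c 0 3 - (3 * c 1 3 + (4 * c 1 4 + g 1 6))) := by
  have s1 : ∑ n ∈ ({3, 4, 6} : Finset ℕ), c 1 n = c 1 3 + (c 1 4 + c 1 6) := by rw [Finset.sum_insert (by decide), Finset.sum_insert (by decide), Finset.sum_singleton]
  have s2 : ∑ n ∈ ({3, 4, 6} : Finset ℕ), g 1 n = 3 * c 1 3 + (4 * c 1 4 + g 1 6) := by rw [Finset.sum_insert (by decide), Finset.sum_insert (by decide), Finset.sum_singleton, H.g3 1, H.g4 1]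
  have h0 := H.L 1 2 0 {3, 4, 6} 3 (by decide) (by decide) (by decide) (by decide) (by decide)
  rw [s1, s2] at h0
  exact l_split h0

theorem oF0_32 {m : ℝ} {c g : Fin 3 → ℕ → ℝ} {x : Fin 3 → ℝ} (H : Hyp m c g x) :
    3 / 5 < x 0 / 2 + (x 1 - c 1 3 / 2) + (x 2 - c 2 2 / 2) := by
  exact H.F 0 1 2 3 2 (by decide) (by decide) (by decide) (by decide) (by decide)

theorem oL2_2346_3 {m : ℝ} {c g : Fin 3 → ℕ → ℝ} {x : Fin 3 → ℝ} (H : Hyp m c g x) :
    Lh ((c 2 2 + (c 2 3 + (c 2 4 + c 2 6))) + (x 0 - c 0 3) + (x 1 - c 1 3)) (c 0 3 + c 1 3 - (2 * c 2 2 + (3 * c 2 3 + (4 * c 2 4 + g 2 6)))) := by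
  have s1 : ∑ n ∈ ({2, 3, 4, 6} : Finset ℕ), c 2 n = c 2 2 + (c 2 3 + (c 2 4 + c 2 6)) := by rw [Finset.sum_insert (by decide), Finset.sum_insert (by decide), Finset.sum_insert (by decide), Finset.sum_singleton]
  have s2 : ∑ n ∈ ({2, 3, 4, 6} : Finset ℕ), g 2 n = 2 * c 2 2 + (3 * c 2 3 + (4 * c 2 4 + g 2 6)) := by rw [Finset.sum_insert (by decide), Finset.sum_insert (by decide), Finset.sum_insert (by decide), Finset.sum_singleton, H.g2 2, H.g3 2, H.g4 2]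
  have h0 := H.L 2 0 1 {2, 3, 4, 6} 3 (by decide) (by decide) (by decide) (by decide) (by decide)
  rw [s1, s2] at h0
  exact l_split h0

theorem oL0_346_1 {m : ℝ} {c g : Fin 3 → ℕ → ℝ} {x : Fin 3 → ℝ} (H : Hyp m c g x) :
    Lh ((c 0 3 + (c 0 4 + c 0 6)) + (x 1 - c 1 1) + (x 2 - c 2 1)) (c 1 1 + c 2 1 - (3 * c 0 3 + (4 * c 0 4 + g 0 6))) := by
  have s1 : ∑ n ∈ ({3, 4, 6} : Finset ℕ), c 0 n = c 0 3 + (c 0 4 + c 0 6) := by rw [Finset.sum_insert (by decide), Finset.sum_insert (by decide), Finset.sum_singleton]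
  have s2 : ∑ n ∈ ({3, 4, 6} : Finset ℕ), g 0 n = 3 * c 0 3 + (4 * c 0 4 + g 0 6) := by rw [Finset.sum_insert (by decide), Finset.sum_insert (by decide), Finset.sum_singleton, H.g3 0, H.g4 0]
  have h0 := H.L 0 1 2 {3, 4, 6} 1 (by decide) (by decide) (by decide) (by decide) (by decide)
  rw [s1, s2] at h0
  exact l_split h0

theorem oL2_346_3 {m : ℝ} {c g : Fin 3 → ℕ → ℝ} {x : Fin 3 → ℝ} (H : Hyp m c g x) :
    Lh ((c 2 3 + (c 2 4 + c 2 6)) + (x 0 - c 0 3) + (x 1 - c 1 3)) (c 0 3 + c 1 3 - (3 * c 2 3 + (4 * c 2 4 + g 2 6))) := by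
  have s1 : ∑ n ∈ ({3, 4, 6} : Finset ℕ), c 2 n = c 2 3 + (c 2 4 + c 2 6) := by rw [Finset.sum_insert (by decide), Finset.sum_insert (by decide), Finset.sum_singleton]
  have s2 : ∑ n ∈ ({3, 4, 6} : Finset ℕ), g 2 n = 3 * c 2 3 + (4 * c 2 4 + g 2 6) := by rw [Finset.sum_insert (by decide), Finset.sum_insert (by decide), Finset.sum_singleton, H.g3 2, H.g4 2]
  have h0 := H.L 2 0 1 {3, 4, 6} 3 (by decide) (by decide) (by decide) (by decide) (by decide)
  rw [s1, s2] at h0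
  exact l_split h0

theorem oL1_46_2 {m : ℝ} {c g : Fin 3 → ℕ → ℝ} {x : Fin 3 → ℝ} (H : Hyp m c g x) :
    Lh ((c 1 4 + c 1 6) + (x 2 - c 2 2) + (x 0 - c 0 2)) (c 2 2 + c 0 2 - (4 * c 1 4 + g 1 6)) := by
  have s1 : ∑ n ∈ ({4, 6} : Finset ℕ), c 1 n = c 1 4 + c 1 6 := by rw [Finset.sum_insert (by decide), Finset.sum_singleton]
  have s2 : ∑ n ∈ ({4, 6} : Finset ℕ), g 1 n = 4 * c 1 4 + g 1 6 := by rw [Finset.sum_insert (by decide), Finset.sum_singleton, H.g4 1]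
  have h0 := H.L 1 2 0 {4, 6} 2 (by decide) (by decide) (by decide) (by decide) (by decide)
  rw [s1, s2] at h0
  exact l_split h0

theorem oL1_346_1 {m : ℝ} {c g : Fin 3 → ℕ → ℝ} {x : Fin 3 → ℝ} (H : Hyp m c g x) :
    Lh ((c 1 3 + (c 1 4 + c 1 6)) + (x 2 - c 2 1) + (x 0 - c 0 1)) (c 2 1 + c 0 1 - (3 * c 1 3 + (4 * c 1 4 + g 1 6))) := by
  have s1 : ∑ n ∈ ({3, 4, 6} : Finset ℕ), c 1 n = c 1 3 + (c 1 4 + c 1 6) := by rw [Finset.sum_insert (by decide), Finset.sum_insert (by decide), Finset.sum_singleton]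
  have s2 : ∑ n ∈ ({3, 4, 6} : Finset ℕ), g 1 n = 3 * c 1 3 + (4 * c 1 4 + g 1 6) := by rw [Finset.sum_insert (by decide), Finset.sum_insert (by decide), Finset.sum_singleton, H.g3 1, H.g4 1]
  have h0 := H.L 1 2 0 {3, 4, 6} 1 (by decide) (by decide) (by decide) (by decide) (by decide)
  rw [s1, s2] at h0
  exact l_split h0

theorem oL1_46_1 {m : ℝ} {c g : Fin 3 → ℕ → ℝ} {x : Fin 3 → ℝ} (H : Hyp m c g x) :
    Lh ((c 1 4 + c 1 6) + (x 2 - c 2 1) + (x 0 - c 0 1)) (c 2 1 + c 0 1 - (4 * c 1 4 + g 1 6)) := by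
  have s1 : ∑ n ∈ ({4, 6} : Finset ℕ), c 1 n = c 1 4 + c 1 6 := by rw [Finset.sum_insert (by decide), Finset.sum_singleton]
  have s2 : ∑ n ∈ ({4, 6} : Finset ℕ), g 1 n = 4 * c 1 4 + g 1 6 := by rw [Finset.sum_insert (by decide), Finset.sum_singleton, H.g4 1]
  have h0 := H.L 1 2 0 {4, 6} 1 (by decide) (by decide) (by decide) (by decide) (by decide)
  rw [s1, s2] at h0
  exact l_split h0

theorem oC1_46 {m : ℝ} {c g : Fin 3 → ℕ → ℝ} {x : Fin 3 → ℝ} (H : Hyp m c g x) :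
    Ph (c 1 4 + c 1 6) (x 2) (x 0) (4 * c 1 4 + g 1 6) := by
  have s1 : ∑ n ∈ ({4, 6} : Finset ℕ), c 1 n = c 1 4 + c 1 6 := by rw [Finset.sum_insert (by decide), Finset.sum_singleton]
  have s2 : ∑ n ∈ ({4, 6} : Finset ℕ), g 1 n = 4 * c 1 4 + g 1 6 := by rw [Finset.sum_insert (by decide), Finset.sum_singleton, H.g4 1]
  have h0 := H.C 1 2 0 {4, 6} (by decide) (by decide) (by decide) (by decide)
  rw [s1, s2] at h0
  exact phi_split h0

theorem oL2_246_4 {m : ℝ} {c g : Fin 3 → ℕ → ℝ} {x : Fin 3 → ℝ} (H : Hyp m c g x) :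
    Lh ((c 2 2 + (c 2 4 + c 2 6)) + (x 0 - c 0 4) + (x 1 - c 1 4)) (c 0 4 + c 1 4 - (2 * c 2 2 + (4 * c 2 4 + g 2 6))) := by
  have s1 : ∑ n ∈ ({2, 4, 6} : Finset ℕ), c 2 n = c 2 2 + (c 2 4 + c 2 6) := by rw [Finset.sum_insert (by decide), Finset.sum_insert (by decide), Finset.sum_singleton]
  have s2 : ∑ n ∈ ({2, 4, 6} : Finset ℕ), g 2 n = 2 * c 2 2 + (4 * c 2 4 + g 2 6) := by rw [Finset.sum_insert (by decide), Finset.sum_insert (by decide), Finset.sum_singleton, H.g2 2, H.g4 2]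
  have h0 := H.L 2 0 1 {2, 4, 6} 4 (by decide) (by decide) (by decide) (by decide) (by decide)
  rw [s1, s2] at h0
  exact l_split h0

theorem oC2_36 {m : ℝ} {c g : Fin 3 → ℕ → ℝ} {x : Fin 3 → ℝ} (H : Hyp m c g x) :
    Ph (c 2 3 + c 2 6) (x 0) (x 1) (3 * c 2 3 + g 2 6) := by
  have s1 : ∑ n ∈ ({3, 6} : Finset ℕ), c 2 n = c 2 3 + c 2 6 := by rw [Finset.sum_insert (by decide), Finset.sum_singleton]
  have s2 : ∑ n ∈ ({3, 6} : Finset ℕ), g 2 n = 3 * c 2 3 + g 2 6 := by rw [Finset.sum_insert (by decide), Finset.sum_singleton, H.g3 2]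
  have h0 := H.C 2 0 1 {3, 6} (by decide) (by decide) (by decide) (by decide)
  rw [s1, s2] at h0
  exact phi_split h0

theorem oC2_26 {m : ℝ} {c g : Fin 3 → ℕ → ℝ} {x : Fin 3 → ℝ} (H : Hyp m c g x) :
    Ph (c 2 2 + c 2 6) (x 0) (x 1) (2 * c 2 2 + g 2 6) := by
  have s1 : ∑ n ∈ ({2, 6} : Finset ℕ), c 2 n = c 2 2 + c 2 6 := by rw [Finset.sum_insert (by decide), Finset.sum_singleton]
  have s2 : ∑ n ∈ ({2, 6} : Finset ℕ), g 2 n = 2 * c 2 2 + g 2 6 := by rw [Finset.sum_insert (by decide), Finset.sum_singleton, H.g2 2]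
  have h0 := H.C 2 0 1 {2, 6} (by decide) (by decide) (by decide) (by decide)
  rw [s1, s2] at h0
  exact phi_split h0

theorem oC1_36 {m : ℝ} {c g : Fin 3 → ℕ → ℝ} {x : Fin 3 → ℝ} (H : Hyp m c g x) :
    Ph (c 1 3 + c 1 6) (x 2) (x 0) (3 * c 1 3 + g 1 6) := by
  have s1 : ∑ n ∈ ({3, 6} : Finset ℕ), c 1 n = c 1 3 + c 1 6 := by rw [Finset.sum_insert (by decide), Finset.sum_singleton]
  have s2 : ∑ n ∈ ({3, 6} : Finset ℕ), g 1 n = 3 * c 1 3 + g 1 6 := by rw [Finset.sum_insert (by decide), Finset.sum_singleton, H.g3 1]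
  have h0 := H.C 1 2 0 {3, 6} (by decide) (by decide) (by decide) (by decide)
  rw [s1, s2] at h0
  exact phi_split h0

theorem oL2_4_3 {m : ℝ} {c g : Fin 3 → ℕ → ℝ} {x : Fin 3 → ℝ} (H : Hyp m c g x) :
    Lh (c 2 4 + (x 0 - c 0 3) + (x 1 - c 1 3)) (c 0 3 + c 1 3 - 4 * c 2 4) := by
  have s1 : ∑ n ∈ ({4} : Finset ℕ), c 2 n = c 2 4 := by rw [Finset.sum_singleton]
  have s2 : ∑ n ∈ ({4} : Finset ℕ), g 2 n = 4 * c 2 4 := by rw [Finset.sum_singleton, H.g4 2]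
  have h0 := H.L 2 0 1 {4} 3 (by decide) (by decide) (by decide) (by decide) (by decide)
  rw [s1, s2] at h0
  exact l_split h0

theorem oC0_4 {m : ℝ} {c g : Fin 3 → ℕ → ℝ} {x : Fin 3 → ℝ} (H : Hyp m c g x) :
    Ph (c 0 4) (x 1) (x 2) (4 * c 0 4) := by
  have s1 : ∑ n ∈ ({4} : Finset ℕ), c 0 n = c 0 4 := by rw [Finset.sum_singleton]
  have s2 : ∑ n ∈ ({4} : Finset ℕ), g 0 n = 4 * c 0 4 := by rw [Finset.sum_singleton, H.g4 0]
  have h0 := H.C 0 1 2 {4} (by decide) (by decide) (by decide) (by decide)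
  rw [s1, s2] at h0
  exact phi_split h0

theorem oL0_46_2 {m : ℝ} {c g : Fin 3 → ℕ → ℝ} {x : Fin 3 → ℝ} (H : Hyp m c g x) :
    Lh ((c 0 4 + c 0 6) + (x 1 - c 1 2) + (x 2 - c 2 2)) (c 1 2 + c 2 2 - (4 * c 0 4 + g 0 6)) := by
  have s1 : ∑ n ∈ ({4, 6} : Finset ℕ), c 0 n = c 0 4 + c 0 6 := by rw [Finset.sum_insert (by decide), Finset.sum_singleton]
  have s2 : ∑ n ∈ ({4, 6} : Finset ℕ), g 0 n = 4 * c 0 4 + g 0 6 := by rw [Finset.sum_insert (by decide), Finset.sum_singleton, H.g4 0]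
  have h0 := H.L 0 1 2 {4, 6} 2 (by decide) (by decide) (by decide) (by decide) (by decide)
  rw [s1, s2] at h0
  exact l_split h0

theorem oL2_234_3 {m : ℝ} {c g : Fin 3 → ℕ → ℝ} {x : Fin 3 → ℝ} (H : Hyp m c g x) :
    Lh ((c 2 2 + (c 2 3 + c 2 4)) + (x 0 - c 0 3) + (x 1 - c 1 3)) (c 0 3 + c 1 3 - (2 * c 2 2 + (3 * c 2 3 + 4 * c 2 4))) := by
  have s1 : ∑ n ∈ ({2, 3, 4} : Finset ℕ), c 2 n = c 2 2 + (c 2 3 + c 2 4) := by rw [Finset.sum_insert (by decide), Finset.sum_insert (by decide), Finset.sum_singleton]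
  have s2 : ∑ n ∈ ({2, 3, 4} : Finset ℕ), g 2 n = 2 * c 2 2 + (3 * c 2 3 + 4 * c 2 4) := by rw [Finset.sum_insert (by decide), Finset.sum_insert (by decide), Finset.sum_singleton, H.g2 2, H.g3 2, H.g4 2]
  have h0 := H.L 2 0 1 {2, 3, 4} 3 (by decide) (by decide) (by decide) (by decide) (by decide)
  rw [s1, s2] at h0
  exact l_split h0

theorem oL0_4_3 {m : ℝ} {c g : Fin 3 → ℕ → ℝ} {x : Fin 3 → ℝ} (H : Hyp m c g x) :
    Lh (c 0 4 + (x 1 - c 1 3) + (x 2 - c 2 3)) (c 1 3 + c 2 3 - 4 * c 0 4) := by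
  have s1 : ∑ n ∈ ({4} : Finset ℕ), c 0 n = c 0 4 := by rw [Finset.sum_singleton]
  have s2 : ∑ n ∈ ({4} : Finset ℕ), g 0 n = 4 * c 0 4 := by rw [Finset.sum_singleton, H.g4 0]
  have h0 := H.L 0 1 2 {4} 3 (by decide) (by decide) (by decide) (by decide) (by decide)
  rw [s1, s2] at h0
  exact l_split h0

theorem oC2_46 {m : ℝ} {c g : Fin 3 → ℕ → ℝ} {x : Fin 3 → ℝ} (H : Hyp m c g x) :
    Ph (c 2 4 + c 2 6) (x 0) (x 1) (4 * c 2 4 + g 2 6) := by
  have s1 : ∑ n ∈ ({4, 6} : Finset ℕ), c 2 n = c 2 4 + c 2 6 := by rw [Finset.sum_insert (by decide), Finset.sum_singleton]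
  have s2 : ∑ n ∈ ({4, 6} : Finset ℕ), g 2 n = 4 * c 2 4 + g 2 6 := by rw [Finset.sum_insert (by decide), Finset.sum_singleton, H.g4 2]
  have h0 := H.C 2 0 1 {4, 6} (by decide) (by decide) (by decide) (by decide)
  rw [s1, s2] at h0
  exact phi_split h0

theorem oC1_6 {m : ℝ} {c g : Fin 3 → ℕ → ℝ} {x : Fin 3 → ℝ} (H : Hyp m c g x) :
    Ph (c 1 6) (x 2) (x 0) (g 1 6) := by
  have s1 : ∑ n ∈ ({6} : Finset ℕ), c 1 n = c 1 6 := by rw [Finset.sum_singleton]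
  have s2 : ∑ n ∈ ({6} : Finset ℕ), g 1 n = g 1 6 := by rw [Finset.sum_singleton]
  have h0 := H.C 1 2 0 {6} (by decide) (by decide) (by decide) (by decide)
  rw [s1, s2] at h0
  exact phi_split h0

theorem oL1_4_2 {m : ℝ} {c g : Fin 3 → ℕ → ℝ} {x : Fin 3 → ℝ} (H : Hyp m c g x) :
    Lh (c 1 4 + (x 2 - c 2 2) + (x 0 - c 0 2)) (c 2 2 + c 0 2 - 4 * c 1 4) := by
  have s1 : ∑ n ∈ ({4} : Finset ℕ), c 1 n = c 1 4 := by rw [Finset.sum_singleton]
  have s2 : ∑ n ∈ ({4} : Finset ℕ), g 1 n = 4 * c 1 4 := by rw [Finset.sum_singleton, H.g4 1]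
  have h0 := H.L 1 2 0 {4} 2 (by decide) (by decide) (by decide) (by decide) (by decide)
  rw [s1, s2] at h0
  exact l_split h0

theorem oC0_346 {m : ℝ} {c g : Fin 3 → ℕ → ℝ} {x : Fin 3 → ℝ} (H : Hyp m c g x) :
    Ph (c 0 3 + (c 0 4 + c 0 6)) (x 1) (x 2) (3 * c 0 3 + (4 * c 0 4 + g 0 6)) := by
  have s1 : ∑ n ∈ ({3, 4, 6} : Finset ℕ), c 0 n = c 0 3 + (c 0 4 + c 0 6) := by rw [Finset.sum_insert (by decide), Finset.sum_insert (by decide), Finset.sum_singleton]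
  have s2 : ∑ n ∈ ({3, 4, 6} : Finset ℕ), g 0 n = 3 * c 0 3 + (4 * c 0 4 + g 0 6) := by rw [Finset.sum_insert (by decide), Finset.sum_insert (by decide), Finset.sum_singleton, H.g3 0, H.g4 0]
  have h0 := H.C 0 1 2 {3, 4, 6} (by decide) (by decide) (by decide) (by decide)
  rw [s1, s2] at h0
  exact phi_split h0

theorem oL1_24_4 {m : ℝ} {c g : Fin 3 → ℕ → ℝ} {x : Fin 3 → ℝ} (H : Hyp m c g x) :
    Lh ((c 1 2 + c 1 4) + (x 2 - c 2 4) + (x 0 - c 0 4)) (c 2 4 + c 0 4 - (2 * c 1 2 + 4 * c 1 4)) := by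
  have s1 : ∑ n ∈ ({2, 4} : Finset ℕ), c 1 n = c 1 2 + c 1 4 := by rw [Finset.sum_insert (by decide), Finset.sum_singleton]
  have s2 : ∑ n ∈ ({2, 4} : Finset ℕ), g 1 n = 2 * c 1 2 + 4 * c 1 4 := by rw [Finset.sum_insert (by decide), Finset.sum_singleton, H.g2 1, H.g4 1]
  have h0 := H.L 1 2 0 {2, 4} 4 (by decide) (by decide) (by decide) (by decide) (by decide)
  rw [s1, s2] at h0
  exact l_split h0

theorem oL2_46_3 {m : ℝ} {c g : Fin 3 → ℕ → ℝ} {x : Fin 3 → ℝ} (H : Hyp m c g x) :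
    Lh ((c 2 4 + c 2 6) + (x 0 - c 0 3) + (x 1 - c 1 3)) (c 0 3 + c 1 3 - (4 * c 2 4 + g 2 6)) := by
  have s1 : ∑ n ∈ ({4, 6} : Finset ℕ), c 2 n = c 2 4 + c 2 6 := by rw [Finset.sum_insert (by decide), Finset.sum_singleton]
  have s2 : ∑ n ∈ ({4, 6} : Finset ℕ), g 2 n = 4 * c 2 4 + g 2 6 := by rw [Finset.sum_insert (by decide), Finset.sum_singleton, H.g4 2]
  have h0 := H.L 2 0 1 {4, 6} 3 (by decide) (by decide) (by decide) (by decide) (by decide)
  rw [s1, s2] at h0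
  exact l_split h0

theorem oL0_36_2 {m : ℝ} {c g : Fin 3 → ℕ → ℝ} {x : Fin 3 → ℝ} (H : Hyp m c g x) :
    Lh ((c 0 3 + c 0 6) + (x 1 - c 1 2) + (x 2 - c 2 2)) (c 1 2 + c 2 2 - (3 * c 0 3 + g 0 6)) := by
  have s1 : ∑ n ∈ ({3, 6} : Finset ℕ), c 0 n = c 0 3 + c 0 6 := by rw [Finset.sum_insert (by decide), Finset.sum_singleton]
  have s2 : ∑ n ∈ ({3, 6} : Finset ℕ), g 0 n = 3 * c 0 3 + g 0 6 := by rw [Finset.sum_insert (by decide), Finset.sum_singleton, H.g3 0]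
  have h0 := H.L 0 1 2 {3, 6} 2 (by decide) (by decide) (by decide) (by decide) (by decide)
  rw [s1, s2] at h0
  exact l_split h0

theorem oL1_346_4 {m : ℝ} {c g : Fin 3 → ℕ → ℝ} {x : Fin 3 → ℝ} (H : Hyp m c g x) :
    Lh ((c 1 3 + (c 1 4 + c 1 6)) + (x 2 - c 2 4) + (x 0 - c 0 4)) (c 2 4 + c 0 4 - (3 * c 1 3 + (4 * c 1 4 + g 1 6))) := by
  have s1 : ∑ n ∈ ({3, 4, 6} : Finset ℕ), c 1 n = c 1 3 + (c 1 4 + c 1 6) := by rw [Finset.sum_insert (by decide), Finset.sum_insert (by decide), Finset.sum_singleton]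
  have s2 : ∑ n ∈ ({3, 4, 6} : Finset ℕ), g 1 n = 3 * c 1 3 + (4 * c 1 4 + g 1 6) := by rw [Finset.sum_insert (by decide), Finset.sum_insert (by decide), Finset.sum_singleton, H.g3 1, H.g4 1]
  have h0 := H.L 1 2 0 {3, 4, 6} 4 (by decide) (by decide) (by decide) (by decide) (by decide)
  rw [s1, s2] at h0
  exact l_split h0

theorem oC2_4 {m : ℝ} {c g : Fin 3 → ℕ → ℝ} {x : Fin 3 → ℝ} (H : Hyp m c g x) :
    Ph (c 2 4) (x 0) (x 1) (4 * c 2 4) := by
  have s1 : ∑ n ∈ ({4} : Finset ℕ), c 2 n = c 2 4 := by rw [Finset.sum_singleton]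
  have s2 : ∑ n ∈ ({4} : Finset ℕ), g 2 n = 4 * c 2 4 := by rw [Finset.sum_singleton, H.g4 2]
  have h0 := H.C 2 0 1 {4} (by decide) (by decide) (by decide) (by decide)
  rw [s1, s2] at h0
  exact phi_split h0

theorem oC1_346 {m : ℝ} {c g : Fin 3 → ℕ → ℝ} {x : Fin 3 → ℝ} (H : Hyp m c g x) :
    Ph (c 1 3 + (c 1 4 + c 1 6)) (x 2) (x 0) (3 * c 1 3 + (4 * c 1 4 + g 1 6)) := by
  have s1 : ∑ n ∈ ({3, 4, 6} : Finset ℕ), c 1 n = c 1 3 + (c 1 4 + c 1 6) := by rw [Finset.sum_insert (by decide), Finset.sum_insert (by decide), Finset.sum_singleton]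
  have s2 : ∑ n ∈ ({3, 4, 6} : Finset ℕ), g 1 n = 3 * c 1 3 + (4 * c 1 4 + g 1 6) := by rw [Finset.sum_insert (by decide), Finset.sum_insert (by decide), Finset.sum_singleton, H.g3 1, H.g4 1]
  have h0 := H.C 1 2 0 {3, 4, 6} (by decide) (by decide) (by decide) (by decide)
  rw [s1, s2] at h0
  exact phi_split h0

theorem oL0_4_2 {m : ℝ} {c g : Fin 3 → ℕ → ℝ} {x : Fin 3 → ℝ} (H : Hyp m c g x) :
    Lh (c 0 4 + (x 1 - c 1 2) + (x 2 - c 2 2)) (c 1 2 + c 2 2 - 4 * c 0 4) := by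
  have s1 : ∑ n ∈ ({4} : Finset ℕ), c 0 n = c 0 4 := by rw [Finset.sum_singleton]
  have s2 : ∑ n ∈ ({4} : Finset ℕ), g 0 n = 4 * c 0 4 := by rw [Finset.sum_singleton, H.g4 0]
  have h0 := H.L 0 1 2 {4} 2 (by decide) (by decide) (by decide) (by decide) (by decide)
  rw [s1, s2] at h0
  exact l_split h0

theorem oL2_34_3 {m : ℝ} {c g : Fin 3 → ℕ → ℝ} {x : Fin 3 → ℝ} (H : Hyp m c g x) :
    Lh ((c 2 3 + c 2 4) + (x 0 - c 0 3) + (x 1 - c 1 3)) (c 0 3 + c 1 3 - (3 * c 2 3 + 4 * c 2 4)) := by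
  have s1 : ∑ n ∈ ({3, 4} : Finset ℕ), c 2 n = c 2 3 + c 2 4 := by rw [Finset.sum_insert (by decide), Finset.sum_singleton]
  have s2 : ∑ n ∈ ({3, 4} : Finset ℕ), g 2 n = 3 * c 2 3 + 4 * c 2 4 := by rw [Finset.sum_insert (by decide), Finset.sum_singleton, H.g3 2, H.g4 2]
  have h0 := H.L 2 0 1 {3, 4} 3 (by decide) (by decide) (by decide) (by decide) (by decide)
  rw [s1, s2] at h0
  exact l_split h0

theorem oL1_6_4 {m : ℝ} {c g : Fin 3 → ℕ → ℝ} {x : Fin 3 → ℝ} (H : Hyp m c g x) :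
    Lh (c 1 6 + (x 2 - c 2 4) + (x 0 - c 0 4)) (c 2 4 + c 0 4 - g 1 6) := by
  have s1 : ∑ n ∈ ({6} : Finset ℕ), c 1 n = c 1 6 := by rw [Finset.sum_singleton]
  have s2 : ∑ n ∈ ({6} : Finset ℕ), g 1 n = g 1 6 := by rw [Finset.sum_singleton]
  have h0 := H.L 1 2 0 {6} 4 (by decide) (by decide) (by decide) (by decide) (by decide)
  rw [s1, s2] at h0
  exact l_split h0

theorem oR2_4 {m : ℝ} {c g : Fin 3 → ℕ → ℝ} {x : Fin 3 → ℝ} (H : Hyp m c g x) :
    Rh (x 1 + x 2) (c 2 4) (m - (g 0 1 + g 0 2 + g 0 3 + g 0 4 + g 0 5 + g 0 6)) := by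
  exact r_split (H.R 2 4 (by decide) (by decide))

theorem oR1_4 {m : ℝ} {c g : Fin 3 → ℕ → ℝ} {x : Fin 3 → ℝ} (H : Hyp m c g x) :
    Rh (x 1 + x 2) (c 1 4) (m - (g 0 1 + g 0 2 + g 0 3 + g 0 4 + g 0 5 + g 0 6)) := by
  exact r_split (H.R 1 4 (by decide) (by decide))

theorem oL2_4_1 {m : ℝ} {c g : Fin 3 → ℕ → ℝ} {x : Fin 3 → ℝ} (H : Hyp m c g x) :
    Lh (c 2 4 + (x 0 - c 0 1) + (x 1 - c 1 1)) (c 0 1 + c 1 1 - 4 * c 2 4) := by
  have s1 : ∑ n ∈ ({4} : Finset ℕ), c 2 n = c 2 4 := by rw [Finset.sum_singleton]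
  have s2 : ∑ n ∈ ({4} : Finset ℕ), g 2 n = 4 * c 2 4 := by rw [Finset.sum_singleton, H.g4 2]
  have h0 := H.L 2 0 1 {4} 1 (by decide) (by decide) (by decide) (by decide) (by decide)
  rw [s1, s2] at h0
  exact l_split h0

theorem oF1_32 {m : ℝ} {c g : Fin 3 → ℕ → ℝ} {x : Fin 3 → ℝ} (H : Hyp m c g x) :
    3 / 5 < x 1 / 2 + (x 2 - c 2 3 / 2) + (x 0 - c 0 2 / 2) := by
  exact H.F 1 2 0 3 2 (by decide) (by decide) (by decide) (by decide) (by decide)

theorem oL2_6_2 {m : ℝ} {c g : Fin 3 → ℕ → ℝ} {x : Fin 3 → ℝ} (H : Hyp m c g x) :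
    Lh (c 2 6 + (x 0 - c 0 2) + (x 1 - c 1 2)) (c 0 2 + c 1 2 - g 2 6) := by
  have s1 : ∑ n ∈ ({6} : Finset ℕ), c 2 n = c 2 6 := by rw [Finset.sum_singleton]
  have s2 : ∑ n ∈ ({6} : Finset ℕ), g 2 n = g 2 6 := by rw [Finset.sum_singleton]
  have h0 := H.L 2 0 1 {6} 2 (by decide) (by decide) (by decide) (by decide) (by decide)
  rw [s1, s2] at h0
  exact l_split h0

theorem oL2_246_3 {m : ℝ} {c g : Fin 3 → ℕ → ℝ} {x : Fin 3 → ℝ} (H : Hyp m c g x) :
    Lh ((c 2 2 + (c 2 4 + c 2 6)) + (x 0 - c 0 3) + (x 1 - c 1 3)) (c 0 3 + c 1 3 - (2 * c 2 2 + (4 * c 2 4 + g 2 6))) := by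
  have s1 : ∑ n ∈ ({2, 4, 6} : Finset ℕ), c 2 n = c 2 2 + (c 2 4 + c 2 6) := by rw [Finset.sum_insert (by decide), Finset.sum_insert (by decide), Finset.sum_singleton]
  have s2 : ∑ n ∈ ({2, 4, 6} : Finset ℕ), g 2 n = 2 * c 2 2 + (4 * c 2 4 + g 2 6) := by rw [Finset.sum_insert (by decide), Finset.sum_insert (by decide), Finset.sum_singleton, H.g2 2, H.g4 2]
  have h0 := H.L 2 0 1 {2, 4, 6} 3 (by decide) (by decide) (by decide) (by decide) (by decide)
  rw [s1, s2] at h0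
  exact l_split h0

theorem oL2_46_2 {m : ℝ} {c g : Fin 3 → ℕ → ℝ} {x : Fin 3 → ℝ} (H : Hyp m c g x) :
    Lh ((c 2 4 + c 2 6) + (x 0 - c 0 2) + (x 1 - c 1 2)) (c 0 2 + c 1 2 - (4 * c 2 4 + g 2 6)) := by
  have s1 : ∑ n ∈ ({4, 6} : Finset ℕ), c 2 n = c 2 4 + c 2 6 := by rw [Finset.sum_insert (by decide), Finset.sum_singleton]
  have s2 : ∑ n ∈ ({4, 6} : Finset ℕ), g 2 n = 4 * c 2 4 + g 2 6 := by rw [Finset.sum_insert (by decide), Finset.sum_singleton, H.g4 2]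
  have h0 := H.L 2 0 1 {4, 6} 2 (by decide) (by decide) (by decide) (by decide) (by decide)
  rw [s1, s2] at h0
  exact l_split h0

theorem oR2_3 {m : ℝ} {c g : Fin 3 → ℕ → ℝ} {x : Fin 3 → ℝ} (H : Hyp m c g x) :
    Rh (x 1 + x 2) (c 2 3) (m - (g 0 1 + g 0 2 + g 0 3 + g 0 4 + g 0 5 + g 0 6)) := by
  exact r_split (H.R 2 3 (by decide) (by decide))

theorem oL0_346_3 {m : ℝ} {c g : Fin 3 → ℕ → ℝ} {x : Fin 3 → ℝ} (H : Hyp m c g x) :
    Lh ((c 0 3 + (c 0 4 + c 0 6)) + (x 1 - c 1 3) + (x 2 - c 2 3)) (c 1 3 + c 2 3 - (3 * c 0 3 + (4 * c 0 4 + g 0 6))) := by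
  have s1 : ∑ n ∈ ({3, 4, 6} : Finset ℕ), c 0 n = c 0 3 + (c 0 4 + c 0 6) := by rw [Finset.sum_insert (by decide), Finset.sum_insert (by decide), Finset.sum_singleton]
  have s2 : ∑ n ∈ ({3, 4, 6} : Finset ℕ), g 0 n = 3 * c 0 3 + (4 * c 0 4 + g 0 6) := by rw [Finset.sum_insert (by decide), Finset.sum_insert (by decide), Finset.sum_singleton, H.g3 0, H.g4 0]
  have h0 := H.L 0 1 2 {3, 4, 6} 3 (by decide) (by decide) (by decide) (by decide) (by decide)
  rw [s1, s2] at h0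
  exact l_split h0

theorem oC2_346 {m : ℝ} {c g : Fin 3 → ℕ → ℝ} {x : Fin 3 → ℝ} (H : Hyp m c g x) :
    Ph (c 2 3 + (c 2 4 + c 2 6)) (x 0) (x 1) (3 * c 2 3 + (4 * c 2 4 + g 2 6)) := by
  have s1 : ∑ n ∈ ({3, 4, 6} : Finset ℕ), c 2 n = c 2 3 + (c 2 4 + c 2 6) := by rw [Finset.sum_insert (by decide), Finset.sum_insert (by decide), Finset.sum_singleton]
  have s2 : ∑ n ∈ ({3, 4, 6} : Finset ℕ), g 2 n = 3 * c 2 3 + (4 * c 2 4 + g 2 6) := by rw [Finset.sum_insert (by decide), Finset.sum_insert (by decide), Finset.sum_singleton, H.g3 2, H.g4 2]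
  have h0 := H.C 2 0 1 {3, 4, 6} (by decide) (by decide) (by decide) (by decide)
  rw [s1, s2] at h0
  exact phi_split h0

theorem oC1_3 {m : ℝ} {c g : Fin 3 → ℕ → ℝ} {x : Fin 3 → ℝ} (H : Hyp m c g x) :
    Ph (c 1 3) (x 2) (x 0) (3 * c 1 3) := by
  have s1 : ∑ n ∈ ({3} : Finset ℕ), c 1 n = c 1 3 := by rw [Finset.sum_singleton]
  have s2 : ∑ n ∈ ({3} : Finset ℕ), g 1 n = 3 * c 1 3 := by rw [Finset.sum_singleton, H.g3 1]
  have h0 := H.C 1 2 0 {3} (by decide) (by decide) (by decide) (by decide)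
  rw [s1, s2] at h0
  exact phi_split h0

theorem oF0_23 {m : ℝ} {c g : Fin 3 → ℕ → ℝ} {x : Fin 3 → ℝ} (H : Hyp m c g x) :
    3 / 5 < x 0 / 2 + (x 1 - c 1 2 / 2) + (x 2 - c 2 3 / 2) := by
  exact H.F 0 1 2 2 3 (by decide) (by decide) (by decide) (by decide) (by decide)

theorem oL0_6_2 {m : ℝ} {c g : Fin 3 → ℕ → ℝ} {x : Fin 3 → ℝ} (H : Hyp m c g x) :
    Lh (c 0 6 + (x 1 - c 1 2) + (x 2 - c 2 2)) (c 1 2 + c 2 2 - g 0 6) := by
  have s1 : ∑ n ∈ ({6} : Finset ℕ), c 0 n = c 0 6 := by rw [Finset.sum_singleton]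
  have s2 : ∑ n ∈ ({6} : Finset ℕ), g 0 n = g 0 6 := by rw [Finset.sum_singleton]
  have h0 := H.L 0 1 2 {6} 2 (by decide) (by decide) (by decide) (by decide) (by decide)
  rw [s1, s2] at h0
  exact l_split h0

theorem oL0_346_2 {m : ℝ} {c g : Fin 3 → ℕ → ℝ} {x : Fin 3 → ℝ} (H : Hyp m c g x) :
    Lh ((c 0 3 + (c 0 4 + c 0 6)) + (x 1 - c 1 2) + (x 2 - c 2 2)) (c 1 2 + c 2 2 - (3 * c 0 3 + (4 * c 0 4 + g 0 6))) := by
  have s1 : ∑ n ∈ ({3, 4, 6} : Finset ℕ), c 0 n = c 0 3 + (c 0 4 + c 0 6) := by rw [Finset.sum_insert (by decide), Finset.sum_insert (by decide), Finset.sum_singleton]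
  have s2 : ∑ n ∈ ({3, 4, 6} : Finset ℕ), g 0 n = 3 * c 0 3 + (4 * c 0 4 + g 0 6) := by rw [Finset.sum_insert (by decide), Finset.sum_insert (by decide), Finset.sum_singleton, H.g3 0, H.g4 0]
  have h0 := H.L 0 1 2 {3, 4, 6} 2 (by decide) (by decide) (by decide) (by decide) (by decide)
  rw [s1, s2] at h0
  exact l_split h0

theorem oL2_26_3 {m : ℝ} {c g : Fin 3 → ℕ → ℝ} {x : Fin 3 → ℝ} (H : Hyp m c g x) :
    Lh ((c 2 2 + c 2 6) + (x 0 - c 0 3) + (x 1 - c 1 3)) (c 0 3 + c 1 3 - (2 * c 2 2 + g 2 6)) := by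
  have s1 : ∑ n ∈ ({2, 6} : Finset ℕ), c 2 n = c 2 2 + c 2 6 := by rw [Finset.sum_insert (by decide), Finset.sum_singleton]
  have s2 : ∑ n ∈ ({2, 6} : Finset ℕ), g 2 n = 2 * c 2 2 + g 2 6 := by rw [Finset.sum_insert (by decide), Finset.sum_singleton, H.g2 2]
  have h0 := H.L 2 0 1 {2, 6} 3 (by decide) (by decide) (by decide) (by decide) (by decide)
  rw [s1, s2] at h0
  exact l_split h0

theorem oL2_2_2 {m : ℝ} {c g : Fin 3 → ℕ → ℝ} {x : Fin 3 → ℝ} (H : Hyp m c g x) :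
    Lh (c 2 2 + (x 0 - c 0 2) + (x 1 - c 1 2)) (c 0 2 + c 1 2 - 2 * c 2 2) := by
  have s1 : ∑ n ∈ ({2} : Finset ℕ), c 2 n = c 2 2 := by rw [Finset.sum_singleton]
  have s2 : ∑ n ∈ ({2} : Finset ℕ), g 2 n = 2 * c 2 2 := by rw [Finset.sum_singleton, H.g2 2]
  have h0 := H.L 2 0 1 {2} 2 (by decide) (by decide) (by decide) (by decide) (by decide)
  rw [s1, s2] at h0
  exact l_split h0

theorem oR2_2 {m : ℝ} {c g : Fin 3 → ℕ → ℝ} {x : Fin 3 → ℝ} (H : Hyp m c g x) :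
    Rh (x 1 + x 2) (c 2 2) (m - (g 0 1 + g 0 2 + g 0 3 + g 0 4 + g 0 5 + g 0 6)) := by
  exact r_split (H.R 2 2 (by decide) (by decide))

theorem oF1_54 {m : ℝ} {c g : Fin 3 → ℕ → ℝ} {x : Fin 3 → ℝ} (H : Hyp m c g x) :
    3 / 5 < x 1 / 2 + (x 2 - c 2 5 / 2) + (x 0 - c 0 4 / 2) := by
  exact H.F 1 2 0 5 4 (by decide) (by decide) (by decide) (by decide) (by decide)

theorem oF1_53 {m : ℝ} {c g : Fin 3 → ℕ → ℝ} {x : Fin 3 → ℝ} (H : Hyp m c g x) :
    3 / 5 < x 1 / 2 + (x 2 - c 2 5 / 2) + (x 0 - c 0 3 / 2) := by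
  exact H.F 1 2 0 5 3 (by decide) (by decide) (by decide) (by decide) (by decide)

theorem oF2_24 {m : ℝ} {c g : Fin 3 → ℕ → ℝ} {x : Fin 3 → ℝ} (H : Hyp m c g x) :
    3 / 5 < x 2 / 2 + (x 0 - c 0 2 / 2) + (x 1 - c 1 4 / 2) := by
  exact H.F 2 0 1 2 4 (by decide) (by decide) (by decide) (by decide) (by decide)

theorem oF0_45 {m : ℝ} {c g : Fin 3 → ℕ → ℝ} {x : Fin 3 → ℝ} (H : Hyp m c g x) :
    3 / 5 < x 0 / 2 + (x 1 - c 1 4 / 2) + (x 2 - c 2 5 / 2) := by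
  exact H.F 0 1 2 4 5 (by decide) (by decide) (by decide) (by decide) (by decide)

theorem oF1_52 {m : ℝ} {c g : Fin 3 → ℕ → ℝ} {x : Fin 3 → ℝ} (H : Hyp m c g x) :
    3 / 5 < x 1 / 2 + (x 2 - c 2 5 / 2) + (x 0 - c 0 2 / 2) := by
  exact H.F 1 2 0 5 2 (by decide) (by decide) (by decide) (by decide) (by decide)

theorem oF0_35 {m : ℝ} {c g : Fin 3 → ℕ → ℝ} {x : Fin 3 → ℝ} (H : Hyp m c g x) :
    3 / 5 < x 0 / 2 + (x 1 - c 1 3 / 2) + (x 2 - c 2 5 / 2) := by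
  exact H.F 0 1 2 3 5 (by decide) (by decide) (by decide) (by decide) (by decide)

theorem oF2_45 {m : ℝ} {c g : Fin 3 → ℕ → ℝ} {x : Fin 3 → ℝ} (H : Hyp m c g x) :
    3 / 5 < x 2 / 2 + (x 0 - c 0 4 / 2) + (x 1 - c 1 5 / 2) := by
  exact H.F 2 0 1 4 5 (by decide) (by decide) (by decide) (by decide) (by decide)

theorem oF0_54 {m : ℝ} {c g : Fin 3 → ℕ → ℝ} {x : Fin 3 → ℝ} (H : Hyp m c g x) :
    3 / 5 < x 0 / 2 + (x 1 - c 1 5 / 2) + (x 2 - c 2 4 / 2) := by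
  exact H.F 0 1 2 5 4 (by decide) (by decide) (by decide) (by decide) (by decide)

theorem oL1_45_3 {m : ℝ} {c g : Fin 3 → ℕ → ℝ} {x : Fin 3 → ℝ} (H : Hyp m c g x) :
    Lh ((c 1 4 + c 1 5) + (x 2 - c 2 3) + (x 0 - c 0 3)) (c 2 3 + c 0 3 - (4 * c 1 4 + g 1 5)) := by
  have s1 : ∑ n ∈ ({4, 5} : Finset ℕ), c 1 n = c 1 4 + c 1 5 := by rw [Finset.sum_insert (by decide), Finset.sum_singleton]
  have s2 : ∑ n ∈ ({4, 5} : Finset ℕ), g 1 n = 4 * c 1 4 + g 1 5 := by rw [Finset.sum_insert (by decide), Finset.sum_singleton, H.g4 1]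
  have h0 := H.L 1 2 0 {4, 5} 3 (by decide) (by decide) (by decide) (by decide) (by decide)
  rw [s1, s2] at h0
  exact l_split h0

theorem oF0_53 {m : ℝ} {c g : Fin 3 → ℕ → ℝ} {x : Fin 3 → ℝ} (H : Hyp m c g x) :
    3 / 5 < x 0 / 2 + (x 1 - c 1 5 / 2) + (x 2 - c 2 3 / 2) := by
  exact H.F 0 1 2 5 3 (by decide) (by decide) (by decide) (by decide) (by decide)

theorem oC2_6 {m : ℝ} {c g : Fin 3 → ℕ → ℝ} {x : Fin 3 → ℝ} (H : Hyp m c g x) :
    Ph (c 2 6) (x 0) (x 1) (g 2 6) := by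
  have s1 : ∑ n ∈ ({6} : Finset ℕ), c 2 n = c 2 6 := by rw [Finset.sum_singleton]
  have s2 : ∑ n ∈ ({6} : Finset ℕ), g 2 n = g 2 6 := by rw [Finset.sum_singleton]
  have h0 := H.C 2 0 1 {6} (by decide) (by decide) (by decide) (by decide)
  rw [s1, s2] at h0
  exact phi_split h0

theorem oF0_55 {m : ℝ} {c g : Fin 3 → ℕ → ℝ} {x : Fin 3 → ℝ} (H : Hyp m c g x) :
    3 / 5 < x 0 / 2 + (x 1 - c 1 5 / 2) + (x 2 - c 2 5 / 2) := by
  exact H.F 0 1 2 5 5 (by decide) (by decide) (by decide) (by decide) (by decide)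

theorem oF2_54 {m : ℝ} {c g : Fin 3 → ℕ → ℝ} {x : Fin 3 → ℝ} (H : Hyp m c g x) :
    3 / 5 < x 2 / 2 + (x 0 - c 0 5 / 2) + (x 1 - c 1 4 / 2) := by
  exact H.F 2 0 1 5 4 (by decide) (by decide) (by decide) (by decide) (by decide)

theorem oF0_34 {m : ℝ} {c g : Fin 3 → ℕ → ℝ} {x : Fin 3 → ℝ} (H : Hyp m c g x) :
    3 / 5 < x 0 / 2 + (x 1 - c 1 3 / 2) + (x 2 - c 2 4 / 2) := by
  exact H.F 0 1 2 3 4 (by decide) (by decide) (by decide) (by decide) (by decide)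

theorem oF1_35 {m : ℝ} {c g : Fin 3 → ℕ → ℝ} {x : Fin 3 → ℝ} (H : Hyp m c g x) :
    3 / 5 < x 1 / 2 + (x 2 - c 2 3 / 2) + (x 0 - c 0 5 / 2) := by
  exact H.F 1 2 0 3 5 (by decide) (by decide) (by decide) (by decide) (by decide)

theorem oF1_45 {m : ℝ} {c g : Fin 3 → ℕ → ℝ} {x : Fin 3 → ℝ} (H : Hyp m c g x) :
    3 / 5 < x 1 / 2 + (x 2 - c 2 4 / 2) + (x 0 - c 0 5 / 2) := by
  exact H.F 1 2 0 4 5 (by decide) (by decide) (by decide) (by decide) (by decide)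

theorem oF1_55 {m : ℝ} {c g : Fin 3 → ℕ → ℝ} {x : Fin 3 → ℝ} (H : Hyp m c g x) :
    3 / 5 < x 1 / 2 + (x 2 - c 2 5 / 2) + (x 0 - c 0 5 / 2) := by
  exact H.F 1 2 0 5 5 (by decide) (by decide) (by decide) (by decide) (by decide)

theorem oF2_55 {m : ℝ} {c g : Fin 3 → ℕ → ℝ} {x : Fin 3 → ℝ} (H : Hyp m c g x) :
    3 / 5 < x 2 / 2 + (x 0 - c 0 5 / 2) + (x 1 - c 1 5 / 2) := by
  exact H.F 2 0 1 5 5 (by decide) (by decide) (by decide) (by decide) (by decide)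

theorem tNNN {m : ℝ} {c g : Fin 3 → ℕ → ℝ} {x : Fin 3 → ℝ} (H : Hyp m c g x)
    (z0 : c 0 5 = 0) (y0 : g 0 5 = 0) (z1 : c 1 5 = 0) (y1 : g 1 5 = 0) (z2 : c 2 5 = 0) (y2 : g 2 5 = 0) : False := by
  have hx0 := H.hx 0
  have hx1 := H.hx 1
  have hx2 := H.hx 2
  have hG1 := H.G1
  rw [H.g1 1, H.g2 1, H.g3 1, H.g4 1] at hG1
  have hG2 := H.G2
  rw [H.g1 2, H.g2 2, H.g3 2, H.g4 2] at hG2
  have hG0 := H.G0
  rw [H.g1 0, H.g2 0, H.g3 0, H.g4 0] at hG0
  have hg06 := H.g6 0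
  have hg16 := H.g6 1
  have hg26 := H.g6 2
  have hh0 := H.h6 0
  have hh1 := H.h6 1
  have hh2 := H.h6 2
  have hm := H.hm
  have hs := H.hs
  have ht0 := H.ht 1 2 (by decide)
  have ht1 := H.ht 2 0 (by decide)
  have ht2 := H.ht 0 1 (by decide)
  have nn_c01 := H.hc 0 1
  have nn_c02 := H.hc 0 2
  have nn_c03 := H.hc 0 3
  have nn_c04 := H.hc 0 4
  have nn_c06 := H.hc 0 6
  have nn_c11 := H.hc 1 1
  have nn_c12 := H.hc 1 2
  have nn_c13 := H.hc 1 3
  have nn_c14 := H.hc 1 4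
  have nn_c16 := H.hc 1 6
  have nn_c21 := H.hc 2 1
  have nn_c22 := H.hc 2 2
  have nn_c23 := H.hc 2 3
  have nn_c24 := H.hc 2 4
  have nn_c26 := H.hc 2 6
  have nn_g06 := H.hg 0 6
  have nn_g16 := H.hg 1 6
  have nn_g26 := H.hg 2 6
  have e1 := H.g1 0
  have e2 := H.g2 0
  have e3 := H.g3 0
  have e4 := H.g4 0
  rcases oL1_2346_4 H with b0 | b0
  · rcases oL2_2346_1 H with b1 | b1
    · rcases oL1_2346_2 H with b2 | b2
      · have b3 := oF0_22 H
        rcases oL2_346_1 H with b4 | b4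
        · rcases oL2_346_2 H with b5 | b5
          · rcases oL0_34_3 H with b6 | b6
            · rcases oL0_346_4 H with b7 | b7
              · rcases oL2_36_4 H with b8 | b8
                · rcases oL1_346_3 H with b9 | b9
                  · have b10 := oF0_32 H
                    rcases oL2_2346_3 H with b11 | b11
                    · rcases oL0_346_1 H with b12 | b12
                      · rcases oL2_346_3 H with b13 | b13
                        · rcases oL1_46_2 H with b14 | b14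
                          · rcases oL1_346_1 H with b15 | b15
                            · rcases oL1_46_1 H with b16 | b16
                              · rcases oC1_46 H with b17 | b17 | b17 | b17 | b17 | b17 | b17 | b17 | b17
                                · rcases oL2_246_4 H with b18 | b18
                                  · rcases oC2_36 H with b19 | b19 | b19 | b19 | b19 | b19 | b19 | b19 | b19
                                    · rcases oC2_26 H with b20 | b20 | b20 | b20 | b20 | b20 | b20 | b20 | b20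
                                      · linarith only [hx0, hx1, hx2, hG1, hG2, z0, y0, z1, y1, z2, y2, e1, e2, e3, e4, hh2, hs, b19, b20, nn_c21, nn_c24]
                                      · linarith only [hx0, hx1, hx2, hG1, hG2, z0, y0, z1, y1, z2, y2, e1, e2, e3, e4, hg16, hg26, hh2, hs, ht1, b17, b19, b20, nn_c12, nn_c13, nn_g16, nn_c21, nn_c24]
                                      · linarith only [hx0, hx1, hx2, hG1, hG2, z0, y0, z1, y1, z2, y2, e1, e2, e3, e4, hg16, hg26, hs, b17, b18, b19, b20, nn_c04, nn_c12, nn_c13, nn_c21, nn_c22, nn_g26]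
                                      · linarith only [hx0, hx1, hx2, hG1, hG2, z0, y0, z1, y1, z2, y2, e1, e2, e3, e4, hg16, hg26, hh2, hs, ht0, b17, b19, b20, nn_c12, nn_c13, nn_g16, nn_c21, nn_c24]
                                      · linarith only [hx0, hx1, hx2, hG1, hG2, z0, y0, z1, y1, z2, y2, e1, e2, e3, e4, hg16, hg26, hs, ht0, b6, b9, b17, b18, b19, b20, nn_c12, nn_c13, nn_g16, nn_c21, nn_c24]
                                      · linarith only [hx0, hx1, hx2, hG1, hG2, z0, y0, z1, y1, z2, y2, e1, e2, e3, e4, hg16, hh1, hg26, hs, ht0, b6, b9, b17, b18, b19, b20, nn_c12, nn_c13, nn_c21, nn_c22]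
                                      · linarith only [hx0, hx1, hx2, hG1, hG2, z0, y0, z1, y1, z2, y2, e1, e2, e3, e4, hg16, hg26, hs, ht0, b6, b9, b17, b18, b19, b20, nn_c12, nn_c13, nn_c21, nn_c22, nn_g26]
                                      · linarith only [hx0, hx1, hx2, hG1, hG2, z0, y0, z1, y1, z2, y2, e1, e2, e3, e4, hg16, hh1, hg26, hs, ht0, b6, b9, b17, b18, b19, b20, nn_c12, nn_c13, nn_c21, nn_c22]
                                      · linarith only [hx0, hx1, hx2, hG1, hG2, z0, y0, z1, y1, z2, y2, e1, e2, e3, e4, hg16, hh1, hg26, hs, ht0, b6, b9, b17, b18, b19, b20, nn_c12, nn_c13, nn_c21, nn_c22]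
                                    · linarith only [hx0, hx1, hx2, hG1, hG2, z0, y0, z1, y1, z2, y2, e1, e2, e3, e4, hg16, hh1, hg26, hh2, hs, b6, b9, b17, b18, b19, nn_c04, nn_c12, nn_c13, nn_c21, nn_c22]
                                    · linarith only [hx0, hx1, hx2, hG1, hG2, z0, y0, z1, y1, z2, y2, e1, e2, e3, e4, hg16, hg26, hs, b7, b17, b19, nn_c01, nn_c02, nn_c12, nn_c13, nn_c21, nn_c22, nn_c23, nn_g26]
                                    · linarith only [hx0, hx1, hx2, hG1, hG2, z0, y0, z1, y1, z2, y2, e1, e2, e3, e4, hg16, hh1, hg26, hh2, hs, ht0, b6, b9, b17, b18, b19, nn_c12, nn_c13, nn_c21, nn_c22]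
                                    · linarith only [hx0, hx1, hx2, hG1, hG2, z0, y0, z1, y1, z2, y2, e1, e2, e3, e4, hg06, hg16, hh1, hg26, hs, ht0, hG0, b7, b9, b17, b19, nn_c02, nn_g06, nn_c12, nn_c13, nn_c21, nn_c22, nn_g26]
                                    · linarith only [hx0, hx1, hx2, hG1, hG2, z0, y0, z1, y1, z2, y2, e1, e2, e3, e4, hg06, hg16, hh1, hg26, hs, ht0, hG0, b7, b8, b9, b17, b19, nn_c02, nn_c04, nn_c12, nn_c21, nn_g26]
                                    · linarith only [hx0, hx1, hx2, hG1, hG2, z0, y0, z1, y1, z2, y2, e1, e2, e3, e4, hg06, hh1, hg26, hs, ht0, hG0, b7, b17, b19, nn_c02, nn_c04, nn_g06, nn_c21, nn_c23, nn_g26]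
                                    · linarith only [hx0, hx1, hx2, hG1, hG2, z0, y0, z1, y1, z2, y2, e1, e2, e3, e4, hg06, hg16, hh1, hg26, hs, ht0, hG0, b7, b8, b9, b17, b19, nn_c02, nn_c04, nn_c12, nn_c21, nn_g26]
                                    · linarith only [hx0, hx1, hx2, hG1, hG2, z0, y0, z1, y1, z2, y2, e1, e2, e3, e4, hg06, hg16, hh1, hg26, hs, ht0, hG0, b7, b8, b9, b17, b19, nn_c02, nn_c04, nn_c12, nn_c21, nn_g26]
                                  · linarith only [hx0, hx1, hx2, hG1, hG2, z0, y0, z1, y1, z2, y2, e1, e2, e3, e4, hg06, hg16, hg26, hs, ht2, hG0, b6, b8, b9, b17, b18, nn_c02, nn_g06, nn_c12, nn_c13, nn_g16, nn_c22, nn_c24]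
                                · linarith only [hx0, hx1, hx2, hG1, hG2, z0, y0, z1, y1, z2, y2, e1, e2, e3, e4, hg06, hg16, hg26, hs, ht0, hG0, b7, b8, b17, nn_c02, nn_c04, nn_g06, nn_c11, nn_c12, nn_c13, nn_c22, nn_c24, nn_g26]
                                · linarith only [hx0, hx1, hx2, hG1, hG2, z0, y0, z1, y1, z2, y2, e1, e2, e3, e4, hg06, hg16, hg26, hs, hG0, b6, b13, b14, b16, b17, nn_c04, nn_g06, nn_c11, nn_c14, nn_g16, nn_c21, nn_c23, nn_g26]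
                                · linarith only [hx0, hx1, hx2, hG1, hG2, z0, y0, z1, y1, z2, y2, e1, e2, e3, e4, hg16, hs, ht0, ht2, b17, nn_c11, nn_c12, nn_c13, nn_g16]
                                · linarith only [hx0, hx1, hx2, hG1, hG2, z0, y0, z1, y1, z2, y2, e1, e2, e3, e4, hg06, hg16, hg26, hs, hG0, b4, b6, b8, b12, b13, b17, nn_c02, nn_c04, nn_g06, nn_c11, nn_g16, nn_c24, nn_g26]
                                · linarith only [hx0, hx1, hx2, hG1, hG2, z0, y0, z1, y1, z2, y2, e1, e2, e3, e4, hg06, hg16, hg26, hs, hG0, b6, b13, b14, b16, b17, nn_g06, nn_c11, nn_c14, nn_g16, nn_c21, nn_c22, nn_g26]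
                                · linarith only [hx0, hx1, hx2, hG1, hG2, z0, y0, z1, y1, z2, y2, e1, e2, e3, e4, hg06, hg16, hg26, hs, hG0, b6, b13, b14, b16, b17, nn_c01, nn_c03, nn_g06, nn_c11, nn_c14, nn_g16, nn_c24, nn_g26]
                                · linarith only [hx0, hx1, hx2, hG1, hG2, z0, y0, z1, y1, z2, y2, e1, e2, e3, e4, hg06, hg16, hg26, hs, hG0, b6, b13, b14, b16, b17, nn_c01, nn_c02, nn_g06, nn_c11, nn_c14, nn_g16, nn_g26]
                                · linarith only [hx0, hx1, hx2, hG1, hG2, z0, y0, z1, y1, z2, y2, e1, e2, e3, e4, hg06, hg16, hg26, hs, hG0, b6, b13, b14, b16, b17, nn_c02, nn_g06, nn_c11, nn_g16, nn_c22, nn_g26]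
                              · rcases oC1_36 H with b17 | b17 | b17 | b17 | b17 | b17 | b17 | b17 | b17
                                · rcases oL2_4_3 H with b18 | b18
                                  · rcases oC0_4 H with b19 | b19 | b19 | b19 | b19 | b19 | b19 | b19 | b19
                                    · linarith only [hx0, hx1, hx2, hG1, hG2, z0, y0, z1, y1, z2, y2, e1, e2, e3, e4, hg06, hg16, hs, ht1, hG0, b0, b16, b17, b18, b19, nn_c02, nn_c03, nn_g06, nn_c11, nn_c14]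
                                    · linarith only [hx0, hx1, hx2, hG1, hG2, z0, y0, z1, y1, z2, y2, e1, e2, e3, e4, hg16, hg26, hs, ht1, b8, b16, b17, b18, b19, nn_c01, nn_c02, nn_c03, nn_c06, nn_c11, nn_c14, nn_c22, nn_g26]
                                    · linarith only [hx0, hx1, hx2, hG1, hG2, z0, y0, z1, y1, z2, y2, e1, e2, e3, e4, hg16, hg26, hs, ht1, b6, b8, b16, b17, b18, b19, nn_c11, nn_c14, nn_c22, nn_c23, nn_g26]
                                    · linarith only [hx0, hx1, hx2, hG1, hG2, z0, y0, z1, y1, z2, y2, e1, e2, e3, e4, hg16, hg26, hs, ht1, b0, b6, b8, b16, b17, b18, b19, nn_c03, nn_c11, nn_c14, nn_c22]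
                                    · linarith only [hx0, hx1, hx2, hG1, hG2, z0, y0, z1, y1, z2, y2, e1, e2, e3, e4, hg16, hg26, hs, ht1, b6, b8, b16, b17, b18, b19, nn_c11, nn_c14, nn_c22, nn_c23, nn_g26]
                                    · linarith only [hx0, hx1, hx2, hG1, hG2, z0, y0, z1, y1, z2, y2, e1, e2, e3, e4, hg16, hg26, hs, ht1, b6, b8, b16, b17, b18, b19, nn_c11, nn_c14, nn_c22, nn_c23, nn_g26]
                                    · linarith only [hx0, hx1, hx2, hG1, hG2, z0, y0, z1, y1, z2, y2, e1, e2, e3, e4, hg16, hg26, hs, ht1, b6, b8, b16, b17, b18, b19, nn_c11, nn_c14, nn_c22, nn_c23, nn_g26]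
                                    · linarith only [hx0, hx1, hx2, hG1, hG2, z0, y0, z1, y1, z2, y2, e1, e2, e3, e4, hg16, hg26, hs, ht1, b6, b8, b16, b17, b18, b19, nn_c11, nn_c14, nn_c22, nn_c23, nn_g26]
                                    · linarith only [hx0, hx1, hx2, hG1, hG2, z0, y0, z1, y1, z2, y2, e1, e2, e3, e4, hg16, hg26, hs, ht1, b6, b16, b17, b18, b19, nn_c11, nn_c14, nn_c22, nn_c23, nn_g26]
                                  · linarith only [hx0, hx1, hx2, hG1, hG2, z0, y0, z1, y1, z2, y2, e1, e2, e3, e4, hg06, hg16, hh2, hs, hG0, b6, b13, b16, b17, b18, nn_c02, nn_c03, nn_g06, nn_c11, nn_c14, nn_c16]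
                                · linarith only [hx0, hx1, hx2, hG1, hG2, z0, y0, z1, y1, z2, y2, e1, e2, e3, e4, hg06, hg16, hg26, hh2, hs, hG0, b6, b8, b13, b16, b17, nn_c02, nn_g06, nn_c11, nn_c14, nn_c21, nn_c22, nn_c23]
                                · linarith only [hx0, hx1, hx2, hG1, hG2, z0, y0, z1, y1, z2, y2, e1, e2, e3, e4, hg06, hg16, hg26, hs, ht0, hG0, b4, b6, b14, b15, b16, b17, nn_c04, nn_g06, nn_c11, nn_g16, nn_g26]
                                · linarith only [hx0, hx1, hx2, hG1, hG2, z0, y0, z1, y1, z2, y2, e1, e2, e3, e4, hg06, hg16, hg26, hh2, hs, hG0, b6, b8, b13, b16, b17, nn_c02, nn_c03, nn_g06, nn_c11, nn_c14, nn_c22]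
                                · linarith only [hx0, hx1, hx2, hG1, hG2, z0, y0, z1, y1, z2, y2, e1, e2, e3, e4, hg06, hg16, hg26, hs, hG0, b4, b6, b7, b8, b13, b14, b15, b16, b17, nn_g06, nn_c11, nn_g16, nn_g26]
                                · linarith only [hx0, hx1, hx2, hG1, hG2, z0, y0, z1, y1, z2, y2, e1, e2, e3, e4, hg06, hg16, hg26, hs, ht0, hG0, b6, b9, b13, b14, b15, b16, b17, nn_g06, nn_c11, nn_g16, nn_g26]
                                · linarith only [hx0, hx1, hx2, hG1, hG2, z0, y0, z1, y1, z2, y2, e1, e2, e3, e4, hg06, hg16, hg26, hs, ht2, hG0, b5, b8, b12, b13, b15, b16, b17, nn_g06, nn_c11, nn_g16, nn_c24, nn_g26]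
                                · linarith only [hx0, hx1, hx2, hG1, hG2, z0, y0, z1, y1, z2, y2, e1, e2, e3, e4, hg06, hg16, hg26, hs, hG0, b5, b6, b9, b13, b14, b15, b16, b17, nn_g06, nn_c11, nn_g16, nn_c24, nn_g26]
                                · linarith only [hx0, hx1, hx2, hG1, hG2, z0, y0, z1, y1, z2, y2, e1, e2, e3, e4, hg06, hg16, hg26, hs, hG0, b6, b9, b13, b14, b15, b16, b17, nn_g06, nn_c11, nn_g16, nn_g26]
                            · rcases oL0_46_2 H with b16 | b16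
                              · linarith only [hx0, hx1, hx2, hG1, hG2, z0, y0, z1, y1, z2, y2, e1, e2, e3, e4, hg06, hg16, hg26, hs, hG0, b5, b8, b9, b12, b15, b16, nn_c02, nn_c03, nn_g06, nn_c14, nn_g16, nn_c22, nn_g26]
                              · linarith only [hx0, hx1, hx2, hG1, hG2, z0, y0, z1, y1, z2, y2, e1, e2, e3, e4, hg06, hg16, hg26, hs, ht0, b4, b5, b7, b9, b12, b15, b16, nn_c02, nn_g06, nn_c14, nn_g16, nn_c23, nn_g26]
                          · rcases oL1_346_1 H with b15 | b15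
                            · rcases oC1_36 H with b16 | b16 | b16 | b16 | b16 | b16 | b16 | b16 | b16
                              · rcases oL2_234_3 H with b17 | b17
                                · rcases oL0_4_3 H with b18 | b18
                                  · linarith only [hx0, hx1, hx2, hG1, hG2, z0, y0, z1, y1, z2, y2, e1, e2, e3, e4, hg16, hh2, hs, b8, b14, b16, b17, b18, nn_c03, nn_c14, nn_c21]
                                  · linarith only [hx0, hx1, hx2, hG1, hG2, z0, y0, z1, y1, z2, y2, e1, e2, e3, e4, hg16, hg26, hs, ht1, b6, b13, b14, b16, b17, b18, nn_c11, nn_c14, nn_c23, nn_g26]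
                                · linarith only [hx0, hx1, hx2, hG1, hG2, z0, y0, z1, y1, z2, y2, e1, e2, e3, e4, hg06, hg16, hh2, hs, ht1, hG0, b6, b13, b14, b16, b17, nn_c02, nn_c03, nn_g06, nn_c11, nn_c14, nn_c22, nn_c23]
                              · linarith only [hx0, hx1, hx2, hG1, hG2, z0, y0, z1, y1, z2, y2, e1, e2, e3, e4, hg06, hg16, hg26, hh2, hs, hG0, b6, b8, b13, b14, b16, nn_c02, nn_g06, nn_c11, nn_c14, nn_c21, nn_c22, nn_c23]
                              · linarith only [hx0, hx1, hx2, hG1, hG2, z0, y0, z1, y1, z2, y2, e1, e2, e3, e4, hg06, hg16, hg26, hs, ht0, hG0, b4, b5, b6, b14, b15, b16, nn_c04, nn_g06, nn_c11, nn_g16, nn_c21, nn_g26]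
                              · linarith only [hx0, hx1, hx2, hG1, hG2, z0, y0, z1, y1, z2, y2, e1, e2, e3, e4, hg06, hg16, hg26, hh2, hs, hG0, b6, b8, b13, b14, b16, nn_c02, nn_c03, nn_g06, nn_c11, nn_c14, nn_c22]
                              · linarith only [hx0, hx1, hx2, hG1, hG2, z0, y0, z1, y1, z2, y2, e1, e2, e3, e4, hg06, hg16, hg26, hs, hG0, b4, b5, b6, b7, b8, b13, b14, b15, b16, nn_g06, nn_c11, nn_g16, nn_g26]
                              · linarith only [hx0, hx1, hx2, hG1, hG2, z0, y0, z1, y1, z2, y2, e1, e2, e3, e4, hg06, hg16, hg26, hs, ht0, hG0, b4, b5, b6, b9, b14, b15, b16, nn_c04, nn_g06, nn_c11, nn_g16, nn_g26]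
                              · linarith only [hx0, hx1, hx2, hG1, hG2, z0, y0, z1, y1, z2, y2, e1, e2, e3, e4, hg06, hg16, hg26, hs, ht2, hG0, b5, b8, b12, b13, b14, b15, b16, nn_g06, nn_c11, nn_g16, nn_c24, nn_g26]
                              · linarith only [hx0, hx1, hx2, hG1, hG2, z0, y0, z1, y1, z2, y2, e1, e2, e3, e4, hg06, hg16, hg26, hs, hG0, b4, b5, b6, b9, b13, b14, b15, b16, nn_c04, nn_g06, nn_c11, nn_g16, nn_g26]
                              · linarith only [hx0, hx1, hx2, hG1, hG2, z0, y0, z1, y1, z2, y2, e1, e2, e3, e4, hg06, hg16, hg26, hs, hG0, b4, b5, b6, b9, b14, b15, b16, nn_c04, nn_g06, nn_c11, nn_g16, nn_c21, nn_g26]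
                            · rcases oL0_46_2 H with b16 | b16
                              · linarith only [hx0, hx1, hx2, hG1, hG2, z0, y0, z1, y1, z2, y2, e1, e2, e3, e4, hg06, hg16, hg26, hs, hG0, b5, b8, b9, b12, b15, b16, nn_c02, nn_c03, nn_g06, nn_c14, nn_g16, nn_c22, nn_g26]
                              · linarith only [hx0, hx1, hx2, hG1, hG2, z0, y0, z1, y1, z2, y2, e1, e2, e3, e4, hg06, hg16, hg26, hs, ht0, b4, b5, b7, b9, b12, b15, b16, nn_c02, nn_g06, nn_c14, nn_g16, nn_c23, nn_g26]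
                        · linarith only [hx0, hx1, hx2, hG1, hG2, z0, y0, z1, y1, z2, y2, e1, e2, e3, e4, hg06, hg16, hg26, hs, hG0, b4, b5, b11, b13, nn_c04, nn_g06, nn_c14, nn_g16, nn_c21, nn_c24, nn_g26]
                      · rcases oC2_46 H with b13 | b13 | b13 | b13 | b13 | b13 | b13 | b13 | b13
                        · rcases oC1_6 H with b14 | b14 | b14 | b14 | b14 | b14 | b14 | b14 | b14
                          · linarith only [hx0, hx1, hx2, hG1, hG2, z0, y0, z1, y1, z2, y2, e1, e2, e3, e4, hg06, hh1, hh2, hs, ht2, b7, b12, b13, b14, nn_c04, nn_g06, nn_c14]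
                          · linarith only [hx0, hx1, hx2, hG1, hG2, z0, y0, z1, y1, z2, y2, e1, e2, e3, e4, hg06, hg16, hh1, hg26, hh2, hs, b6, b7, b12, b13, b14, nn_c04, nn_g06, nn_c11, nn_c14, nn_c22, nn_c23]
                          · linarith only [hx0, hx1, hx2, hG1, hG2, z0, y0, z1, y1, z2, y2, e1, e2, e3, e4, hg06, hg16, hg26, hh2, hs, b6, b7, b12, b13, b14, nn_c04, nn_g06, nn_c11, nn_c14, nn_g16, nn_c22, nn_c23]
                          · linarith only [hx0, hx1, hx2, hG1, hG2, z0, y0, z1, y1, z2, y2, e1, e2, e3, e4, hg06, hg16, hh1, hg26, hs, b7, b8, b12, b13, b14, nn_c04, nn_g06, nn_c11, nn_c12, nn_c22, nn_c23]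
                          · linarith only [hx0, hx1, hx2, hG1, hG2, z0, y0, z1, y1, z2, y2, e1, e2, e3, e4, hg06, hg16, hg26, hh2, hs, b6, b7, b12, b13, b14, nn_c04, nn_g06, nn_c11, nn_c12, nn_g16, nn_c22, nn_c23]
                          · linarith only [hx0, hx1, hx2, hG1, hG2, z0, y0, z1, y1, z2, y2, e1, e2, e3, e4, hg06, hg16, hg26, hh2, hs, b6, b7, b12, b13, b14, nn_c04, nn_g06, nn_c11, nn_c14, nn_g16, nn_c22, nn_c23]
                          · linarith only [hx0, hx1, hx2, hG1, hG2, z0, y0, z1, y1, z2, y2, e1, e2, e3, e4, hg06, hg16, hg26, hs, b7, b8, b12, b13, b14, nn_c04, nn_g06, nn_c11, nn_c12, nn_g16, nn_c22, nn_c23]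
                          · linarith only [hx0, hx1, hx2, hG1, hG2, z0, y0, z1, y1, z2, y2, e1, e2, e3, e4, hg06, hg16, hg26, hh2, hs, b6, b7, b8, b11, b12, b13, b14, nn_g06, nn_c11, nn_g16, nn_c22, nn_c23]
                          · linarith only [hx0, hx1, hx2, hG1, hG2, z0, y0, z1, y1, z2, y2, e1, e2, e3, e4, hg06, hg26, hh2, hs, ht1, b6, b7, b11, b12, b13, b14, nn_c04, nn_g06, nn_c11, nn_c16, nn_c22, nn_c23]
                        · linarith only [hx0, hx1, hx2, hG1, hG2, z0, y0, z1, y1, z2, y2, e1, e2, e3, e4, hg06, hg26, hh2, hs, ht1, b7, b12, b13, nn_c04, nn_g06, nn_c14]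
                        · linarith only [hx0, hx1, hx2, hG1, hG2, z0, y0, z1, y1, z2, y2, e1, e2, e3, e4, hg06, hg16, hg26, hs, ht1, b2, b4, b6, b9, b12, b13, nn_c03, nn_g06, nn_c14, nn_g16, nn_c21, nn_c24, nn_g26]
                        · linarith only [hx0, hx1, hx2, hG1, hG2, z0, y0, z1, y1, z2, y2, e1, e2, e3, e4, hg06, hg16, hg26, hh2, hs, ht1, b2, b4, b5, b6, b7, b12, b13, nn_c04, nn_g06, nn_c13, nn_c14, nn_c21]
                        · linarith only [hx0, hx1, hx2, hG1, hG2, z0, y0, z1, y1, z2, y2, e1, e2, e3, e4, hg06, hg16, hg26, hs, ht1, b2, b4, b5, b6, b7, b9, b12, b13, nn_c04, nn_g06, nn_c13, nn_c14, nn_c21]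
                        · linarith only [hx0, hx1, hx2, hG1, hG2, z0, y0, z1, y1, z2, y2, e1, e2, e3, e4, hg06, hg16, hg26, hs, b2, b4, b5, b6, b9, b12, b13, nn_c03, nn_g06, nn_c13, nn_g16, nn_c21, nn_c24, nn_g26]
                        · linarith only [hx0, hx1, hx2, hG1, hG2, z0, y0, z1, y1, z2, y2, e1, e2, e3, e4, hg06, hg16, hg26, hs, b2, b4, b5, b6, b9, b12, b13, nn_c04, nn_g06, nn_c13, nn_g16, nn_c21, nn_c24, nn_g26]
                        · linarith only [hx0, hx1, hx2, hG1, hG2, z0, y0, z1, y1, z2, y2, e1, e2, e3, e4, hg06, hg16, hg26, hs, b2, b4, b5, b6, b9, b12, b13, nn_c03, nn_g06, nn_c13, nn_g16, nn_c21, nn_c24, nn_g26]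
                        · rcases oL1_4_2 H with b14 | b14
                          · linarith only [hx0, hx1, hx2, hG1, hG2, z0, y0, z1, y1, z2, y2, e1, e2, e3, e4, hg06, hg16, hg26, hs, b4, b6, b9, b12, b13, b14, nn_g06, nn_c13, nn_g16, nn_c24, nn_g26]
                          · linarith only [hx0, hx1, hx2, hG1, hG2, z0, y0, z1, y1, z2, y2, e1, e2, e3, e4, hg06, hg16, hh1, hg26, hs, ht2, b2, b4, b5, b6, b9, b12, b13, b14, nn_c03, nn_g06, nn_c21, nn_g26]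
                    · linarith only [hx0, hx1, hx2, hG1, hG2, z0, y0, z1, y1, z2, y2, e1, e2, e3, e4, hg06, hg16, hg26, hs, hG0, b1, b4, b5, b6, b9, b11, nn_c03, nn_c04, nn_g06, nn_c13, nn_c14, nn_g16, nn_g26]
                  · rcases oC0_346 H with b10 | b10 | b10 | b10 | b10 | b10 | b10 | b10 | b10
                    · linarith only [hx0, hx1, hx2, hG1, hG2, z0, y0, z1, y1, z2, y2, e1, e2, e3, e4, hg06, hg26, hs, ht1, hG0, b5, b9, b10, nn_c02, nn_c04, nn_g06, nn_c11, nn_c13, nn_c14, nn_g16, nn_c22, nn_c24, nn_g26]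
                    · linarith only [hx0, hx1, hx2, hG1, hG2, z0, y0, z1, y1, z2, y2, e1, e2, e3, e4, hg06, hg16, hg26, hs, ht1, hG0, b4, b5, b9, b10, nn_c02, nn_c04, nn_g06, nn_c14, nn_g16, nn_c22, nn_c24, nn_g26]
                    · linarith only [hx0, hx1, hx2, hG1, hG2, z0, y0, z1, y1, z2, y2, e1, e2, e3, e4, hg06, hg16, hg26, hs, ht1, b1, b5, b6, b9, b10, nn_c02, nn_c04, nn_g06, nn_c13, nn_g16, nn_c22, nn_c24, nn_g26]
                    · linarith only [hx0, hx1, hx2, hG1, hG2, z0, y0, z1, y1, z2, y2, e1, e2, e3, e4, hg06, hg26, hs, ht1, hG0, b5, b9, b10, nn_c02, nn_c04, nn_g06, nn_c22, nn_c24, nn_g26]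
                    · linarith only [hx0, hx1, hx2, hG1, hG2, z0, y0, z1, y1, z2, y2, e1, e2, e3, e4, hg06, hg16, hg26, hs, ht1, hG0, b1, b5, b9, b10, nn_c02, nn_c04, nn_g06, nn_c14, nn_g16, nn_c22, nn_c24, nn_g26]
                    · linarith only [hx0, hx1, hx2, hG1, hG2, z0, y0, z1, y1, z2, y2, e1, e2, e3, e4, hg06, hg16, hg26, hs, ht1, b1, b5, b6, b9, b10, nn_c02, nn_c04, nn_g06, nn_c13, nn_g16, nn_g26]
                    · linarith only [hx0, hx1, hx2, hG1, hG2, z0, y0, z1, y1, z2, y2, e1, e2, e3, e4, hg06, hg16, hg26, hs, ht1, b1, b5, b6, b9, b10, nn_c02, nn_c04, nn_g06, nn_c13, nn_g16, nn_g26]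
                    · linarith only [hx0, hx1, hx2, hG1, hG2, z0, y0, z1, y1, z2, y2, e1, e2, e3, e4, hg06, hg16, hg26, hs, ht1, b4, b5, b6, b7, b9, b10, nn_c02, nn_c04, nn_g06, nn_c13, nn_g16, nn_c22, nn_g26]
                    · linarith only [hx0, hx1, hx2, hG1, hG2, z0, y0, z1, y1, z2, y2, e1, e2, e3, e4, hg06, hg16, hg26, hs, ht1, b4, b5, b6, b7, b9, b10, nn_c02, nn_c04, nn_g06, nn_c13, nn_c14, nn_c22, nn_g26]
                · rcases oL1_24_4 H with b9 | b9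
                  · rcases oL2_46_3 H with b10 | b10
                    · rcases oL0_36_2 H with b11 | b11
                      · rcases oL1_346_4 H with b12 | b12
                        · rcases oC2_4 H with b13 | b13 | b13 | b13 | b13 | b13 | b13 | b13 | b13
                          · rcases oC1_36 H with b14 | b14 | b14 | b14 | b14 | b14 | b14 | b14 | b14
                            · linarith only [hx0, hx1, hx2, hG1, hG2, z0, y0, z1, y1, z2, y2, e1, e2, e3, e4, hs, ht0, b9, b13, b14, nn_c04, nn_c11]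
                            · linarith only [hx0, hx1, hx2, hG1, hG2, z0, y0, z1, y1, z2, y2, e1, e2, e3, e4, hg06, hg16, hg26, hs, ht0, hG0, b6, b7, b9, b10, b13, b14, nn_c02, nn_c04, nn_c11, nn_c21, nn_c22, nn_c23]
                            · linarith only [hx0, hx1, hx2, hG1, hG2, z0, y0, z1, y1, z2, y2, e1, e2, e3, e4, hg06, hg16, hs, ht0, hG0, b7, b13, b14, nn_c02, nn_c04, nn_g06, nn_c11, nn_c13, nn_g16]
                            · linarith only [hx0, hx1, hx2, hG1, hG2, z0, y0, z1, y1, z2, y2, e1, e2, e3, e4, hg06, hg16, hg26, hs, hG0, b7, b9, b10, b13, b14, nn_c02, nn_c04, nn_c11, nn_c12, nn_g16, nn_c22, nn_c23, nn_g26]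
                            · linarith only [hx0, hx1, hx2, hG1, hG2, z0, y0, z1, y1, z2, y2, e1, e2, e3, e4, hg06, hg16, hg26, hs, hG0, b7, b9, b10, b13, b14, nn_c01, nn_c02, nn_g06, nn_c11, nn_g16, nn_c22, nn_c23, nn_g26]
                            · linarith only [hx0, hx1, hx2, hG1, hG2, z0, y0, z1, y1, z2, y2, e1, e2, e3, e4, hg06, hg16, hs, hG0, b7, b12, b13, b14, nn_c01, nn_c02, nn_c04, nn_g06, nn_c11, nn_c13, nn_g16]
                            · linarith only [hx0, hx1, hx2, hG1, hG2, z0, y0, z1, y1, z2, y2, e1, e2, e3, e4, hg06, hg16, hg26, hs, hG0, b7, b10, b13, b14, nn_c01, nn_c02, nn_g06, nn_c11, nn_c13, nn_g16, nn_c22, nn_c23, nn_g26]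
                            · linarith only [hx0, hx1, hx2, hG1, hG2, z0, y0, z1, y1, z2, y2, e1, e2, e3, e4, hg06, hg16, hg26, hs, hG0, b7, b10, b12, b13, b14, nn_c01, nn_c02, nn_c04, nn_g06, nn_c11, nn_g16, nn_c22, nn_c23]
                            · linarith only [hx0, hx1, hx2, hG1, hG2, z0, y0, z1, y1, z2, y2, e1, e2, e3, e4, hg06, hg16, hs, hG0, b7, b8, b10, b12, b13, b14, nn_c01, nn_c02, nn_c04, nn_g06, nn_c11, nn_g16, nn_c21, nn_c23]
                          · linarith only [hx0, hx1, hx2, hG1, hG2, z0, y0, z1, y1, z2, y2, e1, e2, e3, e4, hs, ht0, ht1, b13, nn_c21, nn_c22, nn_c23, nn_c26]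
                          · linarith only [hx0, hx1, hx2, hG1, hG2, z0, y0, z1, y1, z2, y2, e1, e2, e3, e4, hg06, hg16, hg26, hs, ht1, hG0, b2, b4, b6, b8, b11, b13, nn_c04, nn_g06, nn_c14, nn_g16, nn_c21, nn_g26]
                          · linarith only [hx0, hx1, hx2, hG1, hG2, z0, y0, z1, y1, z2, y2, e1, e2, e3, e4, hs, ht0, ht1, b13, nn_c21, nn_c22, nn_c23, nn_c26]
                          · rcases oC1_346 H with b14 | b14 | b14 | b14 | b14 | b14 | b14 | b14 | b14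
                            · linarith only [hx0, hx1, hx2, hG1, hG2, z0, y0, z1, y1, z2, y2, e1, e2, e3, e4, hg06, hg16, hs, ht0, hG0, b4, b6, b7, b8, b9, b10, b13, b14, nn_c02, nn_g16, nn_c21, nn_c23]
                            · linarith only [hx0, hx1, hx2, hG1, hG2, z0, y0, z1, y1, z2, y2, e1, e2, e3, e4, hg06, hg16, hs, ht0, hG0, b4, b6, b7, b8, b9, b10, b11, b13, b14, nn_c12, nn_g16, nn_c21, nn_c23]
                            · linarith only [hx0, hx1, hx2, hG1, hG2, z0, y0, z1, y1, z2, y2, e1, e2, e3, e4, hg06, hg16, hg26, hs, hG0, b4, b6, b11, b14, nn_c02, nn_c04, nn_g06, nn_c11, nn_c14, nn_g16, nn_c22, nn_g26]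
                            · linarith only [hx0, hx1, hx2, hG1, hG2, z0, y0, z1, y1, z2, y2, e1, e2, e3, e4, hg06, hg16, hs, ht0, hG0, b6, b8, b9, b10, b11, b13, b14, nn_c02, nn_g06, nn_c12, nn_g16, nn_c21, nn_c23]
                            · linarith only [hx0, hx1, hx2, hG1, hG2, z0, y0, z1, y1, z2, y2, e1, e2, e3, e4, hg06, hg16, hg26, hs, ht0, hG0, b4, b6, b8, b10, b11, b13, b14, nn_c04, nn_g06, nn_c14, nn_g16, nn_c23]
                            · linarith only [hx0, hx1, hx2, hG1, hG2, z0, y0, z1, y1, z2, y2, e1, e2, e3, e4, hg06, hg16, hg26, hs, hG0, b4, b8, b11, b12, b13, b14, nn_c02, nn_c04, nn_g06, nn_c14, nn_g16, nn_c22, nn_g26]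
                            · linarith only [hx0, hx1, hx2, hG1, hG2, z0, y0, z1, y1, z2, y2, e1, e2, e3, e4, hg06, hg16, hg26, hs, hG0, b4, b5, b8, b11, b13, b14, nn_c02, nn_c04, nn_g06, nn_c13, nn_c14, nn_g16, nn_c22, nn_g26]
                            · linarith only [hx0, hx1, hx2, hG1, hG2, z0, y0, z1, y1, z2, y2, e1, e2, e3, e4, hg06, hg16, hg26, hs, hG0, b4, b8, b11, b12, b13, b14, nn_c02, nn_c04, nn_g06, nn_c14, nn_g16, nn_c22, nn_g26]
                            · linarith only [hx0, hx1, hx2, hG1, hG2, z0, y0, z1, y1, z2, y2, e1, e2, e3, e4, hg06, hg16, hg26, hs, hG0, b4, b8, b11, b12, b13, b14, nn_c02, nn_c04, nn_g06, nn_c14, nn_g16, nn_c22, nn_g26]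
                          · linarith only [hx0, hx1, hx2, hG1, hG2, z0, y0, z1, y1, z2, y2, e1, e2, e3, e4, hg06, hg16, hg26, hs, ht1, hG0, b2, b4, b6, b8, b11, b13, nn_c04, nn_g06, nn_c14, nn_g16, nn_c21, nn_g26]
                          · linarith only [hx0, hx1, hx2, hG1, hG2, z0, y0, z1, y1, z2, y2, e1, e2, e3, e4, hg06, hg16, hs, ht0, ht1, hG0, b4, b6, b8, b11, b13, nn_c04, nn_g06, nn_g16, nn_c21, nn_c22, nn_c23]
                          · linarith only [hx0, hx1, hx2, hG1, hG2, z0, y0, z1, y1, z2, y2, e1, e2, e3, e4, hg06, hg16, hg26, hs, ht0, ht1, hG0, b4, b6, b8, b9, b11, b13, nn_c04, nn_g06, nn_g16, nn_c21]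
                          · linarith only [hx0, hx1, hx2, hG1, hG2, z0, y0, z1, y1, z2, y2, e1, e2, e3, e4, hg06, hg16, hg26, hs, ht1, hG0, b2, b4, b8, b10, b11, b13, nn_c04, nn_g06, nn_c14, nn_g16, nn_c21, nn_g26]
                        · linarith only [hx0, hx1, hx2, hG1, hG2, z0, y0, z1, y1, z2, y2, e1, e2, e3, e4, hg06, hg16, hg26, hs, ht1, hG0, b1, b5, b8, b11, b12, nn_c02, nn_c04, nn_g06, nn_c14, nn_g16, nn_c22, nn_g26]
                      · rcases oL1_346_4 H with b12 | b12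
                        · rcases oC2_46 H with b13 | b13 | b13 | b13 | b13 | b13 | b13 | b13 | b13
                          · linarith only [hx0, hx1, hx2, hG1, hG2, z0, y0, z1, y1, z2, y2, e1, e2, e3, e4, hg06, hg26, hs, ht1, b7, b8, b9, b11, b12, b13, nn_g06, nn_c11, nn_c14, nn_c23]
                          · linarith only [hx0, hx1, hx2, hG1, hG2, z0, y0, z1, y1, z2, y2, e1, e2, e3, e4, hg06, hg16, hg26, hs, ht1, b2, b4, b6, b7, b8, b9, b11, b12, b13, nn_g06, nn_c14, nn_c21, nn_c23]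
                          · linarith only [hx0, hx1, hx2, hG1, hG2, z0, y0, z1, y1, z2, y2, e1, e2, e3, e4, hg06, hg16, hg26, hs, hG0, b2, b4, b5, b6, b8, b11, b12, b13, nn_g06, nn_c14, nn_g16, nn_c21, nn_g26]
                          · linarith only [hx0, hx1, hx2, hG1, hG2, z0, y0, z1, y1, z2, y2, e1, e2, e3, e4, hg06, hg16, hg26, hs, ht0, hG0, b4, b6, b7, b8, b9, b11, b12, b13, nn_g06, nn_c14, nn_c21, nn_c23]
                          · linarith only [hx0, hx1, hx2, hG1, hG2, z0, y0, z1, y1, z2, y2, e1, e2, e3, e4, hg06, hg16, hg26, hs, hG0, b2, b4, b5, b6, b7, b8, b11, b12, b13, nn_g06, nn_g16, nn_c21, nn_g26]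
                          · linarith only [hx0, hx1, hx2, hG1, hG2, z0, y0, z1, y1, z2, y2, e1, e2, e3, e4, hg06, hg16, hg26, hs, hG0, b2, b4, b5, b6, b8, b11, b12, b13, nn_g06, nn_c14, nn_g16, nn_c21, nn_g26]
                          · linarith only [hx0, hx1, hx2, hG1, hG2, z0, y0, z1, y1, z2, y2, e1, e2, e3, e4, hg06, hg16, hg26, hs, hG0, b4, b5, b6, b8, b11, b12, b13, nn_g06, nn_c11, nn_c13, nn_g16, nn_c21, nn_g26]
                          · linarith only [hx0, hx1, hx2, hG1, hG2, z0, y0, z1, y1, z2, y2, e1, e2, e3, e4, hg06, hg16, hg26, hs, hG0, b2, b4, b5, b6, b7, b8, b11, b12, b13, nn_g06, nn_g16, nn_c21, nn_g26]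
                          · linarith only [hx0, hx1, hx2, hG1, hG2, z0, y0, z1, y1, z2, y2, e1, e2, e3, e4, hg06, hg16, hg26, hs, hG0, b2, b4, b5, b6, b8, b11, b12, b13, nn_g06, nn_c14, nn_g16, nn_c21, nn_g26]
                        · rcases oL0_4_2 H with b13 | b13
                          · linarith only [hx0, hx1, hx2, hG1, hG2, z0, y0, z1, y1, z2, y2, e1, e2, e3, e4, hg06, hg16, hg26, hs, ht1, hG0, b4, b5, b8, b12, b13, nn_c02, nn_c03, nn_g06, nn_c14, nn_g16, nn_c22, nn_g26]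
                          · linarith only [hx0, hx1, hx2, hG1, hG2, z0, y0, z1, y1, z2, y2, e1, e2, e3, e4, hg06, hg16, hg26, hs, ht1, b4, b5, b7, b8, b11, b12, b13, nn_c02, nn_g06, nn_c14, nn_g16, nn_c22, nn_g26]
                    · linarith only [hx0, hx1, hx2, hG1, hG2, z0, y0, z1, y1, z2, y2, e1, e2, e3, e4, hg06, hg16, hg26, hs, ht1, hG0, b4, b5, b6, b8, b10, nn_c04, nn_g06, nn_c13, nn_c14, nn_g16, nn_c21, nn_g26]
                  · rcases oL2_34_3 H with b10 | b10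
                    · rcases oC2_46 H with b11 | b11 | b11 | b11 | b11 | b11 | b11 | b11 | b11
                      · rcases oL1_6_4 H with b12 | b12
                        · linarith only [hx0, hx1, hx2, hG1, hG2, z0, y0, z1, y1, z2, y2, e1, e2, e3, e4, hh1, hg26, hs, ht0, b8, b11, b12, nn_c04, nn_c23, nn_c26]
                        · linarith only [hx0, hx1, hx2, hG1, hG2, z0, y0, z1, y1, z2, y2, e1, e2, e3, e4, hg06, hg16, hg26, hs, ht0, hG0, b0, b6, b9, b10, b11, b12, nn_c02, nn_g06, nn_c14, nn_c22, nn_c23, nn_g26]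
                      · linarith only [hx0, hx1, hx2, hG1, hG2, z0, y0, z1, y1, z2, y2, e1, e2, e3, e4, hg26, hs, ht0, b9, b11, nn_c12, nn_c14, nn_c21, nn_c22, nn_c23, nn_g26]
                      · linarith only [hx0, hx1, hx2, hG1, hG2, z0, y0, z1, y1, z2, y2, e1, e2, e3, e4, hg06, hg16, hg26, hs, hG0, b2, b4, b6, b8, b9, b11, nn_c04, nn_g06, nn_c12, nn_c14, nn_g16, nn_c21, nn_g26]
                      · linarith only [hx0, hx1, hx2, hG1, hG2, z0, y0, z1, y1, z2, y2, e1, e2, e3, e4, hg06, hg26, hs, ht0, ht1, hG0, b7, b11, nn_c02, nn_c04, nn_g06, nn_c14, nn_c21, nn_c22, nn_c23]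
                      · rcases oC1_6 H with b12 | b12 | b12 | b12 | b12 | b12 | b12 | b12 | b12
                        · linarith only [hx0, hx1, hx2, hG1, hG2, z0, y0, z1, y1, z2, y2, e1, e2, e3, e4, hg06, hh1, hg26, hs, ht0, hG0, b2, b4, b8, b11, b12, nn_c04, nn_g06, nn_c11, nn_g26]
                        · linarith only [hx0, hx1, hx2, hG1, hG2, z0, y0, z1, y1, z2, y2, e1, e2, e3, e4, hg06, hg16, hh1, hg26, hs, ht0, hG0, b4, b5, b8, b11, b12, nn_c04, nn_g06, nn_c14, nn_c21, nn_g26]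
                        · linarith only [hx0, hx1, hx2, hG1, hG2, z0, y0, z1, y1, z2, y2, e1, e2, e3, e4, hg06, hg16, hg26, hs, ht0, hG0, b4, b6, b9, b10, b11, b12, nn_g06, nn_c14, nn_g16, nn_g26]
                        · linarith only [hx0, hx1, hx2, hG1, hG2, z0, y0, z1, y1, z2, y2, e1, e2, e3, e4, hg06, hg16, hh1, hg26, hs, ht0, hG0, b4, b5, b6, b8, b11, b12, nn_c04, nn_g06, nn_c11, nn_c21, nn_g26]
                        · linarith only [hx0, hx1, hx2, hG1, hG2, z0, y0, z1, y1, z2, y2, e1, e2, e3, e4, hg06, hg16, hg26, hs, ht0, hG0, b4, b6, b8, b9, b10, b11, b12, nn_c04, nn_g06, nn_c14, nn_c21, nn_g26]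
                        · linarith only [hx0, hx1, hx2, hG1, hG2, z0, y0, z1, y1, z2, y2, e1, e2, e3, e4, hg06, hg16, hg26, hs, ht0, hG0, b4, b6, b9, b10, b11, b12, nn_g06, nn_c14, nn_g16, nn_g26]
                        · linarith only [hx0, hx1, hx2, hG1, hG2, z0, y0, z1, y1, z2, y2, e1, e2, e3, e4, hg06, hg16, hg26, hs, hG0, b4, b5, b6, b8, b9, b10, b11, b12, nn_c04, nn_g06, nn_c11, nn_g16, nn_g26]
                        · linarith only [hx0, hx1, hx2, hG1, hG2, z0, y0, z1, y1, z2, y2, e1, e2, e3, e4, hg06, hg16, hg26, hs, ht0, hG0, b4, b6, b9, b10, b11, b12, nn_g06, nn_c14, nn_g16, nn_g26]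
                        · linarith only [hx0, hx1, hx2, hG1, hG2, z0, y0, z1, y1, z2, y2, e1, e2, e3, e4, hg06, hg16, hg26, hs, hG0, b4, b6, b9, b11, b12, nn_c02, nn_c04, nn_g06, nn_c12, nn_c14, nn_c21, nn_c23, nn_g26]
                      · linarith only [hx0, hx1, hx2, hG1, hG2, z0, y0, z1, y1, z2, y2, e1, e2, e3, e4, hg06, hg16, hg26, hs, hG0, b2, b4, b5, b6, b8, b9, b10, b11, nn_c04, nn_g06, nn_c14, nn_c21, nn_g26]
                      · linarith only [hx0, hx1, hx2, hG1, hG2, z0, y0, z1, y1, z2, y2, e1, e2, e3, e4, hg06, hg16, hg26, hs, ht0, hG0, b4, b5, b6, b8, b9, b11, nn_c04, nn_g06, nn_c14, nn_c21, nn_g26]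
                      · linarith only [hx0, hx1, hx2, hG1, hG2, z0, y0, z1, y1, z2, y2, e1, e2, e3, e4, hg06, hg16, hg26, hs, hG0, b2, b4, b5, b6, b8, b9, b10, b11, nn_c04, nn_g06, nn_c14, nn_c21, nn_g26]
                      · linarith only [hx0, hx1, hx2, hG1, hG2, z0, y0, z1, y1, z2, y2, e1, e2, e3, e4, hg06, hg16, hg26, hs, hG0, b2, b4, b5, b6, b8, b9, b10, b11, nn_c04, nn_g06, nn_c14, nn_c21, nn_g26]
                    · linarith only [hx0, hx1, hx2, hG1, hG2, z0, y0, z1, y1, z2, y2, e1, e2, e3, e4, hg06, hg16, hg26, hs, hG0, b2, b4, b5, b6, b8, b9, b10, nn_c04, nn_g06, nn_c14, nn_g16, nn_c21, nn_c23]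
              · rcases oR2_4 H with b8 | b8
                · rcases oR1_4 H with b9 | b9
                  · rcases oL1_346_1 H with b10 | b10
                    · rcases oC1_46 H with b11 | b11 | b11 | b11 | b11 | b11 | b11 | b11 | b11
                      · linarith only [hx0, hx1, hx2, hG1, hG2, z0, y0, z1, y1, z2, y2, e1, e2, e3, e4, hh1, hs, ht1, ht2, b9, b11]
                      · linarith only [hx0, hx1, hx2, hG1, hG2, z0, y0, z1, y1, z2, y2, e1, e2, e3, e4, hg06, hg16, hh1, hg26, hs, ht2, b4, b5, b6, b7, b8, b9, b11, nn_c04, nn_g06, nn_c11, nn_c12, nn_c22]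
                      · linarith only [hx0, hx1, hx2, hG1, hG2, z0, y0, z1, y1, z2, y2, e1, e2, e3, e4, hg06, hg16, hg26, hs, b4, b5, b6, b7, b10, b11, nn_c04, nn_g06, nn_c14, nn_g16, nn_c23, nn_g26]
                      · linarith only [hx0, hx1, hx2, hG1, hG2, z0, y0, z1, y1, z2, y2, e1, e2, e3, e4, hg06, hg16, hh1, hg26, hs, ht2, b4, b5, b6, b7, b8, b9, b11, nn_c04, nn_g06, nn_c11, nn_c12, nn_c22]
                      · linarith only [hx0, hx1, hx2, hG1, hG2, z0, y0, z1, y1, z2, y2, e1, e2, e3, e4, hg06, hg16, hg26, hs, ht2, b4, b5, b6, b7, b8, b9, b10, b11, nn_c04, nn_g06, nn_g16, nn_c23]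
                      · linarith only [hx0, hx1, hx2, hG1, hG2, z0, y0, z1, y1, z2, y2, e1, e2, e3, e4, hg06, hg16, hg26, hs, ht2, b4, b5, b6, b7, b10, b11, nn_c04, nn_g06, nn_c14, nn_g16, nn_c23, nn_g26]
                      · linarith only [hx0, hx1, hx2, hG1, hG2, z0, y0, z1, y1, z2, y2, e1, e2, e3, e4, hg06, hg16, hg26, hs, ht2, b4, b5, b6, b7, b10, b11, nn_c04, nn_g06, nn_c14, nn_g16, nn_c23, nn_g26]
                      · rcases oL2_46_3 H with b12 | b12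
                        · linarith only [hx0, hx1, hx2, hG1, hG2, z0, y0, z1, y1, z2, y2, e1, e2, e3, e4, hg06, hg16, hg26, hs, b5, b6, b7, b8, b10, b11, b12, nn_c03, nn_g06, nn_c14, nn_g16, nn_c23, nn_g26]
                        · linarith only [hx0, hx1, hx2, hG1, hG2, z0, y0, z1, y1, z2, y2, e1, e2, e3, e4, hg06, hg16, hg26, hs, ht2, b4, b5, b6, b7, b10, b11, b12, nn_c04, nn_g06, nn_c14, nn_g16, nn_g26]
                      · rcases oL2_34_3 H with b12 | b12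
                        · linarith only [hx0, hx1, hx2, hG1, hG2, z0, y0, z1, y1, z2, y2, e1, e2, e3, e4, hg06, hg16, hg26, hs, ht1, b4, b5, b6, b7, b8, b10, b11, b12, nn_c03, nn_g06, nn_g16, nn_g26]
                        · linarith only [hx0, hx1, hx2, hG1, hG2, z0, y0, z1, y1, z2, y2, e1, e2, e3, e4, hg06, hg16, hh2, hs, ht1, b4, b5, b6, b7, b11, b12, nn_c04, nn_g06, nn_g16, nn_c23, nn_c24]
                    · linarith only [hx0, hx1, hx2, hG1, hG2, z0, y0, z1, y1, z2, y2, e1, e2, e3, e4, hg06, hg16, hg26, hs, ht1, b4, b5, b6, b7, b8, b10, nn_c02, nn_c04, nn_g06, nn_c13, nn_g16, nn_c22, nn_g26]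
                  · linarith only [hx0, hx1, hx2, hG1, hG2, z0, y0, z1, y1, z2, y2, e1, e2, e3, e4, hg06, hg16, hg26, hs, ht1, b2, b4, b5, b6, b7, b9, nn_c01, nn_c04, nn_g06, nn_g16, nn_c22, nn_c24, nn_g26]
                · linarith only [hx0, hx1, hx2, hG1, hG2, z0, y0, z1, y1, z2, y2, e1, e2, e3, e4, hg06, hg16, hg26, hs, ht1, b1, b2, b5, b6, b7, b8, nn_c01, nn_c04, nn_g06, nn_g16, nn_c22, nn_c24, nn_g26]
            · rcases oL1_346_3 H with b7 | b7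
              · rcases oL2_4_1 H with b8 | b8
                · rcases oR2_4 H with b9 | b9
                  · have b10 := oF1_32 H
                    rcases oL2_6_2 H with b11 | b11
                    · rcases oC2_46 H with b12 | b12 | b12 | b12 | b12 | b12 | b12 | b12 | b12
                      · linarith only [hx0, hx1, hx2, hG1, hG2, z0, y0, z1, y1, z2, y2, e1, e2, e3, e4, hh2, hs, ht1, ht2, b9, b12]
                      · linarith only [hx0, hx1, hx2, hG1, hG2, z0, y0, z1, y1, z2, y2, e1, e2, e3, e4, hg06, hg16, hg26, hh2, hs, ht1, hG0, b2, b6, b8, b9, b11, b12, nn_c04, nn_c14, nn_g16, nn_c21, nn_c22]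
                      · linarith only [hx0, hx1, hx2, hG1, hG2, z0, y0, z1, y1, z2, y2, e1, e2, e3, e4, hg06, hg16, hg26, hs, hG0, b6, b7, b8, b11, b12, nn_c01, nn_c03, nn_c14, nn_g16, nn_c21, nn_c22, nn_c24, nn_g26]
                      · linarith only [hx0, hx1, hx2, hG1, hG2, z0, y0, z1, y1, z2, y2, e1, e2, e3, e4, hg06, hg16, hg26, hh2, hs, ht1, hG0, b2, b6, b8, b9, b11, b12, nn_c04, nn_c14, nn_g16, nn_c21, nn_c22]
                      · linarith only [hx0, hx1, hx2, hG1, hG2, z0, y0, z1, y1, z2, y2, e1, e2, e3, e4, hg06, hg16, hg26, hs, ht1, hG0, b2, b6, b8, b9, b11, b12, nn_c04, nn_c12, nn_c14, nn_g16, nn_c21, nn_c22]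
                      · linarith only [hx0, hx1, hx2, hG1, hG2, z0, y0, z1, y1, z2, y2, e1, e2, e3, e4, hh0, hg16, hg26, hs, b6, b7, b8, b11, b12, nn_c04, nn_c11, nn_c12, nn_c14, nn_g16, nn_c21, nn_c22, nn_g26]
                      · linarith only [hx0, hx1, hx2, hG1, hG2, z0, y0, z1, y1, z2, y2, e1, e2, e3, e4, hg06, hg16, hg26, hs, hG0, b6, b8, b9, b11, b12, nn_c04, nn_c11, nn_c12, nn_c14, nn_g16, nn_c21, nn_c22, nn_g26]
                      · linarith only [hx0, hx1, hx2, hG1, hG2, z0, y0, z1, y1, z2, y2, e1, e2, e3, e4, hh0, hg16, hg26, hs, b6, b8, b9, b11, b12, nn_c04, nn_c11, nn_c12, nn_c14, nn_g16, nn_c21, nn_c22, nn_g26]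
                      · linarith only [hx0, hx1, hx2, hG1, hG2, z0, y0, z1, y1, z2, y2, e1, e2, e3, e4, hh0, hg16, hg26, hs, b6, b7, b8, b11, b12, nn_c04, nn_c11, nn_c12, nn_c14, nn_g16, nn_c21, nn_c22, nn_g26]
                    · rcases oL2_246_3 H with b12 | b12
                      · rcases oL2_46_2 H with b13 | b13
                        · rcases oC2_46 H with b14 | b14 | b14 | b14 | b14 | b14 | b14 | b14 | b14
                          · linarith only [hx0, hx1, hx2, hG1, hG2, z0, y0, z1, y1, z2, y2, e1, e2, e3, e4, hg26, hs, ht1, ht2, b9, b11, b14]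
                          · linarith only [hx0, hx1, hx2, hG1, hG2, z0, y0, z1, y1, z2, y2, e1, e2, e3, e4, hg06, hg16, hg26, hs, ht1, hG0, b2, b6, b8, b9, b11, b13, b14, nn_c04, nn_c14, nn_g16, nn_c21, nn_c22]
                          · linarith only [hx0, hx1, hx2, hG1, hG2, z0, y0, z1, y1, z2, y2, e1, e2, e3, e4, hg06, hg16, hg26, hs, hG0, b6, b7, b8, b12, b13, b14, nn_c01, nn_c03, nn_c14, nn_g16, nn_c21, nn_c22, nn_g26]
                          · linarith only [hx0, hx1, hx2, hG1, hG2, z0, y0, z1, y1, z2, y2, e1, e2, e3, e4, hg06, hg16, hg26, hs, ht1, hG0, b2, b6, b8, b9, b11, b13, b14, nn_c04, nn_c14, nn_g16, nn_c21, nn_c22]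
                          · linarith only [hx0, hx1, hx2, hG1, hG2, z0, y0, z1, y1, z2, y2, e1, e2, e3, e4, hg06, hg16, hg26, hs, ht1, hG0, b2, b6, b8, b9, b12, b13, b14, nn_c04, nn_c14, nn_g16, nn_c21, nn_c22]
                          · linarith only [hx0, hx1, hx2, hG1, hG2, z0, y0, z1, y1, z2, y2, e1, e2, e3, e4, hg06, hg16, hg26, hs, ht1, hG0, b2, b6, b7, b8, b12, b13, b14, nn_c14, nn_g16, nn_c21, nn_c22, nn_g26]
                          · linarith only [hx0, hx1, hx2, hG1, hG2, z0, y0, z1, y1, z2, y2, e1, e2, e3, e4, hg06, hg16, hg26, hs, hG0, b6, b8, b9, b12, b13, b14, nn_c04, nn_c11, nn_c12, nn_g16, nn_c21, nn_c22, nn_g26]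
                          · linarith only [hx0, hx1, hx2, hG1, hG2, z0, y0, z1, y1, z2, y2, e1, e2, e3, e4, hg06, hg16, hg26, hs, hG0, b2, b6, b8, b9, b12, b13, b14, nn_c12, nn_c14, nn_g16, nn_c21, nn_c22, nn_g26]
                          · linarith only [hx0, hx1, hx2, hG1, hG2, z0, y0, z1, y1, z2, y2, e1, e2, e3, e4, hg06, hh0, hg16, hg26, hs, hG0, b6, b8, b12, b13, b14, nn_c12, nn_g16, nn_c21, nn_c22, nn_g26]
                        · rcases oC0_346 H with b14 | b14 | b14 | b14 | b14 | b14 | b14 | b14 | b14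
                          · linarith only [hx0, hx1, hx2, hG1, hG2, z0, y0, z1, y1, z2, y2, e1, e2, e3, e4, hh0, hg16, hg26, hs, ht2, b5, b6, b7, b8, b12, b13, b14, nn_c01, nn_c02, nn_g16, nn_c21, nn_g26]
                          · linarith only [hx0, hx1, hx2, hG1, hG2, z0, y0, z1, y1, z2, y2, e1, e2, e3, e4, hg06, hh0, hg16, hg26, hs, ht2, b5, b6, b7, b8, b12, b13, b14, nn_c01, nn_c02, nn_g16, nn_c21, nn_g26]
                          · linarith only [hx0, hx1, hx2, hG1, hG2, z0, y0, z1, y1, z2, y2, e1, e2, e3, e4, hg06, hg16, hg26, hs, ht2, b5, b7, b8, b10, b12, b13, b14, nn_c04, nn_g06, nn_c11, nn_g16, nn_c21, nn_g26]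
                          · linarith only [hx0, hx1, hx2, hG1, hG2, z0, y0, z1, y1, z2, y2, e1, e2, e3, e4, hg06, hg16, hg26, hs, ht1, ht2, b5, b6, b7, b8, b12, b13, b14, nn_c01, nn_c02, nn_g16, nn_c21, nn_g26]
                          · linarith only [hx0, hx1, hx2, hG1, hG2, z0, y0, z1, y1, z2, y2, e1, e2, e3, e4, hg06, hg16, hg26, hs, ht2, b5, b6, b7, b8, b10, b12, b13, b14, nn_c01, nn_c03, nn_g16, nn_c21, nn_g26]
                          · linarith only [hx0, hx1, hx2, hG1, hG2, z0, y0, z1, y1, z2, y2, e1, e2, e3, e4, hg06, hg16, hg26, hs, b5, b6, b7, b8, b10, b12, b13, b14, nn_c04, nn_g06, nn_c11, nn_g16, nn_c21, nn_g26]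
                          · linarith only [hx0, hx1, hx2, hG1, hG2, z0, y0, z1, y1, z2, y2, e1, e2, e3, e4, hg06, hg16, hg26, hs, b5, b7, b8, b10, b12, b13, b14, nn_c03, nn_c04, nn_g06, nn_c14, nn_g16, nn_c21, nn_g26]
                          · linarith only [hx0, hx1, hx2, hG1, hG2, z0, y0, z1, y1, z2, y2, e1, e2, e3, e4, hg06, hg16, hg26, hs, b5, b7, b8, b10, b12, b13, b14, nn_c03, nn_c04, nn_g06, nn_c11, nn_g16, nn_c21, nn_g26]
                          · rcases oR2_3 H with b15 | b15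
                            · linarith only [hx0, hx1, hx2, hG1, hG2, z0, y0, z1, y1, z2, y2, e1, e2, e3, e4, hg06, hg16, hg26, hs, ht1, b5, b6, b8, b12, b13, b14, b15, nn_c01, nn_c14, nn_g16, nn_c21, nn_g26]
                            · linarith only [hx0, hx1, hx2, hG1, hG2, z0, y0, z1, y1, z2, y2, e1, e2, e3, e4, hg06, hg16, hg26, hs, b2, b5, b6, b8, b9, b12, b13, b14, b15, nn_c04, nn_c14, nn_g16, nn_c22, nn_g26]
                      · rcases oL0_346_3 H with b13 | b13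
                        · linarith only [hx0, hx1, hx2, hG1, hG2, z0, y0, z1, y1, z2, y2, e1, e2, e3, e4, hh0, hg16, hg26, hs, b5, b6, b7, b8, b12, b13, nn_c01, nn_c13, nn_g16, nn_c22, nn_g26]
                        · rcases oR2_3 H with b14 | b14
                          · linarith only [hx0, hx1, hx2, hG1, hG2, z0, y0, z1, y1, z2, y2, e1, e2, e3, e4, hg06, hg16, hg26, hs, ht2, b5, b6, b7, b8, b12, b13, b14, nn_c01, nn_c03, nn_c14, nn_g16, nn_c22, nn_g26]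
                          · linarith only [hx0, hx1, hx2, hG1, hG2, z0, y0, z1, y1, z2, y2, e1, e2, e3, e4, hg06, hg16, hg26, hs, b2, b5, b6, b8, b9, b12, b13, b14, nn_c04, nn_c12, nn_c14, nn_g16, nn_c22, nn_g26]
                  · rcases oC0_346 H with b10 | b10 | b10 | b10 | b10 | b10 | b10 | b10 | b10
                    · linarith only [hx0, hx1, hx2, hG1, hG2, z0, y0, z1, y1, z2, y2, e1, e2, e3, e4, hh0, hs, b6, b10, nn_c01, nn_c02, nn_c04]
                    · linarith only [hx0, hx1, hx2, hG1, hG2, z0, y0, z1, y1, z2, y2, e1, e2, e3, e4, hg06, hs, ht1, ht2, b6, b10, nn_c01, nn_c02, nn_c04]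
                    · linarith only [hx0, hx1, hx2, hG1, hG2, z0, y0, z1, y1, z2, y2, e1, e2, e3, e4, hg06, hg16, hg26, hs, ht2, b5, b8, b9, b10, nn_c01, nn_c04, nn_g06, nn_c12, nn_c14, nn_g16, nn_c22, nn_c23, nn_g26]
                    · linarith only [hx0, hx1, hx2, hG1, hG2, z0, y0, z1, y1, z2, y2, e1, e2, e3, e4, hg06, hs, ht1, ht2, b6, b10, nn_c01, nn_c02, nn_c04]
                    · rcases oC2_4 H with b11 | b11 | b11 | b11 | b11 | b11 | b11 | b11 | b11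
                      · linarith only [hx0, hx1, hx2, hG1, hG2, z0, y0, z1, y1, z2, y2, e1, e2, e3, e4, hg06, hh0, hg26, hs, ht1, b6, b9, b10, b11, nn_c01, nn_c04, nn_c22, nn_c23, nn_g26]
                      · linarith only [hx0, hx1, hx2, hG1, hG2, z0, y0, z1, y1, z2, y2, e1, e2, e3, e4, hg06, hg16, hg26, hs, ht1, b2, b5, b6, b9, b10, b11, nn_c01, nn_c04, nn_c14, nn_g16, nn_c22, nn_c23, nn_g26]
                      · linarith only [hx0, hx1, hx2, hG1, hG2, z0, y0, z1, y1, z2, y2, e1, e2, e3, e4, hg06, hg16, hg26, hs, ht1, b5, b6, b7, b8, b9, b10, b11, nn_c01, nn_c04, nn_c14, nn_g16, nn_c22, nn_c24]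
                      · linarith only [hx0, hx1, hx2, hG1, hG2, z0, y0, z1, y1, z2, y2, e1, e2, e3, e4, hg06, hg26, hs, ht1, b6, b9, b10, b11, nn_c01, nn_c04, nn_g06, nn_c22, nn_c23, nn_g26]
                      · linarith only [hx0, hx1, hx2, hG1, hG2, z0, y0, z1, y1, z2, y2, e1, e2, e3, e4, hg06, hg16, hg26, hs, ht1, b2, b5, b6, b7, b8, b9, b10, b11, nn_c01, nn_c04, nn_c14, nn_g16, nn_c22]
                      · linarith only [hx0, hx1, hx2, hG1, hG2, z0, y0, z1, y1, z2, y2, e1, e2, e3, e4, hg06, hg16, hg26, hs, ht1, b5, b6, b7, b8, b9, b10, b11, nn_c01, nn_c04, nn_c14, nn_g16, nn_c22, nn_c24]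
                      · linarith only [hx0, hx1, hx2, hG1, hG2, z0, y0, z1, y1, z2, y2, e1, e2, e3, e4, hg06, hs, ht1, b10, b11, nn_c04, nn_g06, nn_c24]
                      · linarith only [hx0, hx1, hx2, hG1, hG2, z0, y0, z1, y1, z2, y2, e1, e2, e3, e4, hg06, hg16, hg26, hs, ht1, b5, b6, b7, b8, b9, b10, b11, nn_c01, nn_c04, nn_c14, nn_g16, nn_c22, nn_c24]
                      · linarith only [hx0, hx1, hx2, hG1, hG2, z0, y0, z1, y1, z2, y2, e1, e2, e3, e4, hg06, hg16, hh2, hs, b5, b6, b7, b8, b9, b10, b11, nn_c01, nn_c02, nn_c04, nn_c11, nn_c14, nn_g16]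
                    · linarith only [hx0, hx1, hx2, hG1, hG2, z0, y0, z1, y1, z2, y2, e1, e2, e3, e4, hg06, hg16, hg26, hs, b2, b5, b6, b8, b9, b10, nn_c01, nn_c04, nn_c12, nn_c14, nn_g16, nn_c22, nn_c23, nn_g26]
                    · linarith only [hx0, hx1, hx2, hG1, hG2, z0, y0, z1, y1, z2, y2, e1, e2, e3, e4, hg06, hg16, hg26, hs, ht1, b2, b5, b8, b9, b10, nn_c01, nn_c04, nn_g06, nn_c14, nn_g16, nn_c22, nn_c23, nn_g26]
                    · linarith only [hx0, hx1, hx2, hG1, hG2, z0, y0, z1, y1, z2, y2, e1, e2, e3, e4, hg06, hg16, hg26, hs, ht1, b2, b5, b6, b8, b9, b10, nn_c01, nn_c04, nn_c14, nn_g16, nn_c22, nn_c23, nn_g26]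
                    · linarith only [hx0, hx1, hx2, hG1, hG2, z0, y0, z1, y1, z2, y2, e1, e2, e3, e4, hg06, hg16, hg26, hs, b2, b5, b6, b8, b9, b10, nn_c04, nn_c12, nn_c14, nn_g16, nn_c22, nn_c23, nn_g26]
                · rcases oR2_3 H with b9 | b9
                  · rcases oC2_346 H with b10 | b10 | b10 | b10 | b10 | b10 | b10 | b10 | b10
                    · linarith only [hx0, hx1, hx2, hG1, hG2, z0, y0, z1, y1, z2, y2, e1, e2, e3, e4, hh2, hs, ht1, b8, b9, b10, nn_c24]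
                    · linarith only [hx0, hx1, hx2, hG1, hG2, z0, y0, z1, y1, z2, y2, e1, e2, e3, e4, hg26, hs, ht1, b6, b8, b9, b10, nn_c03, nn_c04, nn_c21, nn_c22]
                    · linarith only [hx0, hx1, hx2, hG1, hG2, z0, y0, z1, y1, z2, y2, e1, e2, e3, e4, hg06, hg16, hg26, hs, ht1, hG0, b2, b4, b5, b6, b7, b10, nn_c03, nn_c14, nn_g16, nn_c21, nn_c24, nn_g26]
                    · linarith only [hx0, hx1, hx2, hG1, hG2, z0, y0, z1, y1, z2, y2, e1, e2, e3, e4, hg26, hs, ht1, b6, b8, b9, b10, nn_c03, nn_c04, nn_c21, nn_c22]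
                    · linarith only [hx0, hx1, hx2, hG1, hG2, z0, y0, z1, y1, z2, y2, e1, e2, e3, e4, hg06, hg16, hg26, hs, ht1, hG0, b2, b4, b5, b6, b8, b9, b10, nn_c03, nn_c04, nn_c14, nn_g16, nn_c21]
                    · linarith only [hx0, hx1, hx2, hG1, hG2, z0, y0, z1, y1, z2, y2, e1, e2, e3, e4, hg06, hg16, hg26, hs, hG0, b2, b4, b5, b6, b7, b9, b10, nn_c04, nn_c14, nn_g16, nn_c21, nn_c24, nn_g26]
                    · linarith only [hx0, hx1, hx2, hG1, hG2, z0, y0, z1, y1, z2, y2, e1, e2, e3, e4, hg06, hg16, hg26, hs, hG0, b2, b4, b5, b6, b9, b10, nn_c04, nn_g06, nn_c14, nn_g16, nn_c21, nn_c23, nn_g26]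
                    · linarith only [hx0, hx1, hx2, hG1, hG2, z0, y0, z1, y1, z2, y2, e1, e2, e3, e4, hg06, hg16, hg26, hs, hG0, b2, b4, b5, b6, b7, b8, b9, b10, nn_c04, nn_c14, nn_g16, nn_c21, nn_g26]
                    · linarith only [hx0, hx1, hx2, hG1, hG2, z0, y0, z1, y1, z2, y2, e1, e2, e3, e4, hg06, hg16, hg26, hs, hG0, b2, b4, b5, b6, b10, nn_c04, nn_c11, nn_c14, nn_g16, nn_c21, nn_c24, nn_g26]
                  · rcases oL0_346_3 H with b10 | b10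
                    · rcases oC0_346 H with b11 | b11 | b11 | b11 | b11 | b11 | b11 | b11 | b11
                      · linarith only [hx0, hx1, hx2, hG1, hG2, z0, y0, z1, y1, z2, y2, e1, e2, e3, e4, hh0, hs, b6, b11, nn_c01, nn_c02, nn_c04]
                      · linarith only [hx0, hx1, hx2, hG1, hG2, z0, y0, z1, y1, z2, y2, e1, e2, e3, e4, hg06, hs, ht1, ht2, b6, b11, nn_c01, nn_c02, nn_c04]
                      · linarith only [hx0, hx1, hx2, hG1, hG2, z0, y0, z1, y1, z2, y2, e1, e2, e3, e4, hg06, hg16, hg26, hs, b1, b4, b5, b7, b8, b9, b10, b11, nn_c01, nn_c04, nn_g06, nn_g16, nn_c24, nn_g26]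
                      · linarith only [hx0, hx1, hx2, hG1, hG2, z0, y0, z1, y1, z2, y2, e1, e2, e3, e4, hg06, hs, ht1, b6, b8, b11, nn_c01, nn_c02, nn_c04, nn_c24]
                      · rcases oC2_36 H with b12 | b12 | b12 | b12 | b12 | b12 | b12 | b12 | b12
                        · linarith only [hx0, hx1, hx2, hG1, hG2, z0, y0, z1, y1, z2, y2, e1, e2, e3, e4, hg06, hg16, hg26, hs, ht1, ht2, b6, b7, b9, b10, b11, b12, nn_c01, nn_c03, nn_c12, nn_g16, nn_c22, nn_c24]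
                        · linarith only [hx0, hx1, hx2, hG1, hG2, z0, y0, z1, y1, z2, y2, e1, e2, e3, e4, hg06, hg16, hg26, hs, ht1, b6, b7, b9, b10, b11, b12, nn_c01, nn_c02, nn_c03, nn_c12, nn_g16, nn_c22, nn_c24]
                        · linarith only [hx0, hx1, hx2, hG1, hG2, z0, y0, z1, y1, z2, y2, e1, e2, e3, e4, hg06, hg16, hg26, hs, ht1, b2, b4, b5, b6, b7, b8, b9, b11, b12, nn_c03, nn_c14, nn_g16, nn_c21]
                        · linarith only [hx0, hx1, hx2, hG1, hG2, z0, y0, z1, y1, z2, y2, e1, e2, e3, e4, hg06, hg16, hg26, hs, ht1, b2, b6, b7, b9, b10, b11, b12, nn_c01, nn_c03, nn_c12, nn_g16, nn_c22, nn_c24]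
                        · linarith only [hx0, hx1, hx2, hG1, hG2, z0, y0, z1, y1, z2, y2, e1, e2, e3, e4, hg06, hg16, hg26, hs, ht1, b2, b4, b5, b6, b7, b8, b9, b10, b11, b12, nn_g06, nn_c14, nn_g16]
                        · linarith only [hx0, hx1, hx2, hG1, hG2, z0, y0, z1, y1, z2, y2, e1, e2, e3, e4, hg06, hg16, hg26, hs, b2, b4, b5, b6, b7, b8, b9, b11, b12, nn_c04, nn_c14, nn_g16, nn_c21, nn_g26]
                        · linarith only [hx0, hx1, hx2, hG1, hG2, z0, y0, z1, y1, z2, y2, e1, e2, e3, e4, hg06, hg16, hg26, hs, b2, b4, b5, b6, b7, b8, b11, b12, nn_c04, nn_g06, nn_c14, nn_g16, nn_c21, nn_g26]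
                        · linarith only [hx0, hx1, hx2, hG1, hG2, z0, y0, z1, y1, z2, y2, e1, e2, e3, e4, hg06, hg16, hg26, hs, b2, b4, b5, b6, b7, b8, b9, b11, b12, nn_c04, nn_c14, nn_g16, nn_c21, nn_g26]
                        · linarith only [hx0, hx1, hx2, hG1, hG2, z0, y0, z1, y1, z2, y2, e1, e2, e3, e4, hg06, hg16, hg26, hs, b2, b4, b5, b6, b7, b8, b9, b11, b12, nn_c04, nn_c14, nn_g16, nn_c21, nn_g26]
                      · linarith only [hx0, hx1, hx2, hG1, hG2, z0, y0, z1, y1, z2, y2, e1, e2, e3, e4, hg06, hg16, hg26, hs, b1, b2, b4, b5, b6, b7, b8, b9, b10, b11, nn_c01, nn_c12, nn_g16, nn_g26]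
                      · linarith only [hx0, hx1, hx2, hG1, hG2, z0, y0, z1, y1, z2, y2, e1, e2, e3, e4, hg06, hg16, hg26, hs, ht1, b2, b4, b5, b7, b8, b9, b10, b11, nn_c01, nn_g06, nn_c14, nn_g16, nn_c22]
                      · linarith only [hx0, hx1, hx2, hG1, hG2, z0, y0, z1, y1, z2, y2, e1, e2, e3, e4, hg06, hg16, hg26, hs, ht1, b2, b4, b5, b6, b7, b8, b9, b10, b11, nn_c01, nn_c04, nn_g16, nn_c22]
                      · linarith only [hx0, hx1, hx2, hG1, hG2, z0, y0, z1, y1, z2, y2, e1, e2, e3, e4, hg06, hg16, hg26, hs, ht1, b2, b4, b5, b6, b7, b8, b9, b10, b11, nn_c01, nn_c04, nn_g16, nn_c22]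
                    · rcases oC1_3 H with b11 | b11 | b11 | b11 | b11 | b11 | b11 | b11 | b11
                      · linarith only [hx0, hx1, hx2, hG1, hG2, z0, y0, z1, y1, z2, y2, e1, e2, e3, e4, hg16, hg26, hs, ht0, b2, b5, b9, b10, b11, nn_c12, nn_c14, nn_g16, nn_c22, nn_c24, nn_g26]
                      · linarith only [hx0, hx1, hx2, hG1, hG2, z0, y0, z1, y1, z2, y2, e1, e2, e3, e4, hg16, hg26, hs, ht0, b5, b9, b10, b11, nn_c12, nn_c14, nn_g16, nn_c22, nn_c24, nn_g26]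
                      · linarith only [hx0, hx1, hx2, hG1, hG2, z0, y0, z1, y1, z2, y2, e1, e2, e3, e4, hg06, hg16, hg26, hs, ht0, b4, b5, b6, b9, b10, b11, nn_c04, nn_c12, nn_c13, nn_g16, nn_c22, nn_c24, nn_g26]
                      · linarith only [hx0, hx1, hx2, hG1, hG2, z0, y0, z1, y1, z2, y2, e1, e2, e3, e4, hg06, hg16, hg26, hs, ht0, b4, b5, b6, b9, b10, b11, nn_c04, nn_c12, nn_c14, nn_g16, nn_c22, nn_c24, nn_g26]
                      · linarith only [hx0, hx1, hx2, hG1, hG2, z0, y0, z1, y1, z2, y2, e1, e2, e3, e4, hg06, hg16, hg26, hs, ht0, b4, b5, b6, b9, b10, b11, nn_c04, nn_c12, nn_c14, nn_g16, nn_c22, nn_c24, nn_g26]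
                      · linarith only [hx0, hx1, hx2, hG1, hG2, z0, y0, z1, y1, z2, y2, e1, e2, e3, e4, hg06, hg16, hg26, hs, ht0, b2, b4, b5, b6, b9, b10, b11, nn_c04, nn_c12, nn_g16, nn_c22, nn_c24, nn_g26]
                      · linarith only [hx0, hx1, hx2, hG1, hG2, z0, y0, z1, y1, z2, y2, e1, e2, e3, e4, hg06, hg16, hg26, hs, b1, b5, b6, b9, b10, b11, nn_c04, nn_c12, nn_c13, nn_g16, nn_c22, nn_c24, nn_g26]
                      · linarith only [hx0, hx1, hx2, hG1, hG2, z0, y0, z1, y1, z2, y2, e1, e2, e3, e4, hg06, hg16, hg26, hs, ht0, b2, b4, b5, b6, b9, b10, b11, nn_c04, nn_c12, nn_g16, nn_c22, nn_c24, nn_g26]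
                      · linarith only [hx0, hx1, hx2, hG1, hG2, z0, y0, z1, y1, z2, y2, e1, e2, e3, e4, hg06, hg16, hg26, hs, ht0, b1, b2, b5, b6, b7, b9, b10, b11, nn_c04, nn_g16, nn_c22, nn_c24, nn_g26]
              · have b8 := oF0_23 H
                rcases oL0_6_2 H with b9 | b9
                · linarith only [hx0, hx1, hx2, hG1, hG2, z0, y0, z1, y1, z2, y2, e1, e2, e3, e4, hg06, hh0, hg16, hg26, hs, ht1, hG0, b1, b5, b7, b9, nn_c02, nn_c04, nn_c14, nn_g16, nn_c22, nn_c24, nn_g26]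
                · linarith only [hx0, hx1, hx2, hG1, hG2, z0, y0, z1, y1, z2, y2, e1, e2, e3, e4, hg06, hg16, hg26, hs, ht0, ht1, b1, b4, b5, b6, b7, b8, b9, nn_c04, nn_c14, nn_g16, nn_g26]
          · linarith only [hx0, hx1, hx2, hG1, hG2, z0, y0, z1, y1, z2, y2, e1, e2, e3, e4, hg06, hg16, hg26, hs, ht2, hG0, b2, b3, b4, b5, nn_c04, nn_g06, nn_c14, nn_g16, nn_c24, nn_g26]
        · rcases oL0_346_2 H with b5 | b5
          · rcases oL2_26_3 H with b6 | b6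
            · linarith only [hx0, hx1, hx2, hG1, hG2, z0, y0, z1, y1, z2, y2, e1, e2, e3, e4, hg06, hg16, hg26, hs, hG0, b1, b2, b4, b5, b6, nn_c02, nn_g06, nn_g16, nn_c23, nn_c24, nn_g26]
            · linarith only [hx0, hx1, hx2, hG1, hG2, z0, y0, z1, y1, z2, y2, e1, e2, e3, e4, hg06, hg16, hg26, hs, ht1, hG0, b1, b2, b4, b5, b6, nn_c02, nn_c04, nn_g06, nn_c14, nn_g16, nn_c24, nn_g26]
          · rcases oL2_2_2 H with b6 | b6
            · rcases oR2_2 H with b7 | b7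
              · linarith only [hx0, hx1, hx2, hG1, hG2, z0, y0, z1, y1, z2, y2, e1, e2, e3, e4, hg06, hg16, hg26, hs, ht1, ht2, b1, b2, b4, b5, b6, b7, nn_c04, nn_g06, nn_c14, nn_g16, nn_c24, nn_g26]
              · linarith only [hx0, hx1, hx2, hG1, hG2, z0, y0, z1, y1, z2, y2, e1, e2, e3, e4, hg06, hg16, hg26, hs, b1, b2, b5, b6, b7, nn_c04, nn_g06, nn_c12, nn_c14, nn_g16, nn_c23, nn_c24, nn_g26]
            · linarith only [hx0, hx1, hx2, hG1, hG2, z0, y0, z1, y1, z2, y2, e1, e2, e3, e4, hg06, hg16, hg26, hs, ht0, hG0, b1, b2, b4, b5, b6, nn_c04, nn_g06, nn_c13, nn_c14, nn_g16, nn_c24, nn_g26]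
      · linarith only [hx0, hx1, hx2, hG1, hG2, z0, y0, z1, y1, z2, y2, e1, e2, e3, e4, hg06, hg16, hg26, hs, hG0, b1, b2, nn_c03, nn_c04, nn_g06, nn_c13, nn_c14, nn_g16, nn_c23, nn_c24, nn_g26]
    · linarith only [hx0, hx1, hx2, hG1, hG2, z0, y0, z1, y1, z2, y2, e1, e2, e3, e4, hm, hs, b1]
  · linarith only [hx0, hx1, hx2, hG1, hG2, z0, y0, z1, y1, z2, y2, e1, e2, e3, e4, hm, hs, b0]

theorem tNN5 {m : ℝ} {c g : Fin 3 → ℕ → ℝ} {x : Fin 3 → ℝ} (H : Hyp m c g x)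
    (z0 : c 0 5 = 0) (y0 : g 0 5 = 0) (z1 : c 1 5 = 0) (y1 : g 1 5 = 0) (hb2 : 1 / 10 + x 2 / 2 < c 2 5) : False := by
  have hx0 := H.hx 0
  have hx1 := H.hx 1
  have hx2 := H.hx 2
  have hG1 := H.G1
  rw [H.g1 1, H.g2 1, H.g3 1, H.g4 1] at hG1
  have hG2 := H.G2
  rw [H.g1 2, H.g2 2, H.g3 2, H.g4 2] at hG2
  have hg16 := H.g6 1
  have hg25 := H.g5 2
  have hg26 := H.g6 2
  have hh1 := H.h6 1
  have hs := H.hs
  have ht0 := H.ht 1 2 (by decide)
  have ht1 := H.ht 2 0 (by decide)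
  have ht2 := H.ht 0 1 (by decide)
  have nn_c11 := H.hc 1 1
  have nn_c12 := H.hc 1 2
  have nn_c13 := H.hc 1 3
  have nn_c14 := H.hc 1 4
  have nn_c16 := H.hc 1 6
  have nn_c21 := H.hc 2 1
  have nn_c22 := H.hc 2 2
  have nn_c23 := H.hc 2 3
  have nn_c24 := H.hc 2 4
  have nn_c26 := H.hc 2 6
  have nn_g16 := H.hg 1 6
  have nn_g26 := H.hg 2 6
  have b0 := oF1_54 H
  have b1 := oF1_53 H
  have b2 := oF2_24 H
  have b3 := oF0_45 H
  have b4 := oF1_52 H
  have b5 := oF0_35 H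
  rcases oC1_46 H with b6 | b6 | b6 | b6 | b6 | b6 | b6 | b6 | b6
  · rcases oC1_6 H with b7 | b7 | b7 | b7 | b7 | b7 | b7 | b7 | b7
    · linarith only [hx0, hx1, hx2, hG1, hG2, z0, y0, z1, y1, hh1, hs, b7, nn_c11, nn_c12, nn_c13, nn_c14]
    · linarith only [hx0, hx1, hx2, hG1, hG2, z0, y0, z1, y1, hg16, hh1, hg25, hg26, hb2, hs, ht0, b7, nn_c11, nn_c12, nn_c13, nn_c22, nn_c23, nn_c24, nn_g26]
    · linarith only [hx0, hx1, hx2, hG1, hG2, z0, y0, z1, y1, hg16, hg25, hg26, hb2, hs, ht0, b3, b6, b7, nn_c11, nn_c12, nn_c22, nn_c23, nn_c24, nn_g26]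
    · linarith only [hx0, hx1, hx2, hG1, hG2, z0, y0, z1, y1, hg16, hh1, hg25, hg26, hb2, hs, ht0, b7, nn_c11, nn_c12, nn_c13, nn_c22, nn_c23, nn_c24, nn_g26]
    · linarith only [hx0, hx1, hx2, hG1, hG2, z0, y0, z1, y1, hg16, hg25, hg26, hb2, hs, ht0, b3, b6, b7, nn_c11, nn_c12, nn_c22, nn_c23, nn_c24, nn_g26]
    · linarith only [hx0, hx1, hx2, hG1, hG2, z0, y0, z1, y1, hg16, hg25, hg26, hb2, hs, b3, b6, b7, nn_c11, nn_c12, nn_g16, nn_c22, nn_c23, nn_c24, nn_g26]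
    · linarith only [hx0, hx1, hx2, hG1, hG2, z0, y0, z1, y1, hg16, hg25, hg26, hb2, hs, ht2, b7, nn_c11, nn_c12, nn_c13, nn_g16, nn_c22, nn_c23, nn_c24, nn_g26]
    · linarith only [hx0, hx1, hx2, hG1, hG2, z0, y0, z1, y1, hg16, hg25, hg26, hb2, hs, b3, b6, b7, nn_c11, nn_c12, nn_g16, nn_c22, nn_c23, nn_c24, nn_g26]
    · linarith only [hx0, hx1, hx2, hG1, hG2, z0, y0, z1, y1, hg16, hg25, hg26, hb2, hs, ht1, b3, b6, b7, nn_c11, nn_c12, nn_c22, nn_c23, nn_c24, nn_g26]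
  · linarith only [hx0, hx1, hx2, hG1, hG2, z0, y0, z1, y1, hg16, hg25, hg26, hb2, hs, ht0, b3, b6, nn_c11, nn_c12, nn_c13, nn_c22, nn_c23, nn_c24, nn_g26]
  · linarith only [hx0, hx1, hx2, hG1, hG2, z0, y0, z1, y1, hg16, hg25, hg26, hb2, hs, ht0, b5, b6, nn_c11, nn_c14, nn_g16, nn_c22, nn_c23, nn_c24, nn_g26]
  · linarith only [hx0, hx1, hx2, hG1, hG2, z0, y0, z1, y1, hg16, hg25, hg26, hb2, hs, ht2, b3, b6, nn_c11, nn_c12, nn_c13, nn_c22, nn_c23, nn_c24, nn_g26]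
  · linarith only [hx0, hx1, hx2, hG1, hG2, z0, y0, z1, y1, hg16, hg25, hg26, hb2, hs, ht0, b5, b6, nn_c11, nn_c14, nn_g16, nn_c22, nn_c23, nn_c24, nn_g26]
  · linarith only [hx0, hx1, hx2, hG1, hG2, z0, y0, z1, y1, hg16, hg25, hg26, hb2, hs, ht0, b5, b6, nn_c11, nn_c14, nn_g16, nn_c22, nn_c23, nn_c24, nn_g26]
  · linarith only [hx0, hx1, hx2, hG1, hG2, z0, y0, z1, y1, hg16, hg25, hg26, hb2, hs, b6, nn_c11, nn_c12, nn_c14, nn_g16, nn_c22, nn_c23, nn_c24, nn_g26]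
  · linarith only [hx0, hx1, hx2, hG1, hG2, z0, y0, z1, y1, hg16, hg25, hg26, hb2, hs, ht0, b5, b6, nn_c11, nn_c14, nn_g16, nn_c22, nn_c23, nn_c24, nn_g26]
  · linarith only [hx0, hx1, hx2, hG1, hG2, z0, y0, z1, y1, hg25, hb2, hs, ht1, b5, b6, nn_c11, nn_c14, nn_c16, nn_c21, nn_c22, nn_c23, nn_c24, nn_c26, nn_g26]

theorem tN5N {m : ℝ} {c g : Fin 3 → ℕ → ℝ} {x : Fin 3 → ℝ} (H : Hyp m c g x)
    (z0 : c 0 5 = 0) (y0 : g 0 5 = 0) (hb1 : 1 / 10 + x 1 / 2 < c 1 5) (z2 : c 2 5 = 0) (y2 : g 2 5 = 0) : False := by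
  have hx0 := H.hx 0
  have hx1 := H.hx 1
  have hx2 := H.hx 2
  have hG1 := H.G1
  rw [H.g1 1, H.g2 1, H.g3 1, H.g4 1] at hG1
  have hG2 := H.G2
  rw [H.g1 2, H.g2 2, H.g3 2, H.g4 2] at hG2
  have hg15 := H.g5 1
  have hg16 := H.g6 1
  have hg26 := H.g6 2
  have hh2 := H.h6 2
  have hs := H.hs
  have ht0 := H.ht 1 2 (by decide)
  have ht1 := H.ht 2 0 (by decide)
  have ht2 := H.ht 0 1 (by decide)
  have nn_c11 := H.hc 1 1
  have nn_c12 := H.hc 1 2
  have nn_c13 := H.hc 1 3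
  have nn_c14 := H.hc 1 4
  have nn_c16 := H.hc 1 6
  have nn_c21 := H.hc 2 1
  have nn_c22 := H.hc 2 2
  have nn_c23 := H.hc 2 3
  have nn_c24 := H.hc 2 4
  have nn_c26 := H.hc 2 6
  have nn_g16 := H.hg 1 6
  have nn_g26 := H.hg 2 6
  have b0 := oF2_45 H
  have b1 := oF0_54 H
  rcases oL1_45_3 H with b2 | b2
  · have b3 := oF1_32 H
    have b4 := oF0_53 H
    rcases oC2_46 H with b5 | b5 | b5 | b5 | b5 | b5 | b5 | b5 | b5
    · rcases oC2_6 H with b6 | b6 | b6 | b6 | b6 | b6 | b6 | b6 | b6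
      · linarith only [hx0, hx1, hx2, hG1, hG2, z0, y0, z2, y2, hh2, hs, b6, nn_c21, nn_c22, nn_c23, nn_c24]
      · linarith only [hx0, hx1, hx2, hG1, hG2, z0, y0, z2, y2, hg15, hg16, hb1, hg26, hh2, hs, ht0, b6, nn_c12, nn_c13, nn_c14, nn_g16, nn_c21, nn_c22, nn_c23]
      · linarith only [hx0, hx1, hx2, hG1, hG2, z0, y0, z2, y2, hg15, hg16, hb1, hg26, hs, ht1, b6, nn_c12, nn_c13, nn_c14, nn_g16, nn_c21, nn_c22, nn_c23, nn_g26]
      · linarith only [hx0, hx1, hx2, hG1, hG2, z0, y0, z2, y2, hg15, hg16, hb1, hg26, hh2, hs, ht0, b6, nn_c12, nn_c13, nn_c14, nn_g16, nn_c21, nn_c22, nn_c23]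
      · linarith only [hx0, hx1, hx2, hG1, hG2, z0, y0, z2, y2, hg15, hg16, hb1, hg26, hs, ht0, b1, b5, b6, nn_c12, nn_c13, nn_c14, nn_g16, nn_c21, nn_c22]
      · linarith only [hx0, hx1, hx2, hG1, hG2, z0, y0, z2, y2, hg15, hg16, hb1, hg26, hs, b1, b5, b6, nn_c12, nn_c13, nn_c14, nn_g16, nn_c21, nn_c22, nn_g26]
      · linarith only [hx0, hx1, hx2, hG1, hG2, z0, y0, z2, y2, hg15, hg16, hb1, hg26, hs, ht0, b1, b5, b6, nn_c12, nn_c13, nn_c14, nn_g16, nn_c21, nn_c22]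
      · linarith only [hx0, hx1, hx2, hG1, hG2, z0, y0, z2, y2, hg15, hg16, hb1, hg26, hs, b1, b5, b6, nn_c12, nn_c13, nn_c14, nn_g16, nn_c21, nn_c22, nn_g26]
      · linarith only [hx0, hx1, hx2, hG1, hG2, z0, y0, z2, y2, hg15, hg16, hb1, hg26, hs, ht2, b1, b5, b6, nn_c12, nn_c13, nn_c14, nn_g16, nn_c21, nn_c22]
    · linarith only [hx0, hx1, hx2, hG1, hG2, z0, y0, z2, y2, hg15, hg16, hb1, hg26, hs, ht1, b1, b5, nn_c12, nn_c13, nn_c14, nn_g16, nn_c21, nn_c22, nn_c23]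
    · linarith only [hx0, hx1, hx2, hG1, hG2, z0, y0, z2, y2, hg15, hg16, hb1, hg26, hs, b5, nn_c12, nn_c13, nn_c14, nn_g16, nn_c21, nn_c22, nn_c24, nn_g26]
    · linarith only [hx0, hx1, hx2, hG1, hG2, z0, y0, z2, y2, hg15, hg16, hb1, hg26, hs, ht0, b1, b5, nn_c12, nn_c13, nn_c14, nn_g16, nn_c21, nn_c22, nn_c23]
    · linarith only [hx0, hx1, hx2, hG1, hG2, z0, y0, z2, y2, hg15, hg16, hb1, hg26, hs, ht0, b4, b5, nn_c12, nn_c13, nn_c14, nn_g16, nn_c21, nn_c24, nn_g26]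
    · linarith only [hx0, hx1, hx2, hG1, hG2, z0, y0, z2, y2, hg15, hg16, hb1, hg26, hs, ht0, b4, b5, nn_c12, nn_c13, nn_c14, nn_g16, nn_c21, nn_c24, nn_g26]
    · linarith only [hx0, hx1, hx2, hG1, hG2, z0, y0, z2, y2, hg15, hg16, hb1, hg26, hs, ht0, b4, b5, nn_c12, nn_c13, nn_c14, nn_g16, nn_c21, nn_c24, nn_g26]
    · linarith only [hx0, hx1, hx2, hG1, hG2, z0, y0, z2, y2, hg15, hg16, hb1, hg26, hs, ht0, b4, b5, nn_c12, nn_c13, nn_c14, nn_g16, nn_c21, nn_c24, nn_g26]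
    · linarith only [hx0, hx1, hx2, hG1, hG2, z0, y0, z2, y2, hg15, hb1, hs, ht2, b4, b5, nn_c11, nn_c12, nn_c13, nn_c14, nn_c16, nn_g16, nn_c21, nn_c24, nn_c26]
  · linarith only [hx0, hx1, hx2, hG1, hG2, z0, y0, z2, y2, hg15, hb1, hs, b2, nn_c11, nn_c12, nn_c13, nn_c14, nn_c16]

theorem tN55 {m : ℝ} {c g : Fin 3 → ℕ → ℝ} {x : Fin 3 → ℝ} (H : Hyp m c g x)
    (z0 : c 0 5 = 0) (y0 : g 0 5 = 0) (hb1 : 1 / 10 + x 1 / 2 < c 1 5) (hb2 : 1 / 10 + x 2 / 2 < c 2 5) : False := by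
  have hx0 := H.hx 0
  have hx1 := H.hx 1
  have hx2 := H.hx 2
  have hG1 := H.G1
  rw [H.g1 1, H.g2 1, H.g3 1, H.g4 1] at hG1
  have hG2 := H.G2
  rw [H.g1 2, H.g2 2, H.g3 2, H.g4 2] at hG2
  have hs := H.hs
  have ht1 := H.ht 2 0 (by decide)
  have ht2 := H.ht 0 1 (by decide)
  have b0 := oF0_55 H
  linarith only [hx0, hx1, hx2, hG1, hG2, z0, y0, hb1, hb2, hs, ht1, ht2, b0]

theorem t5NN {m : ℝ} {c g : Fin 3 → ℕ → ℝ} {x : Fin 3 → ℝ} (H : Hyp m c g x)
    (hb0 : 1 / 10 + x 0 / 2 < c 0 5) (z1 : c 1 5 = 0) (y1 : g 1 5 = 0) (z2 : c 2 5 = 0) (y2 : g 2 5 = 0) : False := by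
  have hx0 := H.hx 0
  have hx1 := H.hx 1
  have hx2 := H.hx 2
  have hG1 := H.G1
  rw [H.g1 1, H.g2 1, H.g3 1, H.g4 1] at hG1
  have hG2 := H.G2
  rw [H.g1 2, H.g2 2, H.g3 2, H.g4 2] at hG2
  have hG0 := H.G0
  rw [H.g1 0, H.g2 0, H.g3 0, H.g4 0] at hG0
  have hg05 := H.g5 0
  have hg06 := H.g6 0
  have hg26 := H.g6 2
  have hh2 := H.h6 2
  have hs := H.hs
  have ht0 := H.ht 1 2 (by decide)
  have ht1 := H.ht 2 0 (by decide)
  have ht2 := H.ht 0 1 (by decide)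
  have nn_c01 := H.hc 0 1
  have nn_c02 := H.hc 0 2
  have nn_c03 := H.hc 0 3
  have nn_c04 := H.hc 0 4
  have nn_c06 := H.hc 0 6
  have nn_c11 := H.hc 1 1
  have nn_c13 := H.hc 1 3
  have nn_c14 := H.hc 1 4
  have nn_c21 := H.hc 2 1
  have nn_c22 := H.hc 2 2
  have nn_c23 := H.hc 2 3
  have nn_c24 := H.hc 2 4
  have nn_c26 := H.hc 2 6
  have nn_g06 := H.hg 0 6
  have nn_g16 := H.hg 1 6
  have nn_g26 := H.hg 2 6
  have b0 := oF2_54 H
  have b1 := oF0_34 H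
  rcases oL1_346_4 H with b2 | b2
  · have b3 := oF1_35 H
    rcases oC2_46 H with b4 | b4 | b4 | b4 | b4 | b4 | b4 | b4 | b4
    · have b5 := oF1_45 H
      rcases oC2_6 H with b6 | b6 | b6 | b6 | b6 | b6 | b6 | b6 | b6
      · linarith only [hx0, hx1, hx2, hG1, hG2, z1, y1, z2, y2, hh2, hs, b6, nn_c21, nn_c22, nn_c23, nn_c24]
      · linarith only [hx0, hx1, hx2, hG1, hG2, z1, y1, z2, y2, hg05, hg06, hb0, hg26, hh2, hs, ht1, hG0, b6, nn_c02, nn_c03, nn_c04, nn_g06, nn_c21, nn_c22, nn_c23]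
      · linarith only [hx0, hx1, hx2, hG1, hG2, z1, y1, z2, y2, hg05, hg06, hb0, hg26, hs, ht1, hG0, b4, b5, b6, nn_c02, nn_c03, nn_c04, nn_g06, nn_c21, nn_c22]
      · linarith only [hx0, hx1, hx2, hG1, hG2, z1, y1, z2, y2, hg05, hg06, hb0, hg26, hh2, hs, ht1, hG0, b6, nn_c02, nn_c03, nn_c04, nn_g06, nn_c21, nn_c22, nn_c23]
      · linarith only [hx0, hx1, hx2, hG1, hG2, z1, y1, z2, y2, hg05, hg06, hb0, hg26, hs, ht1, hG0, b4, b5, b6, nn_c02, nn_c03, nn_c04, nn_g06, nn_c21, nn_c22]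
      · linarith only [hx0, hx1, hx2, hG1, hG2, z1, y1, z2, y2, hg05, hg06, hb0, hg26, hs, hG0, b4, b5, b6, nn_c02, nn_c03, nn_c04, nn_g06, nn_c21, nn_c22, nn_g26]
      · linarith only [hx0, hx1, hx2, hG1, hG2, z1, y1, z2, y2, hg05, hg06, hb0, hg26, hs, ht0, hG0, b6, nn_c02, nn_c03, nn_c04, nn_g06, nn_c21, nn_c22, nn_c23, nn_g26]
      · linarith only [hx0, hx1, hx2, hG1, hG2, z1, y1, z2, y2, hg05, hg06, hb0, hg26, hs, hG0, b4, b5, b6, nn_c02, nn_c03, nn_c04, nn_g06, nn_c21, nn_c22, nn_g26]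
      · linarith only [hx0, hx1, hx2, hG1, hG2, z1, y1, z2, y2, hg05, hg06, hb0, hg26, hs, ht2, hG0, b4, b5, b6, nn_c02, nn_c03, nn_c04, nn_g06, nn_c21, nn_c22]
    · linarith only [hx0, hx1, hx2, hG1, hG2, z1, y1, z2, y2, hg05, hg06, hb0, hg26, hs, ht1, hG0, b4, nn_c02, nn_c03, nn_c04, nn_g06, nn_c21, nn_c22, nn_c23, nn_g26]
    · linarith only [hx0, hx1, hx2, hG1, hG2, z1, y1, z2, y2, hg05, hg06, hb0, hg26, hs, ht1, hG0, b3, b4, nn_c02, nn_c03, nn_c04, nn_g06, nn_c21, nn_c24, nn_g26]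
    · linarith only [hx0, hx1, hx2, hG1, hG2, z1, y1, z2, y2, hg05, hg06, hb0, hg26, hs, ht0, hG0, b4, nn_c02, nn_c03, nn_c04, nn_g06, nn_c21, nn_c22, nn_c23, nn_g26]
    · linarith only [hx0, hx1, hx2, hG1, hG2, z1, y1, z2, y2, hg05, hg06, hb0, hg26, hs, ht1, hG0, b3, b4, nn_c02, nn_c03, nn_c04, nn_g06, nn_c21, nn_c24, nn_g26]
    · linarith only [hx0, hx1, hx2, hG1, hG2, z1, y1, z2, y2, hg05, hg06, hb0, hg26, hs, ht1, hG0, b3, b4, nn_c02, nn_c03, nn_c04, nn_g06, nn_c21, nn_c24, nn_g26]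
    · linarith only [hx0, hx1, hx2, hG1, hG2, z1, y1, z2, y2, hg05, hg06, hb0, hg26, hs, hG0, b4, nn_c02, nn_c03, nn_c04, nn_g06, nn_c21, nn_c22, nn_c24, nn_g26]
    · linarith only [hx0, hx1, hx2, hG1, hG2, z1, y1, z2, y2, hg05, hg06, hb0, hg26, hs, ht1, hG0, b3, b4, nn_c02, nn_c03, nn_c04, nn_g06, nn_c21, nn_c24, nn_g26]
    · linarith only [hx0, hx1, hx2, hG1, hG2, z1, y1, z2, y2, hg05, hb0, hs, ht2, hG0, b3, b4, nn_c01, nn_c02, nn_c03, nn_c04, nn_c06, nn_g06, nn_c21, nn_c24, nn_c26]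
  · linarith only [hx0, hx1, hx2, hG1, hG2, z1, y1, z2, y2, hg05, hb0, hs, hG0, b2, nn_c01, nn_c02, nn_c03, nn_c04, nn_c06, nn_g06, nn_c11, nn_c13, nn_c14, nn_g16]

theorem t5N5 {m : ℝ} {c g : Fin 3 → ℕ → ℝ} {x : Fin 3 → ℝ} (H : Hyp m c g x)
    (hb0 : 1 / 10 + x 0 / 2 < c 0 5) (z1 : c 1 5 = 0) (y1 : g 1 5 = 0) (hb2 : 1 / 10 + x 2 / 2 < c 2 5) : False := by
  have hx0 := H.hx 0
  have hx1 := H.hx 1
  have hx2 := H.hx 2
  have hG1 := H.G1
  rw [H.g1 1, H.g2 1, H.g3 1, H.g4 1] at hG1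
  have hG2 := H.G2
  rw [H.g1 2, H.g2 2, H.g3 2, H.g4 2] at hG2
  have hs := H.hs
  have ht0 := H.ht 1 2 (by decide)
  have ht2 := H.ht 0 1 (by decide)
  have b0 := oF1_55 H
  linarith only [hx0, hx1, hx2, hG1, hG2, z1, y1, hb0, hb2, hs, ht0, ht2, b0]

theorem t55N {m : ℝ} {c g : Fin 3 → ℕ → ℝ} {x : Fin 3 → ℝ} (H : Hyp m c g x)
    (hb0 : 1 / 10 + x 0 / 2 < c 0 5) (hb1 : 1 / 10 + x 1 / 2 < c 1 5) (z2 : c 2 5 = 0) (y2 : g 2 5 = 0) : False := by
  have hx0 := H.hx 0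
  have hx1 := H.hx 1
  have hx2 := H.hx 2
  have hG1 := H.G1
  rw [H.g1 1, H.g2 1, H.g3 1, H.g4 1] at hG1
  have hG2 := H.G2
  rw [H.g1 2, H.g2 2, H.g3 2, H.g4 2] at hG2
  have hs := H.hs
  have ht0 := H.ht 1 2 (by decide)
  have ht1 := H.ht 2 0 (by decide)
  have b0 := oF2_55 H
  linarith only [hx0, hx1, hx2, hG1, hG2, z2, y2, hb0, hb1, hs, ht0, ht1, b0]

theorem t555 {m : ℝ} {c g : Fin 3 → ℕ → ℝ} {x : Fin 3 → ℝ} (H : Hyp m c g x)
    (hb0 : 1 / 10 + x 0 / 2 < c 0 5) (hb1 : 1 / 10 + x 1 / 2 < c 1 5) (hb2 : 1 / 10 + x 2 / 2 < c 2 5) : False := by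
  have hx0 := H.hx 0
  have hx1 := H.hx 1
  have hx2 := H.hx 2
  have hG1 := H.G1
  rw [H.g1 1, H.g2 1, H.g3 1, H.g4 1] at hG1
  have hG2 := H.G2
  rw [H.g1 2, H.g2 2, H.g3 2, H.g4 2] at hG2
  have hs := H.hs
  have nn_c01 := H.hc 0 1
  have nn_c02 := H.hc 0 2
  have nn_c03 := H.hc 0 3
  have nn_c04 := H.hc 0 4
  have nn_c06 := H.hc 0 6
  have b0 := oF0_55 H
  linarith only [hx0, hx1, hx2, hG1, hG2, hb0, hb1, hb2, hs, b0, nn_c01, nn_c02, nn_c03, nn_c04, nn_c06]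

theorem main {m : ℝ} {c g : Fin 3 → ℕ → ℝ} {x : Fin 3 → ℝ} (H : Hyp m c g x)
    (h5 : ∀ l, (c l 5 = 0 ∧ g l 5 = 0) ∨ 1 / 10 + x l / 2 < c l 5) : False := by
  rcases h5 0 with ⟨z0, y0⟩ | h0 <;> rcases h5 1 with ⟨z1, y1⟩ | h1 <;>
    rcases h5 2 with ⟨z2, y2⟩ | h2
  · exact tNNN H z0 y0 z1 y1 z2 y2
  · exact tNN5 H z0 y0 z1 y1 h2
  · exact tN5N H z0 y0 h1 z2 y2
  · exact tN55 H z0 y0 h1 h2
  · exact t5NN H h0 z1 y1 z2 y2
  · exact t5N5 H h0 z1 y1 h2
  · exact t55N H h0 h1 z2 y2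
  · exact t555 H h0 h1 h2

end Pool.LDV.LPM10

namespace Pool.LDV

theorem lpm_thm : S_LPM := by
  intro m c g x hc hg hx hlab h5 hs ht hm G1 G2 G0 C L F R
  exact LPM10.main ⟨hc, hg, hx, fun l => (hlab l).1, fun l => (hlab l).2.1,
    fun l => (hlab l).2.2.1, fun l => (hlab l).2.2.2.1, fun l => (hlab l).2.2.2.2.1,
    fun l => (hlab l).2.2.2.2.2.1, fun l => (hlab l).2.2.2.2.2.2, hs, ht, hm, G1, G2, G0,
    C, L, F, R⟩ h5

end Pool.LDV
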