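import Pool.Agent.H10.BL.All
import Pool.Agent.H10.LDV.LPM
import Pool.Agent.H14.LDV.LPK
import Pool.Agent.H18.LDV.LTL
import Pool.Agent.H22.LDV.LDR
import Pool.Agent.H25.LDV.LDH
import Pool.Agent.H31.LDV.CHS
import Pool.Agent.H36.LDV.RTL
import Pool.Agent.H42.LDV.LOW
import Pool.Agent.H44.LDV.CHM
import Pool.Agent.H50.LDV.LDW
import Pool.Agent.H65.LDV.LDC
import Pool.Agent.H67.LDV.CHL
import Pool.Agent.H70.LDV.RN3

/-! # LDV: assembly -/

set_option autoImplicit false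

namespace Pool.LDV

open Pool.BL

theorem all_RTL : S_RTL := rtl_thm lay_thm Pool.RIC.all_CNT

theorem all_CHS : S_CHS := chs_thm (chm_thm sub_thm lpk_thm lpm_thm) chl_thm

theorem all_LTL : S_LTL :=
  ltl_thm lay_thm Pool.RIC.all_CNT Pool.MED.rts_thm Pool.FEX.omb_thm

theorem all_LDC : S_LDC :=
  ldc_thm lay_thm all_TTL all_FTL all_CTL rn3_thm all_LTL all_RTL all_CHS

theorem all_LDW : S_LDW := ldw_thm all_LDC

/-- `#{R ≤ X, c ≥ R ^ θ} ≤ C X ^ (max (1 - θ) (3 / 5) + ε)`, polynomial heights -/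
theorem all_LDR : S_LDR := ldr_thm all_LDW

theorem all_LDH : S_LDH := ldh_thm all_LDW

theorem all_LOW : S_LOW := low_thm

end Pool.LDV
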