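import Pool.Agent.H10.BL.Stmts

/-!
# LDV: large deviations of the height among the triples of radical `≤ X`

`#{a + b = c coprime, rad (a b c) ≤ X, c ≥ X ^ θ} = X ^ (1 - θ + o(1))` for `1 / 3 ≤ θ ≤ 2 / 5`, and
`≤ C X ^ (3 / 5 + ε)` for `θ ≥ 2 / 5`.  Proofs in words: the docstrings.  All exponents are to the
base `X`.  Row `XXX` is a theorem `xxx_thm (h1 : S_AAA) ... : S_XXX` in
`Pool/Agent/H<k>/LDV/XXX.lean` (import this file, namespace `Pool.LDV`).  Notation: layers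
`lay (coord v l) e ≤ X ^ (p l e)`, `x_l = ∑_e p l e`, `t l` = gain of the part with exponents `> J`.
-/

set_option autoImplicit false

namespace Pool.LDV

open Finset Pool.Agent.H98.ABCR Pool.SHA Pool.BL

/-- the bound for the energy of numbers of radical `X ^ x` modulo a modulus of size `X ^ g` -/
noncomputable def Phi3 (x g : ℝ) : ℝ := max x (max ((5 * x - g) / 3) (2 * x - g))

/-- RN3: ROUNDING LEMMA, layer by layer.  As in `Pool.BL.S_RND` drop the `e` with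
`p e < η / (J + 1)` (loss `≤ η`); `x` = sum of the others; `x = 0` or `g = 0`: `w = 0`.  If some
`p e ≥ g`: `w e 1 = 1`, value `g`.  Otherwise let `y = x / g` and for each `e`: `k = ⌊g / p e⌋ ≥ 1`,
`P = p e / g ∈ (0, 1]` (`k P ≤ 1 < (k + 1) P`).  (A) `w e k = 1 / k`: budget `1 / k ≤ 2 P`, value `p e`
(`∑_s s w = 1`).  (C) `w e (k + 1) = P / 2`: budget `P / 2`, value `g P / 2 = p e / 2`
(`(k + 1) P / 2 ≤ 1`).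
* `y ≤ 1 / 2`: (A) for all `e`: budget `≤ 2 y ≤ 1`, value `x`.
* `1 / 2 ≤ y ≤ 2`: the convex combination `α` (A) + `(1 - α)` (C) with `α = (2 / y - 1) / 3 ∈ [0, 1]`:
  budget `≤ y (2 α + (1 - α) / 2) = 1`, value `x (1 + α) / 2 = (x + g) / 3`.
* `y ≥ 2`: (C) multiplied by `2 / y`: budget `1`, value `g`.
The orders are `≤ g / p e + 1`; for `g > 2 x` use `g = 2 x` instead (value `x`), so `k + 1 ≤ 2 x / p e + 1`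
is bounded by `S` in terms of `J`, `η` (`x ≤ 2 J`). -/
def S_RN3 : Prop := ∀ (J : ℕ) (η : ℝ), 0 < η → ∃ S : ℕ, ∀ (p : ℕ → ℝ) (g : ℝ),
  (∀ e, 0 ≤ p e ∧ p e ≤ 2) → 0 ≤ g →
  VB J S p g (min (∑ e ∈ Icc 1 J, p e) (min (((∑ e ∈ Icc 1 J, p e) + g) / 3) g) - η)

/-- LTL: RATIO LATTICE.  Fix `q = kp J K (coord v i) ≥ X ^ g` (at most `C X ^ (ε / 4 + τ + ∑_K p i)`
values, `Pool.RIC.S_CNT`, `Pool.BL.S_LAY`) and the cofactors `B = kp J ((Icc 1 J).erase e) (coord v j)`,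
`B'` (for `k`): `coord v j = B u ^ e`, `coord v k = B' w ^ e`, `gcd (u, w) = 1`, all prime to `q`.
`B u ^ e ≡ ± B' w ^ e` modulo `q`: all the ratios `u / w` modulo `q` have the same `e`-th power, so they
lie in at most `(2 e) ^ ω(q) ≤ C X ^ (ε / 4)` classes (`Pool.MED.S_RTS`, or `S_RTN` with `N = q`).
One class `λ`: `u ≡ λ w` modulo `q`, `u ≤ U = X ^ (p j e)`, `w ≤ W = X ^ (p k e)`, coprime pairs: at most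
`2 + 4 U W / q`.  (Order the pairs by the slope `u / w`: two different coprime pairs have
`u w' ≠ u' w`, `q ∣ u w' - u' w`; for consecutive slopes `u / w < u' / w'` the triangles `0, (w,u), (w',u')`
have area `≥ q / 2` and are disjoint in the box of area `U W`; or: split the box dyadically.)
Factors `X ^ ε` are allowed: for a dyadic box `(U', 2 U'] × (W', 2 W']` the differences
`u w' - u' w` are multiples of `q` in `(- 4 U' W', 4 U' W')`, for a fixed `(u', w')` of the class each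
value is taken by the points of one line parallel to `(w', u')`, and on one line the coprime pairs
`(w, u) = (w0, u0) + h (w', u')` in the dyadic box have `|h| ≤ 2`.) -/
def S_LTL : Prop := ∀ (J : ℕ) (κ ε : ℝ), 1 ≤ κ → 0 < ε → ∃ C : ℝ, 1 ≤ C ∧
  ∀ (X τ g : ℝ) (F : Finset (ℕ × ℕ)) (i j k : Fin 3) (K : Finset ℕ) (e : ℕ)
    (p : Fin 3 → ℕ → ℝ),
  1 ≤ X → 0 ≤ τ → 0 ≤ g → i ≠ j → i ≠ k → j ≠ k → K ⊆ Icc 1 J → e ∈ Icc 1 J →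
  (∀ l e, 0 ≤ p l e ∧ p l e ≤ 2) →
  (∀ v ∈ F, IsTri v ∧ hh v ≤ κ * Real.log X ∧ (∀ l, Prof J X τ (p l) (coord v l)) ∧
    X ^ g ≤ (kp J K (coord v i) : ℝ)) →
  (F.card : ℝ) ≤ C * X ^ (ε + 4 * τ + ∑ n ∈ K, p i n + (∑ n ∈ Icc 1 J, p j n - p j e) +
    (∑ n ∈ Icc 1 J, p k n - p k e) + max 0 (p j e + p k e - g))

/-- RTL: REAL PLACE.  `a ∈ {0, 1}`, `k, l` the other two indices (in some order), so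
`|coord v l - coord v k| = coord v a ≤ X ^ (-d) coord v k`.  Fix `n = coord v k` (at most
`C X ^ (ε / 4 + τ + x_k)`, `Pool.RIC.S_CNT`) and the cofactor `B` of the layer `e` of `coord v l = B w ^ e`
(`C X ^ (ε / 4 + τ + x_l - p l e)`).  For given `n`, `B` the `w ≤ X ^ (p l e)` lie in an interval
`w ^ e ∈ [(1 - δ) n / B, (1 + δ) n / B]`, `δ = X ^ (-d)`.  `δ ≥ 1 / 2`: at most `X ^ (p l e) ≤ 2 X ^ (p l e - d)`.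
`δ < 1 / 2`: `w_max / w_min ≤ (1 + δ) / (1 - δ) ≤ 1 + 4 δ`: at most `1 + 4 X ^ (p l e - d)`. -/
def S_RTL : Prop := ∀ (J : ℕ) (κ ε : ℝ), 1 ≤ κ → 0 < ε → ∃ C : ℝ, 1 ≤ C ∧
  ∀ (X τ d : ℝ) (F : Finset (ℕ × ℕ)) (a k l : Fin 3) (e : ℕ) (p : Fin 3 → ℕ → ℝ),
  1 ≤ X → 0 ≤ τ → 0 ≤ d → a ≠ 2 → a ≠ k → a ≠ l → k ≠ l → e ∈ Icc 1 J →
  (∀ l e, 0 ≤ p l e ∧ p l e ≤ 2) →
  (∀ v ∈ F, IsTri v ∧ hh v ≤ κ * Real.log X ∧ (∀ l, Prof J X τ (p l) (coord v l)) ∧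
    (coord v a : ℝ) * X ^ d ≤ coord v k) →
  (F.card : ℝ) ≤ C * X ^ (ε + 4 * τ + ∑ n ∈ Icc 1 J, p k n +
    (∑ n ∈ Icc 1 J, p l n - p l e) + max 0 (p l e - d))

/-! ## The choice of the tool -/

/-- one of the five tools gives the exponent `T` (`m` = exponent of the height, `a` = index of the
smallest coordinate) -/
def Alt (J : ℕ) (T m : ℝ) (p : Fin 3 → ℕ → ℝ) (t : Fin 3 → ℝ) (a : Fin 3) : Prop :=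
  (∃ j k, j ≠ k ∧ ∑ e ∈ Icc 1 J, p j e + ∑ e ∈ Icc 1 J, p k e ≤ T) ∨
  (∃ (i j k : Fin 3) (e f : ℕ), i ≠ j ∧ i ≠ k ∧ j ≠ k ∧ e ∈ Icc 2 J ∧ f ∈ Icc 2 J ∧
    (∑ n ∈ Icc 1 J, p i n) / 2 + (∑ n ∈ Icc 1 J, p j n - p j e / 2) +
      (∑ n ∈ Icc 1 J, p k n - p k f / 2) ≤ T) ∨
  (∃ (i j k : Fin 3) (K : Finset ℕ), i ≠ j ∧ i ≠ k ∧ j ≠ k ∧ K ⊆ Icc 1 J ∧
    ∑ e ∈ K, p i e + (Phi3 (∑ e ∈ Icc 1 J, p j e) (t i + ∑ e ∈ K, (e : ℝ) * p i e) +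
      Phi3 (∑ e ∈ Icc 1 J, p k e) (t i + ∑ e ∈ K, (e : ℝ) * p i e)) / 2 ≤ T) ∨
  (∃ (i j k : Fin 3) (K : Finset ℕ) (e : ℕ), i ≠ j ∧ i ≠ k ∧ j ≠ k ∧ K ⊆ Icc 1 J ∧
    e ∈ Icc 1 J ∧ ∑ n ∈ K, p i n + (∑ n ∈ Icc 1 J, p j n - p j e) +
      (∑ n ∈ Icc 1 J, p k n - p k e) +
      max 0 (p j e + p k e - (t i + ∑ n ∈ K, (n : ℝ) * p i n)) ≤ T) ∨
  (∃ (k l : Fin 3) (e : ℕ), a ≠ k ∧ a ≠ l ∧ k ≠ l ∧ e ∈ Icc 1 J ∧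
    ∑ n ∈ Icc 1 J, p k n + ∑ n ∈ Icc 1 J, p l n -
      min (p l e) (m - (t a + ∑ n ∈ Icc 1 J, (n : ℝ) * p a n)) ≤ T)

/-- LPM: LINEAR PROGRAMME (Lean proof generated by machine, helper10).  Labels `1, .., 4` = layers,
`5` = a big layer of exponent `≥ 5` (or nothing), `6` = the other exponents `≥ 5`. -/
def S_LPM : Prop := ∀ (m : ℝ) (c g : Fin 3 → ℕ → ℝ) (x : Fin 3 → ℝ),
  (∀ l n, 0 ≤ c l n) → (∀ l n, 0 ≤ g l n) →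
  (∀ l, x l = c l 1 + c l 2 + c l 3 + c l 4 + c l 5 + c l 6) →
  (∀ l, g l 1 = c l 1 ∧ g l 2 = 2 * c l 2 ∧ g l 3 = 3 * c l 3 ∧ g l 4 = 4 * c l 4 ∧
    5 * c l 5 ≤ g l 5 ∧ 5 * c l 6 ≤ g l 6 ∧ c l 6 ≤ 1 / 10) →
  (∀ l, (c l 5 = 0 ∧ g l 5 = 0) ∨ 1 / 10 + x l / 2 < c l 5) →
  x 0 + x 1 + x 2 ≤ 1 → (∀ j k, j ≠ k → 3 / 5 < x j + x k) → 2 / 5 ≤ m →
  g 1 1 + g 1 2 + g 1 3 + g 1 4 + g 1 5 + g 1 6 = m →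
  g 2 1 + g 2 2 + g 2 3 + g 2 4 + g 2 5 + g 2 6 = m →
  g 0 1 + g 0 2 + g 0 3 + g 0 4 + g 0 5 + g 0 6 ≤ m →
  (∀ (i j k : Fin 3) (K : Finset ℕ), i ≠ j → i ≠ k → j ≠ k → K ⊆ Icc 2 6 →
    3 / 5 < ∑ n ∈ K, c i n +
      (Phi3 (x j) (∑ n ∈ K, g i n) + Phi3 (x k) (∑ n ∈ K, g i n)) / 2) →
  (∀ (i j k : Fin 3) (K : Finset ℕ) (e : ℕ), i ≠ j → i ≠ k → j ≠ k → K ⊆ Icc 2 6 →
    e ∈ Icc 1 4 → 3 / 5 < ∑ n ∈ K, c i n + (x j - c j e) + (x k - c k e) +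
      max 0 (c j e + c k e - ∑ n ∈ K, g i n)) →
  (∀ (i j k : Fin 3) (e f : ℕ), i ≠ j → i ≠ k → j ≠ k → e ∈ Icc 2 5 → f ∈ Icc 2 5 →
    3 / 5 < x i / 2 + (x j - c j e / 2) + (x k - c k f / 2)) →
  (∀ (l : Fin 3) (e : ℕ), l ≠ 0 → e ∈ Icc 1 5 →
    3 / 5 < x 1 + x 2 - min (c l e) (m - (g 0 1 + g 0 2 + g 0 3 + g 0 4 + g 0 5 + g 0 6))) →
  False

/-- LPK: linear programme for a set of exponents `≥ 5` (split the two `Phi3`, `linarith`) -/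
def S_LPK : Prop := ∀ x xj xk k g : ℝ, 0 ≤ x → 0 ≤ xj → 0 ≤ xk → x + xj + xk ≤ 1 →
  3 / 5 < x + xj → 3 / 5 < x + xk → 3 / 5 < xj + xk → 1 / 10 ≤ k → k ≤ 1 / 10 + x / 2 →
  5 * k ≤ g → k + (Phi3 xj g + Phi3 xk g) / 2 ≤ 3 / 5

/-- CHM: CHOICE LEMMA, `m ≥ 2 / 5`, `T = 3 / 5`.  `x_l` = the costs; assume the first alternative fails
(so `1 / 5 < x_l < 2 / 5`); `ρ_l = 1 / 10 + x_l / 2 ≥ 1 / 5`.  `H_l = Icc 5 J`.  If a subset `K` of `H_l` has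
cost in `[1 / 10, ρ_l]`: third alternative by `S_LPK` (`g = t l + ∑_K e p ≥ 5 k`).  Otherwise, by
`Pool.BL.S_SUB` (`θ = 1 / 10`) applied to the elements of `H_l` of cost `≤ ρ_l`, these have total cost
`< 1 / 10`, and at most one element `e0` has cost `> ρ_l > x_l / 2`.  Labels: `c l n = p l n`
(`n ≤ 4`), `c l 5 = p l e0` (or `0`), `c l 6` = the cost of the rest of `H_l`, `g l 6 = t l + ∑ e p` over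
the rest.  If all alternatives fail, all hypotheses of `S_LPM` hold (`a = 0`; in general permute the
indices: `σ 0 = a`); `Phi3` and `max 0 (p - g)` decrease in `g`, so `t` may be dropped when `6 ∉ K`. -/
def S_CHM : Prop := ∀ (J : ℕ) (m : ℝ) (p : Fin 3 → ℕ → ℝ) (t : Fin 3 → ℝ) (a : Fin 3), 5 ≤ J →
  2 / 5 ≤ m → (∀ l e, 0 ≤ p l e) → (∀ l, 0 ≤ t l) → ∑ l, ∑ e ∈ Icc 1 J, p l e ≤ 1 →
  (∀ i, i ≠ a → t i + ∑ e ∈ Icc 1 J, (e : ℝ) * p i e = m) →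
  t a + ∑ e ∈ Icc 1 J, (e : ℝ) * p a e ≤ m → Alt J (3 / 5) m p t a

/-- CHL: CHOICE LEMMA, `1 / 3 ≤ m ≤ 5 / 12`, `T = 1 - m`.  Assume the first alternative fails: all
`x_j + x_k > 1 - m`, so `X0 = x_0 + x_1 + x_2 > 3 (1 - m) / 2`.  Fourth alternative with `i ≠ a`,
`K = Icc 2 J`, `e = 1`: `t i + ∑_K n p = m - p i 1`, so the value is
`X0 - s + max 0 (s - m)`, `s = p 0 1 + p 1 1 + p 2 1`.  If `s ≥ m` this is `X0 - m ≤ 1 - m`.  If `s < m` it is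
`X0 - s`, and `2 x_l - p l 1 ≤ t l + ∑ n p l n ≤ m` for all `l` gives `s ≥ 2 X0 - 3 m`:
`X0 - s ≤ 3 m - X0 ≤ 3 m - 3 (1 - m) / 2 = 9 m / 2 - 3 / 2 ≤ 1 - m` as `m ≤ 5 / 11`. -/
def S_CHL : Prop := ∀ (J : ℕ) (m : ℝ) (p : Fin 3 → ℕ → ℝ) (t : Fin 3 → ℝ) (a : Fin 3), 5 ≤ J →
  1 / 3 ≤ m → m ≤ 5 / 12 → (∀ l e, 0 ≤ p l e) → (∀ l, 0 ≤ t l) →
  ∑ l, ∑ e ∈ Icc 1 J, p l e ≤ 1 →
  (∀ i, i ≠ a → t i + ∑ e ∈ Icc 1 J, (e : ℝ) * p i e = m) →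
  t a + ∑ e ∈ Icc 1 J, (e : ℝ) * p a e ≤ m → Alt J (1 - m) m p t a

/-- CHS: choice lemma with slack.  `G_l = t l + ∑ e p l e`.  `p' = p / (1 + η)`, `G'_l = G_l / (1 + η)`,
`m' = max m (max_l G'_l) ∈ [m, m + η]`, `t' i = t i / (1 + η) + (m' - G'_i)` for `i ≠ a` (the added term
is `≤ (κ + 2) η`), `t' a = t a / (1 + η)`.  `m ≤ 2 / 5`: `S_CHL` for `m' ≤ 5 / 12` and `1 - m' ≤ 1 - m`;
`m ≥ 2 / 5`: `S_CHM`.  Multiply by `1 + η`: everything is homogeneous, `Phi3 x g ≤ Phi3 x (g + y) + y`,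
`max 0 (u - g) ≤ max 0 (u - g - y) + y`, `min u (D + y) ≤ min u D + y` (`y ≥ 0`). -/
def S_CHS : Prop := ∀ (J : ℕ) (κ m η : ℝ) (p : Fin 3 → ℕ → ℝ) (t : Fin 3 → ℝ) (a : Fin 3),
  5 ≤ J → 1 ≤ κ → 1 / 3 ≤ m → m ≤ κ → 0 ≤ η → η ≤ 1 / 100 →
  (∀ l e, 0 ≤ p l e) → (∀ l, 0 ≤ t l) → ∑ l, ∑ e ∈ Icc 1 J, p l e ≤ 1 + η →
  (∀ i, i ≠ a → m - η ≤ t i + ∑ e ∈ Icc 1 J, (e : ℝ) * p i e ∧
    t i + ∑ e ∈ Icc 1 J, (e : ℝ) * p i e ≤ m + η) →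
  t a + ∑ e ∈ Icc 1 J, (e : ℝ) * p a e ≤ m + η →
  Alt J (max (1 - m) (3 / 5) + 20 * (κ + 1) * η) m p t a

/-! ## Assembly -/

/-- LDC: one window of the height and one index `a` of the smallest coordinate (model:
`H65/BL/CLW.lean`).  `η = min (ε / (200 (κ + 1))) (1 / 100)`, `J = ⌈2 κ / η⌉ + 5`,
`δ0 = η / (4 J ^ 2)`, window width `δ = η / 4`.  Classes as in `Pool.BL.S_CLW` (step `δ0`): `p l e`, `t l`;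
`Prof` with `τ = (κ + 1) / J ≤ η`; `∑ p ≤ 1 + 3 J δ0 ≤ 1 + η`; `G_l = t l + ∑ e p l e` is in
`[log_X (coord v l) - δ0, log_X (coord v l) + J ^ 2 δ0]`; for `i ≠ a`, `coord v i ≥ c / 2`, so
`|G_i - m| ≤ η` (`X ≥ X0`, smaller `X`: at most `X0 ^ (2 κ + 2)` pairs), `G_a ≤ m + η`.
`S_CHS`; then `S_TTL`, `S_FTL`, `S_CTL` + `S_RN3` (`g = max 0 (t i + ∑_K e p - η)`,
`2 x - V ≤ Phi3 x g + η`, `Phi3 x (g - η) ≤ Phi3 x g + η`), `S_LTL` (same `g`), `S_RTL`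
(`d = max 0 (m - G_a - 2 η)`: `coord v a ≤ X ^ (G_a + δ0)`, `coord v k ≥ X ^ m / 2`). -/
def S_LDC : Prop := ∀ κ ε : ℝ, 1 ≤ κ → 0 < ε → ∃ δ C : ℝ, 0 < δ ∧ 1 ≤ C ∧
  ∀ (X m : ℝ) (F : Finset (ℕ × ℕ)) (a : Fin 3), 1 ≤ X → 1 / 3 ≤ m → m ≤ κ → a ≠ 2 →
  (∀ v ∈ F, IsTri v ∧ (RR v : ℝ) ≤ X ∧ m * Real.log X ≤ hh v ∧
    hh v ≤ (m + δ) * Real.log X ∧ ∀ i, coord v a ≤ coord v i) →
  (F.card : ℝ) ≤ C * X ^ (max (1 - m) (3 / 5) + ε)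

/-- LDW: polynomial heights.  Windows `[θ + i δ, θ + (i + 1) δ]`, `i ≤ κ / δ` (`S_LDC` with `κ + 1`), two
values of `a`. -/
def S_LDW : Prop := ∀ θ κ ε : ℝ, 1 / 3 ≤ θ → θ ≤ κ → 1 ≤ κ → 0 < ε → ∃ C : ℝ, 1 ≤ C ∧
  ∀ (X : ℝ) (F : Finset (ℕ × ℕ)), 1 ≤ X →
  (∀ v ∈ F, IsTri v ∧ (RR v : ℝ) ≤ X ∧ θ * Real.log X ≤ hh v ∧ hh v ≤ κ * Real.log X) →
  (F.card : ℝ) ≤ C * X ^ (max (1 - θ) (3 / 5) + ε)

/-- LDR: THEOREM, `c ≥ R ^ θ`, polynomial heights.  Dyadic in the radical (`Z / 2 < RR v ≤ Z`, model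
`H3/BL/B35.lean`): `hh v ≥ θ log (Z / 2) ≥ (θ - ε / 4) log Z` for `Z ≥ Z0`; `S_LDW` with
`θ' = max (θ - ε / 4) (1 / 3)`, and if `θ - ε / 4 < 1 / 3` the triples with `v.1 + v.2 < Z ^ (1 / 3)` are at
most `Z ^ (2 / 3)`. -/
def S_LDR : Prop := ∀ θ κ ε : ℝ, 1 / 3 ≤ θ → θ ≤ κ → 1 ≤ κ → 0 < ε → ∃ C : ℝ, 1 ≤ C ∧
  ∀ (X : ℝ) (F : Finset (ℕ × ℕ)), 1 ≤ X →
  (∀ v ∈ F, IsTri v ∧ (RR v : ℝ) ≤ X ∧ θ * Real.log (RR v) ≤ hh v ∧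
    hh v ≤ κ * Real.log (RR v)) →
  (F.card : ℝ) ≤ C * X ^ (max (1 - θ) (3 / 5) + ε)

/-- LDH: THEOREM, by height: `0 < lam ≤ 3`.  Dyadic in the height `H / 2 < v.1 + v.2 ≤ H`, `X = H ^ lam`,
`θ = 1 / lam - ε'` (`ε' = ε / (4 lam)`), `κ = 1 / lam + 1`: `lam * max (1 - 1 / lam) (3 / 5)`.  If
`1 / lam - ε' < 1 / 3` all pairs are at most `H ^ 2`, and `2 ≤ lam - 1 + ε`. -/
def S_LDH : Prop := ∀ lam ε : ℝ, 0 < lam → lam ≤ 3 → 0 < ε → ∃ C : ℝ, 1 ≤ C ∧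
  ∀ (H : ℝ) (F : Finset (ℕ × ℕ)), 1 ≤ H →
  (∀ v ∈ F, IsTri v ∧ ((v.1 + v.2 : ℕ) : ℝ) ≤ H ∧
    (RR v : ℝ) ≤ ((v.1 + v.2 : ℕ) : ℝ) ^ lam) →
  (F.card : ℝ) ≤ C * H ^ (max (lam - 1) (3 * lam / 5) + ε)

/-- LOW: LOWER BOUND.  `H = X ^ θ` (real), `A = ⌊√(X / (20 H))⌋ ≥ 1` (`θ < 1`, `X ≥ X0`), so `A ≤ H`
(`θ ≥ 1 / 3`); `2 ^ l ∈ [H / A, 2 H / A)`.  Pairs `(a', 2 ^ l b')` with `1 ≤ a' ≤ A` odd,
`A < b' ≤ 2 A`, `gcd (a', b') = 1`: `c ≤ A + 4 H ≤ 5 H`, `c ≥ 2 ^ l b' ≥ H`,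
`rad ≤ a' (2 b') c ≤ 20 A ^ 2 H ≤ X`.  Number: all pairs `a'` odd, `b'`: at least `A ^ 2 / 2`; those with a
common divisor `d` (odd, `3 ≤ d ≤ A`): at most `∑_d ((A / d + 1) / 2) (A / d + 1)
≤ A ^ 2 / 8 + A (log A + 1) + A` (`∑_{j ≥ 1} 1 / (2 j + 1) ^ 2 ≤ ∑ 1 / (4 j (j + 1)) = 1 / 4`).  So at least
`A ^ 2 / 4 ≥ X ^ (1 - θ) / 320` for `X ≥ X0`. -/
def S_LOW : Prop := ∀ θ : ℝ, 1 / 3 ≤ θ → θ < 1 → ∃ c X0 : ℝ, 0 < c ∧ 1 ≤ X0 ∧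
  ∀ X : ℝ, X0 ≤ X → ∃ F : Finset (ℕ × ℕ),
    (∀ v ∈ F, IsTri v ∧ (RR v : ℝ) ≤ X ∧ X ^ θ ≤ ((v.1 + v.2 : ℕ) : ℝ)) ∧
    c * X ^ (1 - θ) ≤ F.card

end Pool.LDV
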