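import Pool.Agent.H21.ASY.Final
import Pool.Agent.H10.LDV.Stmts
import Pool.Agent.H46.EXC.Stmts

/-!
# LDV: the number of triples with `a + b ≥ rad ^ θ`, all heights, general exponent `T`
-/

set_option autoImplicit false

namespace Pool.LDV.Final

open Finset Pool.Agent.H98.ABCR Pool.SHA Pool.ASY

/-- the statement of `Pool.LDV.S_LDR` with a general exponent `T` (conclusion of
`Pool.LDV2.S_LRX`) -/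
def LR (T : ℝ) : Prop := ∀ θ κ ε : ℝ, 1 / 3 ≤ θ → θ ≤ κ → 1 ≤ κ → 0 < ε → ∃ C : ℝ, 1 ≤ C ∧
  ∀ (X : ℝ) (F : Finset (ℕ × ℕ)), 1 ≤ X →
  (∀ v ∈ F, IsTri v ∧ (RR v : ℝ) ≤ X ∧ θ * Real.log (RR v) ≤ hh v ∧
    hh v ≤ κ * Real.log (RR v)) →
  (F.card : ℝ) ≤ C * X ^ (max (1 - θ) T + ε)

theorem lr_of_ldr (h : Pool.LDV.S_LDR) : LR (3 / 5) := h

theorem tri_fin {X : ℝ} (hX : 1 ≤ X) : (Pool.VIO.Tri X).Finite := by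
  obtain ⟨c, C, hc, hC, h⟩ := all_FIN
  exact (h X hX).1

/-- upper bound, all heights -/
theorem upper {T : ℝ} (hT : 1 / 3 ≤ T) (h : LR T) (hx : Pool.EXC.S_XFI) :
    ∀ θ ε : ℝ, 1 / 3 ≤ θ → 0 < ε → ∃ C : ℝ, ∀ X : ℝ, 1 ≤ X →
    (({t | t ∈ Pool.VIO.Tri X ∧ (Rd t : ℝ) ^ θ ≤ ((t.1 + t.2 : ℕ) : ℝ)} :
      Set (ℕ × ℕ)).ncard : ℝ) ≤ C * X ^ (max (1 - θ) T + ε) := by
  intro θ ε hθ hε
  obtain ⟨κ0, C0, h0⟩ := hx ε hε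
  obtain ⟨κ, hκ⟩ : ∃ κ : ℝ, κ = max κ0 (max θ 1) := ⟨_, rfl⟩
  have k1 : κ0 ≤ κ := hκ ▸ le_max_left _ _
  have k2 : θ ≤ κ := hκ ▸ (le_max_left _ _).trans (le_max_right _ _)
  have k3 : 1 ≤ κ := hκ ▸ (le_max_right _ _).trans (le_max_right _ _)
  obtain ⟨C1, hC1, h1⟩ := h θ κ ε hθ k2 k3 hε
  refine ⟨C1 + |C0|, fun X hX => ?_⟩
  obtain ⟨hfin, hcard⟩ := h0 X hX
  obtain ⟨U, hU⟩ : ∃ U : ℝ, U = max (1 - θ) T + ε := ⟨_, rfl⟩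
  have hU3 : 1 / 3 + ε ≤ U := by
    have := le_max_right (1 - θ) T
    rw [hU]; linarith
  rw [← hU]
  set A1 : Set (ℕ × ℕ) := {t | t ∈ Pool.VIO.Tri X ∧ (Rd t : ℝ) ^ θ ≤ ((t.1 + t.2 : ℕ) : ℝ) ∧
    ((t.1 + t.2 : ℕ) : ℝ) ≤ (Rd t : ℝ) ^ κ} with hA1
  have hA1f : A1.Finite := (tri_fin hX).subset fun t ht => ht.1
  have hsub : {t | t ∈ Pool.VIO.Tri X ∧ (Rd t : ℝ) ^ θ ≤ ((t.1 + t.2 : ℕ) : ℝ)} ⊆
      A1 ∪ Pool.VIO.Exc κ0 X := by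
    rintro t ⟨ht, h2⟩
    by_cases h3 : ((t.1 + t.2 : ℕ) : ℝ) ≤ (Rd t : ℝ) ^ κ
    · exact Or.inl ⟨ht, h2, h3⟩
    · refine Or.inr ⟨ht, ?_⟩
      push Not at h3
      refine lt_of_le_of_lt ?_ h3
      have hR2 : 2 ≤ Rd t := two_le_Rd t ht.1 ht.2.1
      have hRr : (1 : ℝ) ≤ (Rd t : ℝ) := by exact_mod_cast (by omega : 1 ≤ Rd t)
      exact Real.rpow_le_rpow_of_exponent_le hRr k1
  have hc1 : (A1.ncard : ℝ) ≤ C1 * X ^ U := by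
    rw [Set.ncard_eq_toFinset_card _ hA1f, hU]
    refine h1 X hA1f.toFinset hX fun v hv => ?_
    rw [Set.Finite.mem_toFinset] at hv
    obtain ⟨⟨a1, a2, a3, a4⟩, a5, a6⟩ := hv
    have hR2 : 2 ≤ Rd v := two_le_Rd v a1 a2
    have hRr : (2 : ℝ) ≤ (Rd v : ℝ) := by exact_mod_cast hR2
    have hR0 : (0 : ℝ) < (Rd v : ℝ) := by linarith
    have hRR : RR v = Rd v := rfl
    have hs : (0 : ℝ) < ((v.1 + v.2 : ℕ) : ℝ) := by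
      have : 0 < v.1 + v.2 := by omega
      exact_mod_cast this
    refine ⟨⟨a1, a2, a3⟩, a4, ?_, ?_⟩
    · rw [hRR]
      have := Real.log_le_log (Real.rpow_pos_of_pos hR0 θ) a5
      rwa [Real.log_rpow hR0] at this
    · rw [hRR]
      have := Real.log_le_log hs a6
      rwa [Real.log_rpow hR0] at this
  have hX0 : 0 < X := by linarith
  have h5 : ({t | t ∈ Pool.VIO.Tri X ∧ (Rd t : ℝ) ^ θ ≤ ((t.1 + t.2 : ℕ) : ℝ)} :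
      Set (ℕ × ℕ)).ncard ≤ A1.ncard + (Pool.VIO.Exc κ0 X).ncard :=
    (Set.ncard_le_ncard hsub (hA1f.union hfin)).trans (Set.ncard_union_le _ _)
  calc (({t | t ∈ Pool.VIO.Tri X ∧ (Rd t : ℝ) ^ θ ≤ ((t.1 + t.2 : ℕ) : ℝ)} :
      Set (ℕ × ℕ)).ncard : ℝ)
      ≤ (A1.ncard : ℝ) + ((Pool.VIO.Exc κ0 X).ncard : ℝ) := by exact_mod_cast h5
    _ ≤ C1 * X ^ U + |C0| * X ^ U := by
        have h6 : X ^ (1 / 3 + ε) ≤ X ^ U := Real.rpow_le_rpow_of_exponent_le hX hU3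
        have h7 : C0 * X ^ (1 / 3 + ε) ≤ |C0| * X ^ U :=
          mul_le_mul (le_abs_self _) h6 (Real.rpow_nonneg hX0.le _) (abs_nonneg _)
        linarith
    _ = (C1 + |C0|) * X ^ U := by ring

/-- lower bound -/
theorem lower (h : Pool.LDV.S_LOW) : ∀ θ : ℝ, 1 / 3 ≤ θ → θ < 1 → ∃ c X₀ : ℝ, 0 < c ∧
    ∀ X : ℝ, X₀ ≤ X → c * X ^ (1 - θ) ≤
      (({t | t ∈ Pool.VIO.Tri X ∧ X ^ θ ≤ ((t.1 + t.2 : ℕ) : ℝ)} : Set (ℕ × ℕ)).ncard : ℝ) := by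
  intro θ h1 h2
  obtain ⟨c, X0, hc, hX0, H⟩ := h θ h1 h2
  refine ⟨c, X0, hc, fun X hX => ?_⟩
  obtain ⟨F, hF, hcard⟩ := H X hX
  refine hcard.trans ?_
  have hfin : ({t | t ∈ Pool.VIO.Tri X ∧ X ^ θ ≤ ((t.1 + t.2 : ℕ) : ℝ)} : Set (ℕ × ℕ)).Finite :=
    (tri_fin (hX0.trans hX)).subset fun t ht => ht.1
  have hs : (F : Set (ℕ × ℕ)) ⊆ {t | t ∈ Pool.VIO.Tri X ∧ X ^ θ ≤ ((t.1 + t.2 : ℕ) : ℝ)} := by
    intro v hv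
    obtain ⟨⟨a1, a2, a3⟩, a4, a5⟩ := hF v hv
    exact ⟨⟨a1, a2, a3, a4⟩, a5⟩
  have := Set.ncard_le_ncard hs hfin
  rw [Set.ncard_coe_finset] at this
  exact_mod_cast this

end Pool.LDV.Final
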